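import Pool.Agent.R320.JL.Vol

/-! # One block of zeros -/

set_option autoImplicit false

namespace Pool.Agent.R320.JL

open Filter Topology MeasureTheory Set
open SG (ord NZ)
open Pool.Agent.Y743.NC (dev dev_nonneg dev_int ff)
open Pool.Agent.Y743.LR (yv)
open Pool.Agent.Y743.CL (lm log_nat bigT lm_nonneg exM)
open Pool.Agent.R320.CL (SS)

noncomputable section

/-- the linear combination of the gap sums -/
def fn {k : ℕ} (c : Fin k → ℝ) (r : ℕ) (b : Fin k → ℕ) (n : ℕ) : ℝ :=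
  (∑ i, c i * (SS (b i) n - b i)) / lm r

lemma Wb_meas (T b M q K η : ℝ) (J : ℕ) : MeasurableSet (Wb T b M q K η J) := by
  have h : ∀ a s p : ℝ, MeasurableSet {t | p ≤ |YY T a (t + s)|} := fun a s p =>
    measurableSet_le measurable_const ((YY_meas T a).comp (measurable_id.add_const _)).abs
  unfold Wb
  refine (((h _ _ _).union (h _ _ _)).union (MeasurableSet.union ?_ ?_))
  · exact Finset.measurableSet_biUnion _ fun i _ => h _ _ _
  · exact Finset.measurableSet_biUnion _ fun i _ => h _ _ _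

/-- one zero -/
lemma one_zero {k : ℕ} (c : Fin k → ℝ) {r : ℕ} {b : Fin k → ℕ} (hb : ∀ i, 1 ≤ b i ∧ b i ≤ r)
    {T M K η t : ℝ} {J n : ℕ} (hT : 100 ≤ T) (hq : 0 < lm r) (hη : 0 < η)
    (hMq : M ≤ η * lm r / 8) (hK : 0 < K) (hI : K / η + 2 ≤ J) (hn : 1 ≤ n)
    (hrL : (r : ℝ) ≤ Real.log T / 32) (hqr : (K + 2 * η) * lm r ≤ r) (hηq : 3 / 16 ≤ η * lm r)
    (h1 : T ≤ ord n) (h2 : ord n ≤ 2 * T)
    (ht1 : ord n - M * (2 * Real.pi / Real.log T) ≤ t) (ht2 : t < ord n)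
    (hW : ∀ i, t ∉ Wb T (b i) M (lm r) K η J) :
    ‖Complex.exp (Complex.I * (fn c r b n : ℂ)) -
      Complex.exp (Complex.I * (Zc (fun i => -c i) r b T t : ℂ))‖ ≤ 3 * η * ∑ i, |c i| := by
  have hpi := Real.pi_pos
  have hL : 0 < Real.log T := Real.log_pos (by linarith)
  refine (exp_lip _ _).trans ?_
  have hone : ∀ i, |(SS (b i) n - b i) + YY T (b i) t| ≤ 3 * (η * lm r) := by
    intro i
    have k1 := inv_key (b := (b i : ℝ)) rfl (by linarith) hq hη hMq hK hI hn ht1 ht2 (hW i)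
    have k2 : |YY T (b i) t| < K * lm r := by
      have := hW i
      unfold Wb at this
      simp only [mem_union, mem_setOf_eq, not_or, not_le, add_zero] at this
      exact this.1.1
    obtain ⟨k3, k4⟩ := abs_le.1 k1
    obtain ⟨k5, k6⟩ := abs_lt.1 k2
    have hbr : (b i : ℝ) ≤ r := by exact_mod_cast (hb i).2
    have hg : (ord (n + b i) - ord n) / (2 * Real.pi) = (b i + ff T (b i) n) / Real.log T := by
      unfold ff yv
      field_simp
      ring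
    have hg2 : (ord (n + b i) - ord n) / (2 * Real.pi) ≤ 1 / 16 := by
      rw [hg, div_le_iff₀ hL]
      linarith
    have k7 := SS_gL hT hn h1 h2 hg2
    obtain ⟨k8, k9⟩ := abs_le.1 k7
    rw [abs_le]
    constructor <;> linarith
  have e : fn c r b n - Zc (fun i => -c i) r b T t =
      (∑ i, c i * ((SS (b i) n - b i) + YY T (b i) t)) / lm r := by
    unfold fn Zc
    rw [← sub_div, ← Finset.sum_sub_distrib]
    congr 1
    refine Finset.sum_congr rfl fun i _ => ?_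
    ring
  rw [e, abs_div, abs_of_pos hq, div_le_iff₀ hq]
  refine (Finset.abs_sum_le_sum_abs _ _).trans ?_
  calc ∑ i, |c i * ((SS (b i) n - b i) + YY T (b i) t)| ≤ ∑ i, |c i| * (3 * (η * lm r)) := by
        refine Finset.sum_le_sum fun i _ => ?_
        rw [abs_mul]
        exact mul_le_mul_of_nonneg_left (hone i) (abs_nonneg _)
    _ = _ := by rw [← Finset.sum_mul]; ring

lemma QQ_neg {k : ℕ} (c : Fin k → ℝ) (r : ℕ) (b : Fin k → ℕ) : QQ (fun i => -c i) r b = QQ c r b := by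
  unfold QQ
  refine Finset.sum_congr rfl fun i _ => Finset.sum_congr rfl fun j _ => ?_
  ring

theorem blk {k : ℕ} (c : Fin k → ℝ) (B : ℝ) (hB : 1 ≤ B) (ε : ℝ) (hε : 0 < ε) : ∀ᶠ r : ℕ in atTop,
    ∀ T : ℝ, 1 ≤ T → r * Real.log r ≤ B * Real.log T → ∀ b : Fin k → ℕ, (∀ i, 1 ≤ b i ∧ b i ≤ r) →
    ∀ A A' : ℝ, T + Real.log T + 20 ≤ A → A + 1 ≤ A' → A' ≤ 2 * T - Real.log T - 20 →
    ‖(∑ n ∈ Finset.Ioc (NZ A) (NZ A'), Complex.exp (Complex.I * (fn c r b n : ℂ))) -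
      ((Real.log T / (2 * Real.pi) * ((A' - A) * Real.exp (-(QQ c r b / 2))) : ℝ) : ℂ)‖ ≤
      ε * (T * Real.log T) := by
  have hpi := Real.pi_pos
  have hpi3 := Real.pi_gt_three
  have hpi4 := Real.pi_lt_d2
  obtain ⟨S, hS⟩ : ∃ S : ℝ, S = ∑ i, |c i| := ⟨_, rfl⟩
  have hS0 : 0 ≤ S := by rw [hS]; exact Finset.sum_nonneg fun _ _ => abs_nonneg _
  obtain ⟨η, hηd⟩ : ∃ η : ℝ, η = min 2 ε / (3 * (S + 1)) := ⟨_, rfl⟩
  have hη : 0 < η := by rw [hηd]; positivity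
  have hδ2 : 3 * η * S ≤ 2 := by
    have h1 : 3 * η * (S + 1) = min 2 ε := by rw [hηd]; field_simp
    have h2 : 3 * η * S ≤ 3 * η * (S + 1) := by nlinarith
    exact h2.trans (h1.le.trans (min_le_left _ _))
  have hδε : 3 * η * S ≤ ε := by
    have h1 : 3 * η * (S + 1) = min 2 ε := by rw [hηd]; field_simp
    have h2 : 3 * η * S ≤ 3 * η * (S + 1) := by nlinarith
    exact h2.trans (h1.le.trans (min_le_right _ _))
  obtain ⟨C, T0, hC, hT0, hv⟩ := varB B hB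
  obtain ⟨M, hM1, hM⟩ := exM C (ε / 6) (by positivity)
  have hM0 : 0 < M := by linarith
  obtain ⟨K, hK, hWv⟩ := Wb_vol B hB M hM0 η hη (ε / (2 * (k + 1))) (by positivity)
  obtain ⟨J, hJ⟩ := exists_nat_ge (K / η + 2)
  obtain ⟨s, hsd⟩ : ∃ s : ℝ, s = Real.sqrt (C + Real.log (1 + M)) := ⟨_, rfl⟩
  have hlM : 0 ≤ Real.log (1 + M) := Real.log_nonneg (by linarith)
  have hs : 0 < s := by rw [hsd]; exact Real.sqrt_pos.2 (by linarith)
  have hs2 : s ^ 2 = C + Real.log (1 + M) := by rw [hsd, Real.sq_sqrt (by linarith)]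
  filter_upwards [leb (fun i => -c i) B hB ε hε, hWv J, lm_top.eventually_ge_atTop (8 * M / η),
    lm_top.eventually_ge_atTop (1 / η), lm_le (K + 2 * η) 0, log_nat.eventually_ge_atTop (32 * B),
    bigT B hB (max (max T0 100) (24 * M / ε)),
    bigT B hB (Real.exp (max 1 (max (2 * Real.pi * M) (M * Real.log M))))] with r h1 h2 h3 h4 h5 h6 h7 h8
  intro T hT1 hrT b hb A A' hA hAA hA'
  have hTb := h7 T hT1 hrT
  have hTT0 : T0 ≤ T := ((le_max_left _ _).trans (le_max_left _ _)).trans hTb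
  have hT100 : 100 ≤ T := ((le_max_right _ _).trans (le_max_left _ _)).trans hTb
  have hTM : 24 * M / ε ≤ T := (le_max_right _ _).trans hTb
  have hTe := h8 T hT1 hrT
  obtain ⟨L, hL⟩ : ∃ L : ℝ, L = Real.log T := ⟨_, rfl⟩
  have hLe : max 1 (max (2 * Real.pi * M) (M * Real.log M)) ≤ L := by
    rw [hL, Real.le_log_iff_exp_le (by linarith)]
    exact hTe
  have hL1 : 1 ≤ L := (le_max_left _ _).trans hLe
  have hLM : 2 * Real.pi * M ≤ L := ((le_max_left _ _).trans (le_max_right _ _)).trans hLe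
  have hLM2 : M * Real.log M ≤ L := ((le_max_right _ _).trans (le_max_right _ _)).trans hLe
  obtain ⟨q, hq⟩ : ∃ q : ℝ, q = lm r := ⟨_, rfl⟩
  have hq0 : 0 < lm r := lt_of_lt_of_le (by positivity) h4
  have hη1 : 1 ≤ η * lm r := by
    rw [div_le_iff₀ hη] at h4
    linarith
  have hMq : M ≤ η * lm r / 8 := by
    rw [div_le_iff₀ hη] at h3
    linarith
  have hrL : (r : ℝ) ≤ Real.log T / 32 := by
    have h9 : (r : ℝ) * (32 * B) ≤ B * Real.log T := by
      calc (r : ℝ) * (32 * B) ≤ r * Real.log r := by gcongr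
        _ ≤ _ := hrT
    nlinarith
  obtain ⟨ℓ, hℓ⟩ : ∃ ℓ : ℝ, ℓ = M * (2 * Real.pi / Real.log T) := ⟨_, rfl⟩
  have hℓ0 : 0 < ℓ := by
    rw [hℓ, ← hL]; positivity
  have hℓ1 : ℓ ≤ 1 := by
    have : ℓ = 2 * Real.pi * M / L := by rw [hℓ, hL]; ring
    rw [this, div_le_one (by linarith)]
    exact hLM
  have hT' : 0 < T := by linarith
  rw [← hL] at hA hA' ⊢
  obtain ⟨W, hWd⟩ : ∃ W : Set ℝ, W = ⋃ i ∈ (Finset.univ : Finset (Fin k)),
    (Wb T (b i) M (lm r) K η J ∩ Icc (T + 14) (2 * T - 14)) := ⟨_, rfl⟩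
  have hWm : MeasurableSet W := by
    rw [hWd]
    exact Finset.measurableSet_biUnion _ fun i _ => (Wb_meas _ _ _ _ _ _ _).inter measurableSet_Icc
  have hWvol : volume.real (W ∩ Icc T (2 * T)) ≤ ε / 2 * T := by
    have a1 : volume.real (W ∩ Icc T (2 * T)) ≤ volume.real W := by
      refine measureReal_mono inter_subset_left ?_
      rw [hWd]
      refine ((measure_biUnion_finset_le _ _).trans_lt (ENNReal.sum_lt_top.2 fun i _ => ?_)).ne
      exact (measure_mono inter_subset_right).trans_lt (by rw [Real.volume_Icc]; exact ENNReal.ofReal_lt_top)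
    refine a1.trans ?_
    rw [hWd]
    refine (measureReal_biUnion_finset_le _ _).trans ?_
    refine (Finset.sum_le_sum fun i _ => h2 T hT1 hrT (b i) (hb i).1 (hb i).2).trans ?_
    rw [Finset.sum_const, Finset.card_univ, Fintype.card_fin, nsmul_eq_mul]
    have e1 : (k : ℝ) * (ε / (2 * (k + 1)) * T) = (k / (k + 1)) * (ε / 2 * T) := by
      field_simp
    rw [e1]
    have e2 : (k : ℝ) / (k + 1) ≤ 1 := by
      rw [div_le_one (by positivity)]
      linarith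
    calc _ ≤ 1 * (ε / 2 * T) := by gcongr
      _ = _ := one_mul _
  have hpalm := palmF (T := T) (M := M) (s := s) (δ := 3 * η * S) (A := A) (B' := A') (by linarith) hM0 hs
    (by positivity) hδ2 (by rw [← hℓ]; linarith) (by rw [← hℓ]; linarith) (by linarith)
    (fun n => Complex.exp (Complex.I * (fn c r b n : ℂ)))
    (fun n => by rw [Complex.norm_exp_I_mul_ofReal])
    (fun t => Complex.exp (Complex.I * (Zc (fun i => -c i) r b T t : ℂ)))
    (Complex.measurable_exp.comp ((Complex.measurable_ofReal.comp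
        (Zc_meas _ r b T)).const_mul Complex.I))
    (fun t => by rw [Complex.norm_exp_I_mul_ofReal]) W hWm (by
      intro n hn1 hn2 hn3 t ht1 ht2 htW
      have htJ : t ∈ Icc (T + 14) (2 * T - 14) := by
        rw [← hℓ] at ht1
        exact ⟨by linarith, by linarith⟩
      rw [hS]
      refine one_zero c hb hT100 hq0 hη hMq hK hJ hn1 hrL (by linarith) (by linarith) (by linarith)
        (by linarith) ht1 ht2 fun i hi => htW ?_
      rw [hWd]
      simp only [Finset.mem_univ, iUnion_true, mem_iUnion]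
      exact ⟨i, hi, htJ⟩)
  have hleb := h1 T hT1 hrT b hb A A' (by rw [← hL]; linarith) (by linarith) (by rw [← hL]; linarith)
  rw [QQ_neg] at hleb
  have hdev := hv T hTT0 M hM0 (by rw [← hL]; nlinarith)
  rw [← hℓ] at hpalm
  rw [← hsd] at hM
  obtain ⟨S1, hs1⟩ : ∃ S1 : ℂ, S1 = ∑ n ∈ Finset.Ioc (NZ A) (NZ A'), Complex.exp (Complex.I * (fn c r b n : ℂ)) := ⟨_, rfl⟩
  obtain ⟨I1, hI1⟩ : ∃ I1 : ℂ, I1 = ∫ t in A..A', Complex.exp (Complex.I * (Zc (fun i => -c i) r b T t : ℂ)) := ⟨_, rfl⟩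
  rw [← hs1, ← hI1] at hpalm
  rw [← hI1] at hleb
  rw [← hs1]
  obtain ⟨m1, hm1⟩ : ∃ m1 : ℝ, m1 = (A' - A) * Real.exp (-(QQ c r b / 2)) := ⟨_, rfl⟩
  rw [← hm1] at hleb ⊢
  have hdevs : (s * T + (1 / s) * ∫ t in Icc T (2 * T), dev T M t) / 2 ≤ s * T := by
    have a1 : (1 / s) * ∫ t in Icc T (2 * T), dev T M t ≤ (1 / s) * (T * s ^ 2) := by
      rw [hs2]; gcongr
    have a2 : (1 / s) * (T * s ^ 2) = s * T := by field_simp
    linarith
  -- the error in `hpalm`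
  have hE : M * (3 * η * S * T + 2 * volume.real (W ∩ Icc T (2 * T)) + 4 * ℓ) +
      (3 + 3 * η * S) * ((s * T + (1 / s) * ∫ t in Icc T (2 * T), dev T M t) / 2) ≤
      M * (3 * ε * T) := by
    have a1 : (3 + 3 * η * S) * ((s * T + (1 / s) * ∫ t in Icc T (2 * T), dev T M t) / 2) ≤
        5 * (s * T) := by
      have b1 : 0 ≤ s * T := by positivity
      have b2 : 0 ≤ 3 + 3 * η * S := by positivity
      calc _ ≤ (3 + 3 * η * S) * (s * T) := mul_le_mul_of_nonneg_left hdevs b2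
        _ ≤ 5 * (s * T) := mul_le_mul_of_nonneg_right (by linarith) b1
    have a2 : 5 * (s * T) ≤ M * (5 / 6 * ε * T) := by
      have : s * T ≤ (ε / 6 * M) * T := mul_le_mul_of_nonneg_right hM hT'.le
      linarith
    have a3 : 4 * ℓ ≤ ε / 6 * T := by
      rw [div_le_iff₀ hε] at hTM
      have : 4 ≤ 4 * M := by linarith
      linarith
    have a4 : 3 * η * S * T ≤ ε * T := mul_le_mul_of_nonneg_right hδε hT'.le
    have a5 : M * (3 * η * S * T + 2 * volume.real (W ∩ Icc T (2 * T)) + 4 * ℓ) ≤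
        M * (ε * T + 2 * (ε / 2 * T) + ε / 6 * T) := by
      apply mul_le_mul_of_nonneg_left _ hM0.le
      linarith
    linarith
  have hp2 := hpalm.trans hE
  -- divide
  have e1 : S1 - ((L / (2 * Real.pi) * m1 : ℝ) : ℂ) =
      ((1 / ℓ : ℝ) : ℂ) * ((ℓ : ℂ) * S1 - (M : ℂ) * I1) +
      ((L / (2 * Real.pi) : ℝ) : ℂ) * (I1 - (m1 : ℂ)) := by
    have e2 : ((L / (2 * Real.pi) : ℝ) : ℂ) = ((1 / ℓ : ℝ) : ℂ) * (M : ℂ) := by
      rw [← Complex.ofReal_mul]
      congr 1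
      rw [hℓ, ← hL]
      field_simp
    have e3 : ((1 / ℓ : ℝ) : ℂ) * (ℓ : ℂ) = 1 := by
      rw [← Complex.ofReal_mul, one_div, inv_mul_cancel₀ hℓ0.ne', Complex.ofReal_one]
    rw [Complex.ofReal_mul, e2]
    linear_combination (-S1) * e3
  rw [e1]
  refine (norm_add_le _ _).trans ?_
  rw [norm_mul, norm_mul, Complex.norm_real, Complex.norm_real, Real.norm_eq_abs, Real.norm_eq_abs,
    abs_of_pos (by positivity : 0 < 1 / ℓ), abs_of_pos (by positivity : 0 < L / (2 * Real.pi))]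
  have f1 : 1 / ℓ * ‖(ℓ : ℂ) * S1 - (M : ℂ) * I1‖ ≤ L / (2 * Real.pi) * (3 * ε * T) := by
    have g1 : 1 / ℓ * (M * (3 * ε * T)) = L / (2 * Real.pi) * (3 * ε * T) := by
      rw [hℓ, ← hL]; field_simp
    rw [← g1]
    gcongr
  have f2 : L / (2 * Real.pi) * ‖I1 - (m1 : ℂ)‖ ≤ L / (2 * Real.pi) * (ε * T) := by gcongr
  have f3 : L / (2 * Real.pi) * (3 * ε * T) + L / (2 * Real.pi) * (ε * T) ≤ ε * (T * L) := by
    have : L / (2 * Real.pi) * (3 * ε * T) + L / (2 * Real.pi) * (ε * T) =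
      (4 / (2 * Real.pi)) * (ε * (T * L)) := by ring
    rw [this]
    have g2 : 4 / (2 * Real.pi) ≤ 1 := by
      rw [div_le_one (by positivity)]
      linarith
    have g3 : 0 ≤ ε * (T * L) := by positivity
    nlinarith
  linarith

lemma QQ_zero {k : ℕ} (r : ℕ) (b : Fin k → ℕ) : QQ (fun _ => (0 : ℝ)) r b = 0 := by
  unfold QQ
  simp

lemma fn_zero {k : ℕ} (r : ℕ) (b : Fin k → ℕ) (n : ℕ) : fn (fun _ => (0 : ℝ)) r b n = 0 := by
  unfold fn
  simp

/-- **one block** -/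
theorem blk2 {k : ℕ} (c : Fin k → ℝ) (B : ℝ) (hB : 1 ≤ B) (ε : ℝ) (hε : 0 < ε) : ∀ᶠ r : ℕ in atTop,
    ∀ T : ℝ, 1 ≤ T → r * Real.log r ≤ B * Real.log T → ∀ b : Fin k → ℕ, (∀ i, 1 ≤ b i ∧ b i ≤ r) →
    ∀ A A' : ℝ, T + Real.log T + 20 ≤ A → A + 1 ≤ A' → A' ≤ 2 * T - Real.log T - 20 →
    ‖∑ n ∈ Finset.Ioc (NZ A) (NZ A'), (Complex.exp (Complex.I * (fn c r b n : ℂ)) -
      (Real.exp (-(QQ c r b / 2)) : ℂ))‖ ≤ ε * (T * Real.log T) := by
  obtain ⟨D, hD⟩ : ∃ D : ℝ, D = Real.exp ((∑ i, |c i|) ^ 2) := ⟨_, rfl⟩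
  have hD0 : 0 < D := by rw [hD]; exact Real.exp_pos _
  filter_upwards [blk c B hB (ε / 2) (by positivity),
    blk (fun _ : Fin k => (0 : ℝ)) B hB (ε / (2 * D)) (by positivity),
    log_nat.eventually_ge_atTop 1] with r h1 h2 h3
  intro T hT1 hrT b hb A A' hA hAA hA'
  have g1 := h1 T hT1 hrT b hb A A' hA hAA hA'
  have g2 := h2 T hT1 hrT b hb A A' hA hAA hA'
  rw [QQ_zero] at g2
  simp only [fn_zero, Complex.ofReal_zero, mul_zero, Complex.exp_zero, zero_div, neg_zero, Real.exp_zero,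
    mul_one, Finset.sum_const, nsmul_eq_mul] at g2
  obtain ⟨E, hE⟩ : ∃ E : ℝ, E = Real.exp (-(QQ c r b / 2)) := ⟨_, rfl⟩
  rw [← hE] at g1 ⊢
  have hE0 : 0 < E := by rw [hE]; exact Real.exp_pos _
  have hED : E ≤ D := by
    rw [hE, hD]
    apply Real.exp_le_exp.2
    have := (abs_le.1 (QQ_bd c h3 b hb)).1
    nlinarith [sq_nonneg (∑ i, |c i|)]
  rw [Finset.sum_sub_distrib, Finset.sum_const, nsmul_eq_mul]
  obtain ⟨m1, hm1⟩ : ∃ m1 : ℝ, m1 = Real.log T / (2 * Real.pi) * (A' - A) := ⟨_, rfl⟩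
  rw [← hm1] at g2
  have e0 : Real.log T / (2 * Real.pi) * ((A' - A) * E) = m1 * E := by rw [hm1]; ring
  rw [e0] at g1
  obtain ⟨S1, hs1⟩ : ∃ S1 : ℂ, S1 = ∑ n ∈ Finset.Ioc (NZ A) (NZ A'), Complex.exp (Complex.I * (fn c r b n : ℂ)) := ⟨_, rfl⟩
  rw [← hs1] at g1 ⊢
  obtain ⟨m2, hm2⟩ : ∃ m2 : ℂ, m2 = ((Finset.Ioc (NZ A) (NZ A')).card : ℂ) := ⟨_, rfl⟩
  rw [← hm2] at g2 ⊢
  have e1 : S1 - m2 * (E : ℂ) = (S1 - ((m1 * E : ℝ) : ℂ)) - (E : ℂ) * (m2 - (m1 : ℂ)) := by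
    push_cast
    ring
  rw [e1]
  refine (norm_sub_le _ _).trans ?_
  rw [norm_mul, Complex.norm_real, Real.norm_eq_abs, abs_of_pos hE0]
  have e2 : E * ‖m2 - (m1 : ℂ)‖ ≤ D * (ε / (2 * D) * (T * Real.log T)) := by gcongr
  have e3 : D * (ε / (2 * D) * (T * Real.log T)) = ε / 2 * (T * Real.log T) := by field_simp
  linarith

end

end Pool.Agent.R320.JL
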