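import Pool.Agent.R320.JL.Cp

/-! # The characteristic function of a prime polynomial with complex coefficients -/

set_option autoImplicit false

namespace Pool.Agent.R320.JL

open Filter Topology MeasureTheory Complex
open Pool.Agent.Y743.CL (pr pr_apply pr_supp SS SS_eq SS_le SS_upper SS_lower SS_zero SS_nonneg VS VS_nonneg
  Pr mem_Pr pr_orth)

noncomputable section

/-- Taylor's formula for the exponential function on the imaginary axis -/
lemma exp_taylor (n : ℕ) : ∀ x : ℝ,
    ‖Complex.exp (I * x) - ∑ m ∈ Finset.range n, (I * x) ^ m / m.factorial‖ ≤ |x| ^ n / n.factorial := by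
  induction n with
  | zero =>
    intro x
    simp only [Finset.range_zero, Finset.sum_empty, sub_zero, pow_zero, Nat.factorial_zero,
      Nat.cast_one, div_one]
    rw [Complex.norm_exp_I_mul_ofReal]
  | succ n ih =>
    have hd : ∀ s : ℝ, HasDerivAt (fun s : ℝ => Complex.exp (I * s) -
        ∑ m ∈ Finset.range (n + 1), (I * s) ^ m / m.factorial)
        (I * (Complex.exp (I * s) - ∑ m ∈ Finset.range n, (I * s) ^ m / m.factorial)) s := by
      intro s
      have h0 : HasDerivAt (fun s : ℝ => I * (s : ℂ)) I s := by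
        have := (Complex.ofRealCLM.hasDerivAt (x := s)).const_mul I
        simpa using this
      have h1 : HasDerivAt (fun s : ℝ => Complex.exp (I * s)) (Complex.exp (I * s) * I) s := h0.cexp
      have h2 : HasDerivAt (fun s : ℝ => ∑ m ∈ Finset.range (n + 1), (I * (s : ℂ)) ^ m / m.factorial)
          (∑ m ∈ Finset.range (n + 1), (m * (I * s) ^ (m - 1) * I) / m.factorial) s := by
        refine HasDerivAt.fun_sum fun m _ => ?_
        exact (h0.pow m).div_const _
      have h3 := h1.sub h2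
      have e : Complex.exp (I * s) * I - ∑ m ∈ Finset.range (n + 1), (m * (I * s) ^ (m - 1) * I) /
          m.factorial = I * (Complex.exp (I * s) - ∑ m ∈ Finset.range n, (I * s) ^ m / m.factorial) := by
        rw [Finset.sum_range_succ', mul_sub, Finset.mul_sum]
        simp only [Nat.cast_zero, zero_mul, zero_div, add_zero]
        congr 1
        · ring
        · refine Finset.sum_congr rfl fun m _ => ?_
          rw [Nat.add_sub_cancel, Nat.factorial_succ]
          have h5 : ((m : ℂ) + 1) ≠ 0 := by exact_mod_cast (Nat.succ_ne_zero m)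
          have h6 : (m.factorial : ℂ) ≠ 0 := by exact_mod_cast m.factorial_ne_zero
          push_cast
          field_simp
      rw [e] at h3
      exact h3
    have hpos : ∀ x : ℝ, 0 ≤ x → ‖Complex.exp (I * x) -
        ∑ m ∈ Finset.range (n + 1), (I * x) ^ m / m.factorial‖ ≤ x ^ (n + 1) / (n + 1).factorial := by
      intro x hx
      have hB : ∀ y : ℝ, HasDerivAt (fun y : ℝ => y ^ (n + 1) / (n + 1).factorial)
          (y ^ n / n.factorial) y := by
        intro y
        have h1 := (hasDerivAt_pow (n + 1) y).div_const ((n + 1).factorial : ℝ)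
        have e : ((n + 1 : ℕ) : ℝ) * y ^ (n + 1 - 1) / ((n + 1).factorial : ℝ) =
            y ^ n / n.factorial := by
          rw [Nat.add_sub_cancel, Nat.factorial_succ]
          have h5 : ((n : ℝ) + 1) ≠ 0 := by positivity
          have h6 : (n.factorial : ℝ) ≠ 0 := by positivity
          push_cast
          field_simp
        rw [e] at h1
        exact h1
      refine image_norm_le_of_norm_deriv_right_le_deriv_boundary (a := 0) (b := x)
        (f := fun s : ℝ => Complex.exp (I * s) - ∑ m ∈ Finset.range (n + 1), (I * s) ^ m / m.factorial)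
        (f' := fun s : ℝ => I * (Complex.exp (I * s) - ∑ m ∈ Finset.range n, (I * s) ^ m / m.factorial))
        (fun s _ => (hd s).continuousAt.continuousWithinAt)
        (fun s _ => (hd s).hasDerivWithinAt) (B := fun y : ℝ => y ^ (n + 1) / (n + 1).factorial)
        (B' := fun y : ℝ => y ^ n / n.factorial) ?_ hB ?_ ⟨hx, le_rfl⟩
      · rw [Finset.sum_range_succ']
        simp
      · intro y hy
        rw [norm_mul, Complex.norm_I, one_mul]
        have := ih y
        rwa [abs_of_nonneg hy.1] at this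
    intro x
    rcases le_total 0 x with h | h
    · rw [abs_of_nonneg h]; exact hpos x h
    · have h1 := hpos (-x) (by linarith)
      rw [abs_of_nonpos h]
      refine le_trans (le_of_eq ?_) h1
      rw [← RCLike.norm_conj]
      congr 1
      rw [map_sub, ← Complex.exp_conj, map_sum]
      have e : ∀ m : ℕ, (starRingEnd ℂ) ((I * (x : ℂ)) ^ m / m.factorial) =
          (I * ((-x : ℝ) : ℂ)) ^ m / m.factorial := by
        intro m
        rw [map_div₀, map_pow, map_mul, Complex.conj_I, Complex.conj_ofReal, Complex.conj_natCast]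
        push_cast
        congr 2
        ring
      simp only [e]
      rw [map_mul, Complex.conj_I, Complex.conj_ofReal]
      push_cast
      congr 2
      ring

/-- the main term of the moments of the real part -/
def gm (z : ℕ → ℂ) (X : ℕ) (w : ℝ) (m : ℕ) : ℝ :=
  1 / (2 * w) ^ m * ∑ k ∈ Finset.range (m + 1),
    (m.choose k : ℝ) * (if k = m - k then SS (nz z) X k else 0)

lemma re_pow (z : ℕ → ℂ) (X : ℕ) (w t : ℝ) (m : ℕ) : ((((PP z X t).re / w) ^ m : ℝ) : ℂ) =
    ((1 / (2 * w) ^ m : ℝ) : ℂ) * ∑ k ∈ Finset.range (m + 1),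
      (m.choose k : ℂ) * (PP z X t ^ k * (starRingEnd ℂ) (PP z X t) ^ (m - k)) := by
  have h1 : (((PP z X t).re : ℝ) : ℂ) = (PP z X t + (starRingEnd ℂ) (PP z X t)) / 2 := by
    rw [Complex.add_conj]
    push_cast
    ring
  push_cast
  rw [h1, div_pow, div_pow, add_pow]
  have h2 : ∑ k ∈ Finset.range (m + 1), PP z X t ^ k * (starRingEnd ℂ) (PP z X t) ^ (m - k) *
      (m.choose k : ℂ) = ∑ k ∈ Finset.range (m + 1),
      (m.choose k : ℂ) * (PP z X t ^ k * (starRingEnd ℂ) (PP z X t) ^ (m - k)) :=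
    Finset.sum_congr rfl fun k _ => by ring
  rw [h2, mul_pow]
  rw [div_div, div_eq_mul_inv, one_div]
  ring

lemma momR (z : ℕ → ℂ) (X : ℕ) (hX : 1 ≤ X) (T A B w K : ℝ) (hT : 1 ≤ T) (hAB : A ≤ B) (hw : 0 < w)
    (hK : 0 ≤ K) (hV : VS (nz z) X ≤ K * w ^ 2) (m : ℕ) (hXT : ((X ^ m : ℕ) : ℝ) ≤ Real.sqrt T) :
    ‖(∫ t in A..B, ((((PP z X t).re / w) ^ m : ℝ) : ℂ)) - ((B - A : ℝ) : ℂ) * (gm z X w m : ℂ)‖ ≤
      8 * (Real.sqrt T * (1 + Real.log T)) * (m.factorial * (1 + K) ^ m) := by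
  have hlogT : 0 ≤ Real.log T := Real.log_nonneg hT
  have hV0 := VS_nonneg (nz z) X
  have hPc := PP_cont z X
  have h1 : (∫ t in A..B, ((((PP z X t).re / w) ^ m : ℝ) : ℂ)) =
      ((1 / (2 * w) ^ m : ℝ) : ℂ) * ∑ k ∈ Finset.range (m + 1), (m.choose k : ℂ) *
        ∫ t in A..B, PP z X t ^ k * (starRingEnd ℂ) (PP z X t) ^ (m - k) := by
    simp only [re_pow]
    rw [intervalIntegral.integral_const_mul, intervalIntegral.integral_finsetSum]
    · simp only [intervalIntegral.integral_const_mul]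
    · intro k _
      apply Continuous.intervalIntegrable
      have : Continuous fun t => (starRingEnd ℂ) (PP z X t) := Complex.continuous_conj.comp hPc
      fun_prop
  have h2 : ((B - A : ℝ) : ℂ) * (gm z X w m : ℂ) = ((1 / (2 * w) ^ m : ℝ) : ℂ) *
      ∑ k ∈ Finset.range (m + 1), (m.choose k : ℂ) *
        (((B - A : ℝ) : ℂ) * (if k = m - k then (SS (nz z) X k : ℂ) else 0)) := by
    unfold gm
    rw [Complex.ofReal_mul, Complex.ofReal_sum, mul_left_comm, Finset.mul_sum]
    congr 1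
    refine Finset.sum_congr rfl fun k _ => ?_
    split_ifs <;> push_cast <;> ring
  rw [h1, h2, ← mul_sub, ← Finset.sum_sub_distrib, norm_mul, Complex.norm_real, Real.norm_eq_abs,
    abs_of_pos (by positivity)]
  have h3 : ∀ k ∈ Finset.range (m + 1), ‖(m.choose k : ℂ) *
      (∫ t in A..B, PP z X t ^ k * (starRingEnd ℂ) (PP z X t) ^ (m - k)) -
      (m.choose k : ℂ) * (((B - A : ℝ) : ℂ) * (if k = m - k then (SS (nz z) X k : ℂ) else 0))‖ ≤
      (m.choose k : ℝ) * (8 * (Real.sqrt T * (1 + Real.log T)) *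
        (m.factorial * ((1 + K) ^ m * w ^ m))) := by
    intro k hk
    have hk' : k ≤ m := by rw [Finset.mem_range] at hk; omega
    rw [← mul_sub, norm_mul, Complex.norm_natCast]
    refine mul_le_mul_of_nonneg_left ?_ (Nat.cast_nonneg _)
    have hkm : k + (m - k) = m := by omega
    have h4 := mom_bd z X hX T A B hT hAB k (m - k) (by rw [hkm]; exact hXT)
    refine h4.trans ?_
    refine mul_le_mul_of_nonneg_left ?_ (by positivity)
    have hs : Real.sqrt (VS (nz z) X) ≤ (1 + K) * w := by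
      rw [Real.sqrt_le_left (by positivity)]
      refine hV.trans ?_
      rw [mul_pow]
      refine mul_le_mul_of_nonneg_right ?_ (sq_nonneg _)
      nlinarith
    have e1 : ∀ i : ℕ, Real.sqrt ((i.factorial : ℝ) * VS (nz z) X ^ i) =
        Real.sqrt i.factorial * Real.sqrt (VS (nz z) X) ^ i := by
      intro i
      rw [Real.sqrt_mul (by positivity)]
      congr 1
      rw [Real.sqrt_eq_iff_mul_self_eq (by positivity) (by positivity), ← pow_add, ← two_mul,
        pow_mul, Real.sq_sqrt hV0]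
    rw [e1, e1]
    calc Real.sqrt k.factorial * Real.sqrt (VS (nz z) X) ^ k *
          (Real.sqrt (m - k).factorial * Real.sqrt (VS (nz z) X) ^ (m - k)) =
        (Real.sqrt k.factorial * Real.sqrt (m - k).factorial) *
          (Real.sqrt (VS (nz z) X) ^ k * Real.sqrt (VS (nz z) X) ^ (m - k)) := by ring
      _ = (Real.sqrt k.factorial * Real.sqrt (m - k).factorial) * Real.sqrt (VS (nz z) X) ^ m := by
          rw [← pow_add, hkm]
      _ ≤ (Real.sqrt m.factorial * Real.sqrt m.factorial) * ((1 + K) * w) ^ m := by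
          gcongr
          exact Nat.sub_le _ _
      _ = m.factorial * ((1 + K) ^ m * w ^ m) := by
          rw [Real.mul_self_sqrt (by positivity), mul_pow]
  have h5 := (norm_sum_le _ _).trans (Finset.sum_le_sum h3)
  rw [← Finset.sum_mul, ← Nat.cast_sum, Nat.sum_range_choose] at h5
  refine (mul_le_mul_of_nonneg_left h5 (by positivity)).trans (le_of_eq ?_)
  push_cast
  rw [mul_pow]
  field_simp

lemma gm_even (z : ℕ → ℂ) (X : ℕ) (w : ℝ) (hw : 0 < w) (a : ℕ) :
    gm z X w (2 * a) / (2 * a).factorial = SS (nz z) X a / (a.factorial ^ 2 * (4 * w ^ 2) ^ a) := by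
  unfold gm
  rw [Finset.sum_eq_single a]
  · rw [if_pos (by omega)]
    have h1 := Nat.add_choose_mul_factorial_mul_factorial a a
    rw [← two_mul] at h1
    have h2 : ((2 * a).choose a : ℝ) * a.factorial * a.factorial = (2 * a).factorial := by
      exact_mod_cast h1
    have h3 : (a.factorial : ℝ) ≠ 0 := by positivity
    have h4 : ((2 * a).choose a : ℝ) ≠ 0 := by
      have : 0 < (2 * a).choose a := Nat.choose_pos (by omega)
      positivity
    have h5 : (4 * w ^ 2) ^ a = (2 * w) ^ (2 * a) := by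
      rw [pow_mul]
      congr 1
      ring
    rw [h5, ← h2]
    field_simp
  · intro k hk hka
    rw [if_neg (by rw [Finset.mem_range] at hk; omega), mul_zero]
  · intro h
    exact absurd (Finset.mem_range.2 (by omega)) h

lemma gm_odd (z : ℕ → ℂ) (X : ℕ) (w : ℝ) (a : ℕ) : gm z X w (2 * a + 1) = 0 := by
  unfold gm
  rw [Finset.sum_eq_zero, mul_zero]
  intro k hk
  rw [if_neg (by rw [Finset.mem_range] at hk; omega), mul_zero]

lemma sum_even (f : ℕ → ℂ) (hf : ∀ a, f (2 * a + 1) = 0) (M : ℕ) :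
    ∑ m ∈ Finset.range (2 * M), f m = ∑ a ∈ Finset.range M, f (2 * a) := by
  induction M with
  | zero => simp
  | succ M ih =>
    rw [show 2 * (M + 1) = 2 * M + 1 + 1 by ring, Finset.sum_range_succ, Finset.sum_range_succ, ih, hf,
      Finset.sum_range_succ, add_zero]

/-- the normalised moments of the coefficients -/
lemma SS_near (z : ℕ → ℂ) (X : ℕ) (w K Mc : ℝ) (hw : 0 < w) (hK : 0 ≤ K) (hMc : 0 ≤ Mc)
    (hz : ∀ p, ‖z p‖ ^ 2 ≤ Mc) (hV : VS (nz z) X ≤ K * w ^ 2) (a : ℕ) :
    SS (nz z) X a / (a.factorial * w ^ (2 * a)) ≤ (VS (nz z) X / w ^ 2) ^ a ∧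
    (VS (nz z) X / w ^ 2) ^ a - SS (nz z) X a / (a.factorial * w ^ (2 * a)) ≤
      a ^ 2 * Mc * (1 + K) ^ a / w ^ 2 := by
  have hV0 := VS_nonneg (nz z) X
  set V := VS (nz z) X with hVd
  have hv0 : 0 ≤ V / w ^ 2 := by positivity
  have hvK : V / w ^ 2 ≤ K := by
    rw [div_le_iff₀ (by positivity)]; exact hV
  induction a with
  | zero => simp [SS_zero]
  | succ a ih =>
    obtain ⟨ih1, ih2⟩ := ih
    set s := SS (nz z) X a / (a.factorial * w ^ (2 * a)) with hs
    set s' := SS (nz z) X (a + 1) / ((a + 1).factorial * w ^ (2 * (a + 1))) with hs'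
    have hs0 : 0 ≤ s := by
      have := SS_nonneg (nz z) X a
      positivity
    have hfp : (0 : ℝ) < (a.factorial : ℝ) := by positivity
    have e1 : (((a + 1).factorial : ℕ) : ℝ) * w ^ (2 * (a + 1)) =
        ((a : ℝ) + 1) * w ^ 2 * (a.factorial * w ^ (2 * a)) := by
      rw [Nat.factorial_succ]
      push_cast
      ring
    have hD : 0 < (a.factorial : ℝ) * w ^ (2 * a) := by positivity
    have e2 : SS (nz z) X a = s * (a.factorial * w ^ (2 * a)) := by
      rw [hs]; field_simp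
    have up : s' ≤ V / w ^ 2 * s := by
      rw [hs', e1, div_le_iff₀ (by positivity)]
      refine (SS_upper (nz z) X a).trans (le_of_eq ?_)
      rw [e2, ← hVd]
      field_simp
    have lo : (V / w ^ 2 - a * Mc / w ^ 2) * s ≤ s' := by
      rw [hs', e1, le_div_iff₀ (by positivity)]
      refine le_trans (le_of_eq ?_) (SS_lower (X := X) (c := nz z) hz a)
      rw [e2, ← hVd]
      field_simp
    refine ⟨?_, ?_⟩
    · rw [pow_succ]
      calc s' ≤ V / w ^ 2 * s := up
        _ ≤ V / w ^ 2 * (V / w ^ 2) ^ a := by gcongr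
        _ = _ := by ring
    · have hsK : s ≤ K ^ a := ih1.trans (pow_le_pow_left₀ hv0 hvK a)
      have hsK' : s ≤ (1 + K) ^ a := hsK.trans (pow_le_pow_left₀ hK (by linarith) a)
      have h1 : (V / w ^ 2) ^ (a + 1) - s' ≤ V / w ^ 2 * ((V / w ^ 2) ^ a - s) + a * Mc / w ^ 2 * s := by
        rw [pow_succ]
        nlinarith [lo]
      have h2 : V / w ^ 2 * ((V / w ^ 2) ^ a - s) ≤ K * (a ^ 2 * Mc * (1 + K) ^ a / w ^ 2) := by
        apply mul_le_mul hvK ih2 (by linarith) hK
      have h3 : a * Mc / w ^ 2 * s ≤ a * Mc / w ^ 2 * (1 + K) ^ a := by gcongr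
      have h4 : K * (a ^ 2 * Mc * (1 + K) ^ a / w ^ 2) + a * Mc / w ^ 2 * (1 + K) ^ a =
          (K * a ^ 2 + a) * (Mc * (1 + K) ^ a / w ^ 2) := by ring
      have h5 : ((a + 1 : ℕ) : ℝ) ^ 2 * Mc * (1 + K) ^ (a + 1) / w ^ 2 =
          ((a : ℝ) + 1) ^ 2 * (1 + K) * (Mc * (1 + K) ^ a / w ^ 2) := by
        push_cast
        ring
      rw [h5]
      refine (h1.trans (add_le_add h2 h3)).trans ?_
      rw [h4]
      apply mul_le_mul_of_nonneg_right _ (by positivity)
      have : (0 : ℝ) ≤ a := Nat.cast_nonneg _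
      nlinarith [mul_nonneg hK this, mul_nonneg hK (sq_nonneg (a : ℝ))]

lemma cf_fin (z : ℕ → ℂ) (X : ℕ) (hX : 1 ≤ X) (T A B w K Mc : ℝ) (hT : 1 ≤ T) (hAB : A ≤ B)
    (hBT : B - A ≤ T) (hw : 0 < w) (hK : 0 ≤ K) (hMc : 0 ≤ Mc) (hz : ∀ p, ‖z p‖ ^ 2 ≤ Mc)
    (hV : VS (nz z) X ≤ K * w ^ 2) (M : ℕ) (hXT : ((X ^ (2 * M) : ℕ) : ℝ) ≤ Real.sqrt T)
    (hKM : K ≤ M / 2) :
    ‖(∫ t in A..B, Complex.exp (I * (((PP z X t).re / w : ℝ) : ℂ))) -
      (((B - A) * Real.exp (-(VS (nz z) X / (4 * w ^ 2))) : ℝ) : ℂ)‖ ≤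
      T * (K ^ M / M.factorial * 3) + T * (M * (M ^ 2 * Mc * (1 + K) ^ M / w ^ 2)) +
        8 * (Real.sqrt T * (1 + Real.log T)) * ((2 * M + 1) * (1 + K) ^ (2 * M)) := by
  have hlogT : 0 ≤ Real.log T := Real.log_nonneg hT
  have hV0 := VS_nonneg (nz z) X
  have hPc := PP_cont z X
  have hT0 : 0 < T := by linarith
  have hBA : 0 ≤ B - A := by linarith
  set R : ℝ → ℝ := fun t => (PP z X t).re / w with hR
  have hRc : Continuous R := by
    simp only [hR]
    exact (Complex.continuous_re.comp hPc).div_const _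
  set E : ℝ := 8 * (Real.sqrt T * (1 + Real.log T)) with hE
  have hE0 : 0 ≤ E := by positivity
  have hK1 : 1 ≤ 1 + K := by linarith
  -- the moments
  have hmom : ∀ m : ℕ, m ≤ 2 * M → ‖(∫ t in A..B, (((R t) ^ m : ℝ) : ℂ)) -
      ((B - A : ℝ) : ℂ) * (gm z X w m : ℂ)‖ ≤ E * (m.factorial * (1 + K) ^ (2 * M)) := by
    intro m hm
    have h1 := momR z X hX T A B w K hT hAB hw hK hV m (by
      refine le_trans ?_ hXT
      exact_mod_cast Nat.pow_le_pow_right hX hm)
    refine h1.trans ?_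
    gcongr
  -- Taylor
  have hint : ∀ m : ℕ, IntervalIntegrable (fun t => (((R t) ^ m : ℝ) : ℂ)) volume A B := fun m =>
    Continuous.intervalIntegrable (by fun_prop) _ _
  have hRc' : Continuous fun t => ((R t : ℝ) : ℂ) := Complex.continuous_ofReal.comp hRc
  have h1 : ‖(∫ t in A..B, Complex.exp (I * ((R t : ℝ) : ℂ))) - ∑ m ∈ Finset.range (2 * M),
      (I ^ m / m.factorial) * ∫ t in A..B, (((R t) ^ m : ℝ) : ℂ)‖ ≤
      (∫ t in A..B, R t ^ (2 * M)) / (2 * M).factorial := by
    have e1 : ∑ m ∈ Finset.range (2 * M), (I ^ m / m.factorial) * ∫ t in A..B, (((R t) ^ m : ℝ) : ℂ) =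
        ∫ t in A..B, ∑ m ∈ Finset.range (2 * M), (I * ((R t : ℝ) : ℂ)) ^ m / m.factorial := by
      rw [intervalIntegral.integral_finsetSum]
      · refine Finset.sum_congr rfl fun m _ => ?_
        rw [← intervalIntegral.integral_const_mul]
        refine intervalIntegral.integral_congr fun t _ => ?_
        show I ^ m / m.factorial * ((R t ^ m : ℝ) : ℂ) = (I * ((R t : ℝ) : ℂ)) ^ m / m.factorial
        push_cast
        ring
      · intro m _
        exact Continuous.intervalIntegrable (by fun_prop) _ _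
    rw [e1, ← intervalIntegral.integral_sub]
    · rw [← intervalIntegral.integral_div]
      refine intervalIntegral.norm_integral_le_of_norm_le hAB (ae_of_all _ fun t _ => ?_)
        (Continuous.intervalIntegrable (by fun_prop) _ _)
      refine (exp_taylor (2 * M) (R t)).trans (le_of_eq ?_)
      rw [(even_two_mul M).pow_abs]
    · exact Continuous.intervalIntegrable (by fun_prop) _ _
    · exact Continuous.intervalIntegrable (by fun_prop) _ _
  -- the top moment
  have hnear := SS_near z X w K Mc hw hK hMc hz hV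
  obtain ⟨v, hv⟩ : ∃ v : ℝ, v = VS (nz z) X / w ^ 2 := ⟨_, rfl⟩
  have hv0 : 0 ≤ v := by rw [hv]; positivity
  have hvK : v ≤ K := by
    rw [hv, div_le_iff₀ (by positivity)]; exact hV
  obtain ⟨s, hs⟩ : ∃ s : ℕ → ℝ, s = fun a => SS (nz z) X a / (a.factorial * w ^ (2 * a)) := ⟨_, rfl⟩
  have hge : ∀ a : ℕ, gm z X w (2 * a) / (2 * a).factorial = s a / (a.factorial * 4 ^ a) := by
    intro a
    rw [gm_even z X w hw a, hs]
    have h3 : (a.factorial : ℝ) ≠ 0 := by positivity
    simp only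
    rw [mul_pow, ← pow_mul]
    field_simp
  have hnear' : ∀ a : ℕ, s a ≤ v ^ a ∧ v ^ a - s a ≤ a ^ 2 * Mc * (1 + K) ^ a / w ^ 2 := by
    intro a
    rw [hs, hv]
    exact hnear a
  have htop : (∫ t in A..B, R t ^ (2 * M)) / (2 * M).factorial ≤
      T * (K ^ M / M.factorial) + E * (1 + K) ^ (2 * M) := by
    have h2 := hmom (2 * M) le_rfl
    have e2 : (∫ t in A..B, (((R t) ^ (2 * M) : ℝ) : ℂ)) = ((∫ t in A..B, R t ^ (2 * M) : ℝ) : ℂ) :=
      intervalIntegral.integral_ofReal
    rw [e2, ← Complex.ofReal_mul, ← Complex.ofReal_sub, Complex.norm_real, Real.norm_eq_abs] at h2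
    have h3 := (abs_le.1 h2).2
    have hf : (0 : ℝ) < (2 * M).factorial := by positivity
    have h4 : (∫ t in A..B, R t ^ (2 * M)) ≤ (B - A) * gm z X w (2 * M) +
        E * ((2 * M).factorial * (1 + K) ^ (2 * M)) := by linarith
    rw [div_le_iff₀ hf]
    refine h4.trans ?_
    have h5 : gm z X w (2 * M) = s M / (M.factorial * 4 ^ M) * (2 * M).factorial := by
      rw [← hge M]
      field_simp
    have h6 : s M ≤ K ^ M := (hnear' M).1.trans (pow_le_pow_left₀ hv0 hvK M)
    have h7 : s M / (M.factorial * 4 ^ M) ≤ K ^ M / M.factorial := by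
      have g1 : (1 : ℝ) ≤ 4 ^ M := one_le_pow₀ (by norm_num)
      have g2 : (0 : ℝ) < M.factorial := by positivity
      calc s M / (M.factorial * 4 ^ M) ≤ K ^ M / (M.factorial * 4 ^ M) := by gcongr
        _ ≤ K ^ M / M.factorial := by
          apply div_le_div_of_nonneg_left (by positivity) g2
          nlinarith
    have h8 : 0 ≤ K ^ M / (M.factorial : ℝ) := by positivity
    rw [h5]
    have h9 : (B - A) * (s M / (M.factorial * 4 ^ M) * (2 * M).factorial) ≤
        T * (K ^ M / M.factorial * (2 * M).factorial) := by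
      have g3 : s M / (M.factorial * 4 ^ M) * (2 * M).factorial ≤
        K ^ M / M.factorial * (2 * M).factorial := by gcongr
      calc _ ≤ (B - A) * (K ^ M / M.factorial * (2 * M).factorial) := by gcongr
        _ ≤ _ := by gcongr
    linarith
  -- the lower moments
  have hlow : ‖(∑ m ∈ Finset.range (2 * M), (I ^ m / m.factorial) * ∫ t in A..B, (((R t) ^ m : ℝ) : ℂ)) -
      ∑ m ∈ Finset.range (2 * M), (I ^ m / m.factorial) * (((B - A : ℝ) : ℂ) * (gm z X w m : ℂ))‖ ≤
      E * ((2 * M) * (1 + K) ^ (2 * M)) := by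
    rw [← Finset.sum_sub_distrib]
    refine (norm_sum_le _ _).trans ?_
    have h2 : ∀ m ∈ Finset.range (2 * M), ‖(I ^ m / m.factorial) * (∫ t in A..B, (((R t) ^ m : ℝ) : ℂ)) -
        (I ^ m / m.factorial) * (((B - A : ℝ) : ℂ) * (gm z X w m : ℂ))‖ ≤ E * (1 + K) ^ (2 * M) := by
      intro m hm
      rw [Finset.mem_range] at hm
      rw [← mul_sub, norm_mul, norm_div, norm_pow, Complex.norm_I, one_pow, Complex.norm_natCast]
      have h3 := hmom m hm.le
      have hf : (0 : ℝ) < m.factorial := by positivity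
      calc 1 / (m.factorial : ℝ) * _ ≤ 1 / m.factorial * (E * (m.factorial * (1 + K) ^ (2 * M))) := by
            gcongr
        _ = _ := by field_simp
    refine (Finset.sum_le_sum h2).trans (le_of_eq ?_)
    rw [Finset.sum_const, Finset.card_range, nsmul_eq_mul]
    push_cast
    ring
  -- the main term
  have hmain : ∑ m ∈ Finset.range (2 * M), (I ^ m / m.factorial) * (((B - A : ℝ) : ℂ) * (gm z X w m : ℂ)) =
      (((B - A) * ∑ a ∈ Finset.range M, (-1) ^ a * (s a / (a.factorial * 4 ^ a)) : ℝ) : ℂ) := by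
    rw [sum_even]
    · rw [Complex.ofReal_mul, Complex.ofReal_sum, Finset.mul_sum]
      refine Finset.sum_congr rfl fun a _ => ?_
      rw [← hge a, pow_mul, Complex.I_sq]
      push_cast
      ring
    · intro a
      rw [gm_odd]
      simp
  have hser : |(∑ a ∈ Finset.range M, (-1) ^ a * (s a / (a.factorial * 4 ^ a))) -
      Real.exp (-(v / 4))| ≤ M * (M ^ 2 * Mc * (1 + K) ^ M / w ^ 2) + K ^ M / M.factorial * 2 := by
    have h2 : |(∑ a ∈ Finset.range M, (-1 : ℝ) ^ a * (s a / (a.factorial * 4 ^ a))) -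
        ∑ a ∈ Finset.range M, (-(v / 4)) ^ a / a.factorial| ≤ M * (M ^ 2 * Mc * (1 + K) ^ M / w ^ 2) := by
      rw [← Finset.sum_sub_distrib]
      refine (Finset.abs_sum_le_sum_abs _ _).trans ?_
      have h3 : ∀ a ∈ Finset.range M, |(-1 : ℝ) ^ a * (s a / (a.factorial * 4 ^ a)) -
          (-(v / 4)) ^ a / a.factorial| ≤ M ^ 2 * Mc * (1 + K) ^ M / w ^ 2 := by
        intro a ha
        rw [Finset.mem_range] at ha
        have e3 : (-1 : ℝ) ^ a * (s a / (a.factorial * 4 ^ a)) - (-(v / 4)) ^ a / a.factorial =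
            (-1) ^ a * (-(v ^ a - s a) / (a.factorial * 4 ^ a)) := by
          rw [neg_pow (v / 4), div_pow]
          have h4 : (a.factorial : ℝ) ≠ 0 := by positivity
          have h5 : (4 : ℝ) ^ a ≠ 0 := by positivity
          generalize (-1 : ℝ) ^ a = q
          generalize (4 : ℝ) ^ a = r at h5
          field_simp
          ring
        rw [e3, abs_mul, abs_pow, abs_neg, abs_one, one_pow, one_mul, abs_div, abs_neg]
        have g1 : (1 : ℝ) ≤ (a.factorial : ℝ) * 4 ^ a := by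
          have g1a : (1 : ℝ) ≤ a.factorial := by exact_mod_cast Nat.one_le_iff_ne_zero.2 a.factorial_ne_zero
          have g1b : (1 : ℝ) ≤ 4 ^ a := one_le_pow₀ (by norm_num)
          nlinarith
        obtain ⟨k1', k2'⟩ := hnear' a
        rw [abs_of_nonneg (by linarith : (0 : ℝ) ≤ v ^ a - s a), abs_of_pos (by linarith)]
        calc (v ^ a - s a) / (a.factorial * 4 ^ a) ≤ v ^ a - s a := div_le_self (by linarith) g1
          _ ≤ a ^ 2 * Mc * (1 + K) ^ a / w ^ 2 := k2'
          _ ≤ _ := by gcongr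
      refine (Finset.sum_le_sum h3).trans (le_of_eq ?_)
      rw [Finset.sum_const, Finset.card_range, nsmul_eq_mul]
    have h4 : |Real.exp (-(v / 4)) - ∑ a ∈ Finset.range M, (-(v / 4)) ^ a / a.factorial| ≤
        K ^ M / M.factorial * 2 := by
      have hy0 : (0 : ℝ) ≤ v / 4 := by positivity
      have hyK : v / 4 ≤ K := by linarith
      have hn : ‖((-(v / 4) : ℝ) : ℂ)‖ = v / 4 := by
        rw [Complex.norm_real, Real.norm_eq_abs, abs_neg, abs_of_nonneg hy0]
      have h5 := Complex.exp_bound' (x := ((-(v / 4) : ℝ) : ℂ)) (n := M) (by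
        rw [hn, div_le_iff₀ (by positivity)]
        push_cast
        have : (0 : ℝ) ≤ M := Nat.cast_nonneg _
        linarith)
      have e4 : Complex.exp ((-(v / 4) : ℝ) : ℂ) - ∑ m ∈ Finset.range M, ((-(v / 4) : ℝ) : ℂ) ^ m / m.factorial =
          ((Real.exp (-(v / 4)) - ∑ a ∈ Finset.range M, (-(v / 4)) ^ a / a.factorial : ℝ) : ℂ) := by
        push_cast
        rfl
      rw [e4, hn, Complex.norm_real, Real.norm_eq_abs] at h5
      refine h5.trans ?_
      gcongr
    rw [abs_sub_comm] at h4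
    have h6 := abs_add_le ((∑ a ∈ Finset.range M, (-1 : ℝ) ^ a * (s a / (a.factorial * 4 ^ a))) -
        ∑ a ∈ Finset.range M, (-(v / 4)) ^ a / a.factorial)
      ((∑ a ∈ Finset.range M, (-(v / 4)) ^ a / a.factorial) - Real.exp (-(v / 4)))
    rw [sub_add_sub_cancel] at h6
    linarith
  -- together
  have e5 : VS (nz z) X / (4 * w ^ 2) = v / 4 := by
    rw [hv]; field_simp
  rw [e5]
  set I1 := ∫ t in A..B, Complex.exp (I * ((R t : ℝ) : ℂ)) with hI1
  set I2 := ∑ m ∈ Finset.range (2 * M), (I ^ m / m.factorial) * ∫ t in A..B, (((R t) ^ m : ℝ) : ℂ) with hI2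
  set I3 := ∑ m ∈ Finset.range (2 * M), (I ^ m / m.factorial) * (((B - A : ℝ) : ℂ) * (gm z X w m : ℂ)) with hI3
  have h7 : ‖I3 - (((B - A) * Real.exp (-(v / 4)) : ℝ) : ℂ)‖ ≤
      T * (M * (M ^ 2 * Mc * (1 + K) ^ M / w ^ 2) + K ^ M / M.factorial * 2) := by
    rw [hmain, ← Complex.ofReal_sub, Complex.norm_real, Real.norm_eq_abs, ← mul_sub, abs_mul,
      abs_of_nonneg hBA]
    apply mul_le_mul hBT hser (abs_nonneg _) hT0.le
  have h8 : I1 - (((B - A) * Real.exp (-(v / 4)) : ℝ) : ℂ) = (I1 - I2) + (I2 - I3) +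
      (I3 - (((B - A) * Real.exp (-(v / 4)) : ℝ) : ℂ)) := by ring
  rw [h8]
  refine (norm_add_le _ _).trans ?_
  have h9 := norm_add_le (I1 - I2) (I2 - I3)
  have h10 := h1.trans htop
  have h11 : T * (K ^ M / M.factorial * 3) + T * (M * (M ^ 2 * Mc * (1 + K) ^ M / w ^ 2)) +
      E * ((2 * M + 1) * (1 + K) ^ (2 * M)) = (T * (K ^ M / M.factorial) + E * (1 + K) ^ (2 * M)) +
      E * ((2 * M) * (1 + K) ^ (2 * M)) +
      T * (M * (M ^ 2 * Mc * (1 + K) ^ M / w ^ 2) + K ^ M / M.factorial * 2) := by ring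
  rw [h11]
  linarith

/-- **the characteristic function of the real part** -/
theorem cf (K Mc ε : ℝ) (hK : 0 ≤ K) (hMc : 0 ≤ Mc) (hε : 0 < ε) : ∃ (m : ℕ) (D : ℝ), 1 ≤ D ∧
    ∀ (z : ℕ → ℂ) (X : ℕ) (T A B w : ℝ), (∀ p, ‖z p‖ ^ 2 ≤ Mc) → 1 ≤ X → D ≤ T → D ≤ w →
    ((X ^ m : ℕ) : ℝ) ≤ Real.sqrt T → A ≤ B → B - A ≤ T → VS (nz z) X ≤ K * w ^ 2 →
    ‖(∫ t in A..B, Complex.exp (I * (((PP z X t).re / w : ℝ) : ℂ))) -
      (((B - A) * Real.exp (-(VS (nz z) X / (4 * w ^ 2))) : ℝ) : ℂ)‖ ≤ ε * T := by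
  have h1 := FloorSemiring.tendsto_pow_div_factorial_atTop K
  have h2 : ∀ᶠ n : ℕ in atTop, K ^ n / n.factorial < ε / 9 := h1.eventually (gt_mem_nhds (by positivity))
  obtain ⟨M0, hM0⟩ := exists_nat_ge (2 * K)
  obtain ⟨M, hM1, hM2⟩ := (h2.and (eventually_ge_atTop M0)).exists
  have hKM : K ≤ M / 2 := by
    have : (M0 : ℝ) ≤ M := by exact_mod_cast hM2
    linarith
  obtain ⟨C1, hC1⟩ : ∃ C1 : ℝ, C1 = M * (M ^ 2 * Mc * (1 + K) ^ M) := ⟨_, rfl⟩
  obtain ⟨C2, hC2⟩ : ∃ C2 : ℝ, C2 = (2 * M + 1) * (1 + K) ^ (2 * M) := ⟨_, rfl⟩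
  have hC10 : 0 ≤ C1 := by rw [hC1]; positivity
  have hC20 : 0 < C2 := by rw [hC2]; positivity
  have h3 := Pool.Agent.Y41.SW.err_tendsto
  have h4 : ∀ᶠ T : ℝ in atTop, Real.sqrt T * (1 + Real.log T) / T < ε / (24 * C2) :=
    h3.eventually (gt_mem_nhds (by positivity))
  obtain ⟨T0, hT0⟩ := h4.exists_forall_of_atTop
  refine ⟨2 * M, max 1 (max T0 (3 * C1 / ε)), le_max_left _ _, ?_⟩
  intro z X T A B w hz hX hT hw hXT hAB hBT hV
  have hT1 : 1 ≤ T := (le_max_left _ _).trans hT
  have hw1 : 1 ≤ w := (le_max_left _ _).trans hw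
  have hT2 : T0 ≤ T := ((le_max_left _ _).trans (le_max_right _ _)).trans hT
  have hw2 : 3 * C1 / ε ≤ w := ((le_max_right _ _).trans (le_max_right _ _)).trans hw
  have h5 := cf_fin z X hX T A B w K Mc hT1 hAB hBT (by linarith) hK hMc hz hV M hXT hKM
  refine h5.trans ?_
  have hTp : 0 < T := by linarith
  have g1 : T * (K ^ M / M.factorial * 3) ≤ T * (ε / 3) := by
    apply mul_le_mul_of_nonneg_left _ hTp.le
    linarith
  have g2 : T * (M * (M ^ 2 * Mc * (1 + K) ^ M / w ^ 2)) ≤ T * (ε / 3) := by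
    apply mul_le_mul_of_nonneg_left _ hTp.le
    have e1 : (M : ℝ) * (M ^ 2 * Mc * (1 + K) ^ M / w ^ 2) = C1 / w ^ 2 := by rw [hC1]; ring
    rw [e1, div_le_iff₀ (by positivity)]
    rw [div_le_iff₀ hε] at hw2
    have : w ≤ w ^ 2 := by nlinarith
    nlinarith
  have g3 : 8 * (Real.sqrt T * (1 + Real.log T)) * ((2 * M + 1) * (1 + K) ^ (2 * M)) ≤ T * (ε / 3) := by
    have h6 := hT0 T hT2
    rw [div_lt_div_iff₀ hTp (by positivity)] at h6
    rw [← hC2]
    nlinarith
  linarith

end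

end Pool.Agent.R320.JL
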