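import Pool.Agent.R320.JL.Mom

/-! # Joint convergence of gap sums, with test functions of polynomial growth -/

set_option autoImplicit false

namespace Pool.Agent.R320.JL

open Filter Topology MeasureTheory Set ProbabilityTheory
open SG (ord NZ)
open SP (RHs)
open Pool.Agent.Y743.CL (lm log_nat bigT)
open Pool.Agent.R320.CL (SS dl)
open scoped NNReal

noncomputable section

lemma QQ_smul {k : ℕ} (ξ : ℝ) (c : Fin k → ℝ) (r : ℕ) (b : Fin k → ℕ) :
    QQ (fun i => ξ * c i) r b = ξ ^ 2 * QQ c r b := by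
  unfold QQ
  rw [Finset.mul_sum]
  refine Finset.sum_congr rfl fun i _ => ?_
  rw [Finset.mul_sum]
  refine Finset.sum_congr rfl fun j _ => ?_
  ring

lemma fn_smul {k : ℕ} (ξ : ℝ) (c : Fin k → ℝ) (r : ℕ) (b : Fin k → ℕ) (n : ℕ) :
    fn (fun i => ξ * c i) r b n = ξ * fn c r b n := by
  unfold fn
  rw [mul_div_assoc', Finset.mul_sum]
  congr 1
  refine Finset.sum_congr rfl fun i _ => ?_
  ring

/-- continuity of the Gaussian expectation in the variance -/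
lemma gau_cont (f : ℝ → ℝ) (hf : Continuous f) (A : ℝ) (p : ℕ)
    (hfA : ∀ x, |f x| ≤ A * (1 + |x|) ^ p) (V : ℕ → ℝ≥0) (v : ℝ≥0) (hV : Tendsto V atTop (𝓝 v)) :
    Tendsto (fun m => ∫ x, f x ∂(gaussianReal 0 (V m))) atTop (𝓝 (∫ x, f x ∂(gaussianReal 0 v))) := by
  have hA0 : 0 ≤ A := by
    have := (abs_nonneg _).trans (hfA 0)
    simp at this
    exact this
  have hVr : Tendsto (fun m => Real.sqrt (V m)) atTop (𝓝 (Real.sqrt v)) :=
    (Real.continuous_sqrt.tendsto _).comp (NNReal.continuous_coe.tendsto _ |>.comp hV)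
  have hB : ∀ᶠ m in atTop, Real.sqrt (V m) ≤ Real.sqrt v + 1 := by
    filter_upwards [hVr.eventually_lt_const (show Real.sqrt v < Real.sqrt v + 1 by linarith)] with m hm
    exact hm.le
  simp only [gau_scale _ f hf]
  refine tendsto_integral_filter_of_dominated_convergence
    (fun x => A * (2 + Real.sqrt v) ^ p * (1 + |x|) ^ p) ?_ ?_ ?_ ?_
  · exact Eventually.of_forall fun m => (hf.comp (continuous_const.mul continuous_id)).aestronglyMeasurable
  · filter_upwards [hB] with m hm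
    refine Eventually.of_forall fun x => ?_
    rw [Real.norm_eq_abs]
    refine (hfA _).trans ?_
    rw [mul_assoc, ← mul_pow]
    apply mul_le_mul_of_nonneg_left _ hA0
    apply pow_le_pow_left₀ (by positivity)
    rw [abs_mul, abs_of_nonneg (Real.sqrt_nonneg _)]
    have h1 := abs_nonneg x
    have h2 := Real.sqrt_nonneg (v : ℝ)
    have h3 : Real.sqrt (V m) * |x| ≤ (Real.sqrt v + 1) * |x| := mul_le_mul_of_nonneg_right hm h1
    nlinarith
  · exact (gau_int_pow 1 p).const_mul _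
  · refine Eventually.of_forall fun x => ?_
    exact (hf.tendsto _).comp (hVr.mul_const x)

/-- **joint convergence of the gap sums of lengths at most `r`** -/
theorem jconv (hRH : RHs) {k : ℕ} (c : Fin k → ℝ) (f : ℝ → ℝ) (hf : Continuous f) (A : ℝ) (p : ℕ)
    (hfA : ∀ x, |f x| ≤ A * (1 + |x|) ^ p) (ε : ℝ) (hε : 0 < ε) :
    ∀ᶠ r : ℕ in atTop, ∀ N : ℕ, 1 ≤ N → r * Real.log r ≤ Real.log N →
    ∀ b : Fin k → ℕ, (∀ i, 1 ≤ b i ∧ b i ≤ r) →
    |((N : ℝ)⁻¹) * ∑ n ∈ Finset.Icc 1 N, f (fn c r b n) -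
      ∫ x, f x ∂(gaussianReal 0 (QQ c r b).toNNReal)| ≤ ε := by
  by_contra hcon
  rw [not_eventually] at hcon
  have hcon2 := hcon.and_eventually (log_nat.eventually_ge_atTop 1)
  obtain ⟨φ, hφ, hall⟩ := extraction_of_frequently_atTop hcon2
  have hall' : ∀ m, ∃ N : ℕ, 1 ≤ N ∧ (φ m : ℝ) * Real.log (φ m) ≤ Real.log N ∧
      ∃ b : Fin k → ℕ, (∀ i, 1 ≤ b i ∧ b i ≤ φ m) ∧
      ε < |((N : ℝ)⁻¹) * ∑ n ∈ Finset.Icc 1 N, f (fn c (φ m) b n) -
        ∫ x, f x ∂(gaussianReal 0 (QQ c (φ m) b).toNNReal)| := by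
    intro m
    have h1 := (hall m).1
    push Not at h1
    exact h1
  choose N hN hrN b hb hlt using hall'
  have hlog : ∀ m, 1 ≤ Real.log (φ m) := fun m => (hall m).2
  obtain ⟨B, hB⟩ : ∃ B : ℝ, B = (∑ i, |c i|) ^ 2 * (3 / 2) := ⟨_, rfl⟩
  have hQB : ∀ m, QQ c (φ m) (b m) ∈ Icc (-B) B := by
    intro m
    have := abs_le.1 (QQ_bd c (hlog m) (b m) (hb m))
    rw [← hB] at this
    exact ⟨this.1, this.2⟩
  obtain ⟨v, -, ψ, hψ, hlim⟩ := isCompact_Icc.tendsto_subseq hQB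
  have hφψ : Tendsto (fun m => φ (ψ m)) atTop atTop := hφ.tendsto_atTop.comp hψ.tendsto_atTop
  have hlim' : Tendsto (fun m => QQ c (φ (ψ m)) (b (ψ m))) atTop (𝓝 v) := hlim
  -- the characteristic functions
  have hcf0 : ∀ ξ : ℝ, Tendsto (fun m => ((N (ψ m) : ℝ)⁻¹) • ∑ n ∈ Finset.Icc 1 (N (ψ m)),
      Complex.exp (Complex.I * ((ξ * fn c (φ (ψ m)) (b (ψ m)) n : ℝ) : ℂ)) -
      (Real.exp (-(ξ ^ 2 * QQ c (φ (ψ m)) (b (ψ m)) / 2)) : ℂ)) atTop (𝓝 0) := by
    intro ξ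
    rw [Metric.tendsto_atTop]
    intro η hη
    have hj := joint (fun i => ξ * c i) (η / 2) (by linarith)
    obtain ⟨m0, hm0⟩ := eventually_atTop.1 (hφψ.eventually hj)
    refine ⟨m0, fun m hm => ?_⟩
    have h1 := hm0 m hm (N (ψ m)) (hN _) (hrN _) (b (ψ m)) (hb _)
    have hNp : (0 : ℝ) < N (ψ m) := by exact_mod_cast hN (ψ m)
    rw [dist_zero_right]
    have e : ((N (ψ m) : ℝ)⁻¹) • ∑ n ∈ Finset.Icc 1 (N (ψ m)),
        Complex.exp (Complex.I * ((ξ * fn c (φ (ψ m)) (b (ψ m)) n : ℝ) : ℂ)) -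
        (Real.exp (-(ξ ^ 2 * QQ c (φ (ψ m)) (b (ψ m)) / 2)) : ℂ) =
        ((N (ψ m) : ℝ)⁻¹) • ∑ n ∈ Finset.Icc 1 (N (ψ m)),
          (Complex.exp (Complex.I * (fn (fun i => ξ * c i) (φ (ψ m)) (b (ψ m)) n : ℂ)) -
          (Real.exp (-(QQ (fun i => ξ * c i) (φ (ψ m)) (b (ψ m)) / 2)) : ℂ)) := by
      rw [Finset.sum_sub_distrib, smul_sub, Finset.sum_const, Nat.card_Icc, Nat.add_sub_cancel]
      congr 1
      · congr 1
        refine Finset.sum_congr rfl fun n _ => ?_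
        rw [fn_smul]
      · rw [QQ_smul, Complex.real_smul, nsmul_eq_mul, Complex.ofReal_inv, Complex.ofReal_natCast,
          inv_mul_cancel_left₀]
        exact_mod_cast hNp.ne'
    rw [e, norm_smul, Real.norm_of_nonneg (by positivity), inv_mul_lt_iff₀ hNp]
    nlinarith
  have hcf1 : ∀ ξ : ℝ, Tendsto (fun m => ((N (ψ m) : ℝ)⁻¹) • ∑ n ∈ Finset.Icc 1 (N (ψ m)),
      Complex.exp (Complex.I * ((ξ * fn c (φ (ψ m)) (b (ψ m)) n : ℝ) : ℂ))) atTop
      (𝓝 (Real.exp (-(ξ ^ 2 * v / 2)) : ℂ)) := by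
    intro ξ
    have h1 : Tendsto (fun m => (Real.exp (-(ξ ^ 2 * QQ c (φ (ψ m)) (b (ψ m)) / 2)) : ℂ)) atTop
        (𝓝 (Real.exp (-(ξ ^ 2 * v / 2)) : ℂ)) := by
      refine (Complex.continuous_ofReal.tendsto _).comp ?_
      refine (Real.continuous_exp.tendsto _).comp ?_
      exact ((hlim'.const_mul (ξ ^ 2)).div_const 2).neg
    have h2 := (hcf0 ξ).add h1
    rw [zero_add] at h2
    refine h2.congr fun m => ?_
    ring
  -- the limit variance is nonnegative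
  have hv0 : 0 ≤ v := by
    have h1 := (hcf1 1).norm
    have h2 : ‖(Real.exp (-((1 : ℝ) ^ 2 * v / 2)) : ℂ)‖ ≤ 1 := by
      refine le_of_tendsto h1 (Eventually.of_forall fun m => ?_)
      have hNp : (0 : ℝ) < N (ψ m) := by exact_mod_cast hN (ψ m)
      rw [norm_smul, Real.norm_of_nonneg (by positivity), inv_mul_le_iff₀ hNp, mul_one]
      refine (norm_sum_le _ _).trans ?_
      have h3 : ∀ n ∈ Finset.Icc 1 (N (ψ m)),
          ‖Complex.exp (Complex.I * ((1 * fn c (φ (ψ m)) (b (ψ m)) n : ℝ) : ℂ))‖ ≤ 1 := by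
        intro n _
        rw [mul_comm, Complex.norm_exp_ofReal_mul_I]
      refine (Finset.sum_le_sum h3).trans ?_
      rw [Finset.sum_const, Nat.card_Icc, Nat.add_sub_cancel, nsmul_eq_mul, mul_one]
    rw [Complex.norm_real, Real.norm_of_nonneg (Real.exp_pos _).le] at h2
    have h3 := Real.exp_le_one_iff.1 h2
    linarith
  obtain ⟨v', hv'⟩ : ∃ v' : ℝ≥0, v' = v.toNNReal := ⟨_, rfl⟩
  have hvv : (v' : ℝ) = v := by rw [hv']; exact Real.coe_toNNReal v hv0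
  obtain ⟨C, hC⟩ := mom2 hRH c p
  have hC' := hφψ.eventually hC
  have hL := lv (fun m n => fn c (φ (ψ m)) (b (ψ m)) n) (fun m => N (ψ m)) (fun m => hN _) v'
    (fun ξ => by rw [hvv]; exact hcf1 ξ) f hf A p hfA C
    (by
      filter_upwards [hC'] with m hm
      exact hm (N (ψ m)) (hN _) (hrN _) (b (ψ m)) (hb _))
  have hG := gau_cont f hf A p hfA (fun m => (QQ c (φ (ψ m)) (b (ψ m))).toNNReal) v'
    (by rw [hv']; exact (continuous_real_toNNReal.tendsto v).comp hlim')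
  have hD := (hL.sub hG).abs
  rw [sub_self, abs_zero] at hD
  obtain ⟨m, hm⟩ := (hD.eventually_lt_const hε).exists
  have h5 := hlt (ψ m)
  linarith

end

end Pool.Agent.R320.JL
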