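import Pool.Agent.Y743.CL.Fm

/-! # Prime polynomials with complex coefficients -/

set_option autoImplicit false

namespace Pool.Agent.R320.JL

open Filter Topology MeasureTheory Complex
open Pool.Agent.Y743.CL (pr pr_apply pr_supp SS SS_eq SS_le SS_upper SS_lower SS_zero SS_nonneg VS VS_nonneg
  Pr mem_Pr pr_orth)
open Pool.Agent.Y41.SW (supp_pow supp_mul)

noncomputable section

/-- the completely multiplicative function with the values `z p` at the primes -/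
def mt (z : ℕ → ℂ) (n : ℕ) : ℂ := n.factorization.prod fun p k => z p ^ k

lemma mt_mul (z : ℕ → ℂ) {a b : ℕ} (ha : a ≠ 0) (hb : b ≠ 0) : mt z (a * b) = mt z a * mt z b := by
  unfold mt
  rw [Nat.factorization_mul ha hb,
    Finsupp.prod_add_index' (by simp) (by intro a b₁ b₂; exact pow_add _ _ _)]

lemma mt_one (z : ℕ → ℂ) : mt z 1 = 1 := by
  unfold mt
  simp

lemma mt_prime (z : ℕ → ℂ) {p : ℕ} (hp : p.Prime) : mt z p = z p := by
  unfold mt
  rw [hp.factorization, Finsupp.prod_single_index (by simp), pow_one]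

lemma mt_norm (z : ℕ → ℂ) (hz : ∀ p, ‖z p‖ = 1) (n : ℕ) : ‖mt z n‖ = 1 := by
  unfold mt Finsupp.prod
  rw [norm_prod]
  apply Finset.prod_eq_one
  intro p _
  rw [norm_pow, hz, one_pow]

/-- Dirichlet polynomials with a twist -/
def DW (f : ℕ → ℝ) (u : ℕ → ℂ) (X : ℕ) (t : ℝ) : ℂ :=
  ∑ n ∈ Finset.Icc 1 X, ((f n : ℂ) * u n) * (n : ℂ) ^ (-(t : ℂ) * I)

lemma DW_extend (f : ℕ → ℝ) (u : ℕ → ℂ) (X Y : ℕ) (hXY : X ≤ Y) (hf : ∀ n, X < n → f n = 0) (t : ℝ) :
    DW f u X t = DW f u Y t := by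
  unfold DW
  apply Finset.sum_subset
  · exact Finset.Icc_subset_Icc_right hXY
  · intro n hn hn'
    have : X < n := by
      simp only [Finset.mem_Icc, not_and, not_le] at hn hn'
      exact hn' hn.1
    rw [hf n this]; simp

lemma DW_mul (f g : ArithmeticFunction ℝ) {u : ℕ → ℂ}
    (hu : ∀ a b : ℕ, a ≠ 0 → b ≠ 0 → u (a * b) = u a * u b) (M N : ℕ) (hf : ∀ n, M < n → f n = 0)
    (hg : ∀ n, N < n → g n = 0) (t : ℝ) :
    DW f u M t * DW g u N t = DW ⇑(f * g) u (M * N) t := by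
  unfold DW
  rw [Finset.sum_mul_sum, ← Finset.sum_product']
  have hmap : ∀ x ∈ Finset.Icc 1 M ×ˢ Finset.Icc 1 N, x.1 * x.2 ∈ Finset.Icc 1 (M * N) := by
    intro x hx
    simp only [Finset.mem_product, Finset.mem_Icc] at hx ⊢
    exact ⟨Nat.one_le_iff_ne_zero.mpr (by
      have h1 := hx.1.1; have h2 := hx.2.1
      positivity), Nat.mul_le_mul hx.1.2 hx.2.2⟩
  rw [← Finset.sum_fiberwise_of_maps_to hmap]
  apply Finset.sum_congr rfl
  intro r hr
  rw [Finset.mem_Icc] at hr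
  rw [ArithmeticFunction.mul_apply]
  push_cast
  rw [Finset.sum_mul, Finset.sum_mul]
  apply Finset.sum_subset_zero_on_sdiff
  · intro x hx
    simp only [Finset.mem_filter, Finset.mem_product, Finset.mem_Icc] at hx
    rw [Nat.mem_divisorsAntidiagonal]
    exact ⟨hx.2, by omega⟩
  · intro x hx
    simp only [Finset.mem_sdiff, Nat.mem_divisorsAntidiagonal, Finset.mem_filter, Finset.mem_product,
      Finset.mem_Icc] at hx
    obtain ⟨⟨h1, h2⟩, h3⟩ := hx
    have hx1 : 1 ≤ x.1 := by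
      rcases Nat.eq_zero_or_pos x.1 with h | h
      · rw [h] at h1; omega
      · exact h
    have hx2 : 1 ≤ x.2 := by
      rcases Nat.eq_zero_or_pos x.2 with h | h
      · rw [h] at h1; omega
      · exact h
    by_cases hM : M < x.1
    · rw [hf _ hM]; simp
    · by_cases hN : N < x.2
      · rw [hg _ hN]; simp
      · exfalso
        push Not at hM hN
        exact h3 ⟨⟨⟨hx1, hM⟩, ⟨hx2, hN⟩⟩, h1⟩
  · intro x hx
    simp only [Finset.mem_filter, Finset.mem_product, Finset.mem_Icc] at hx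
    rw [← hx.2, hu _ _ (by omega) (by omega)]
    push_cast
    rw [Complex.natCast_mul_natCast_cpow]
    ring

lemma DW_pow (f : ArithmeticFunction ℝ) {u : ℕ → ℂ}
    (hu : ∀ a b : ℕ, a ≠ 0 → b ≠ 0 → u (a * b) = u a * u b) (hu1 : u 1 = 1) (X : ℕ)
    (hf : ∀ n, X < n → f n = 0) (t : ℝ) (k : ℕ) :
    DW f u X t ^ k = DW ⇑(f ^ k) u (X ^ k) t := by
  induction k with
  | zero =>
    rw [pow_zero, pow_zero, pow_zero]
    unfold DW
    simp [hu1]
  | succ k ih =>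
    rw [pow_succ, ih, DW_mul (f ^ k) f hu (X ^ k) X (supp_pow f X hf k) hf t, pow_succ, pow_succ]

/-- the direction of a complex number -/
def sg (z : ℕ → ℂ) (p : ℕ) : ℂ := if z p = 0 then 1 else z p / ‖z p‖

lemma sg_norm (z : ℕ → ℂ) (p : ℕ) : ‖sg z p‖ = 1 := by
  unfold sg
  split_ifs with h
  · simp
  · rw [norm_div, Complex.norm_real, norm_norm, div_self (norm_ne_zero_iff.2 h)]

lemma sg_mul (z : ℕ → ℂ) (p : ℕ) : (‖z p‖ : ℂ) * sg z p = z p := by
  unfold sg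
  split_ifs with h
  · rw [h]; simp
  · have : (‖z p‖ : ℂ) ≠ 0 := by exact_mod_cast norm_ne_zero_iff.2 h
    field_simp

/-- the moduli -/
def nz (z : ℕ → ℂ) (p : ℕ) : ℝ := ‖z p‖

/-- the prime polynomial with complex coefficients -/
def PP (z : ℕ → ℂ) (X : ℕ) (t : ℝ) : ℂ := ∑ p ∈ Pr X, z p * (p : ℂ) ^ (-(t : ℂ) * I)

lemma PP_eq (z : ℕ → ℂ) (X : ℕ) (t : ℝ) : PP z X t = DW (pr (nz z) X) (mt (sg z)) X t := by
  unfold PP DW
  have h1 : Pr X ⊆ Finset.Icc 1 X := by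
    intro p hp
    have := mem_Pr.1 hp
    rw [Finset.mem_Icc]
    exact ⟨this.1.one_lt.le, this.2⟩
  have h2 : ∑ p ∈ Pr X, z p * (p : ℂ) ^ (-(t : ℂ) * I) =
      ∑ p ∈ Pr X, ((pr (nz z) X p : ℂ) * mt (sg z) p) * (p : ℂ) ^ (-(t : ℂ) * I) := by
    refine Finset.sum_congr rfl fun p hp => ?_
    have := mem_Pr.1 hp
    rw [pr_apply, if_pos this, mt_prime _ this.1]
    unfold nz
    rw [sg_mul]
  rw [h2]
  refine Finset.sum_subset h1 fun p hp hp2 => ?_
  rw [pr_apply, if_neg (fun h => hp2 (mem_Pr.2 h))]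
  simp

lemma PP_cont (z : ℕ → ℂ) (X : ℕ) : Continuous (PP z X) := by
  unfold PP
  refine continuous_finsetSum _ fun n hn => ?_
  have hn0 : (n : ℂ) ≠ 0 := by
    exact_mod_cast (mem_Pr.1 hn).1.ne_zero
  exact continuous_const.mul (Continuous.const_cpow (by fun_prop) (Or.inl hn0))

lemma PP_pow (z : ℕ → ℂ) (X : ℕ) (t : ℝ) (k N : ℕ) (hN : X ^ k ≤ N) :
    PP z X t ^ k = DW ⇑(pr (nz z) X ^ k) (mt (sg z)) N t := by
  rw [PP_eq, DW_pow _ (fun a b ha hb => mt_mul _ ha hb) (mt_one _) _ (pr_supp _ X)]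
  exact DW_extend _ _ _ _ hN (supp_pow _ _ (pr_supp _ X) k) t

/-- the moments at one height -/
lemma mom_bd (z : ℕ → ℂ) (X : ℕ) (hX : 1 ≤ X) (T A B : ℝ) (hT : 1 ≤ T) (hAB : A ≤ B) (k l : ℕ)
    (hXT : ((X ^ (k + l) : ℕ) : ℝ) ≤ Real.sqrt T) :
    ‖(∫ t in A..B, PP z X t ^ k * (starRingEnd ℂ) (PP z X t) ^ l) -
      ((B - A : ℝ) : ℂ) * (if k = l then (SS (nz z) X k : ℂ) else 0)‖ ≤
      8 * (Real.sqrt T * (1 + Real.log T)) *
        (Real.sqrt (k.factorial * VS (nz z) X ^ k) * Real.sqrt (l.factorial * VS (nz z) X ^ l)) := by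
  set c := nz z with hc
  set u := mt (sg z) with hu
  have hun : ∀ n, ‖u n‖ = 1 := mt_norm _ (sg_norm z)
  set N : ℕ := X ^ (k + l) with hNdef
  have hN1 : 1 ≤ N := Nat.one_le_pow _ _ hX
  have hkN : X ^ k ≤ N := Nat.pow_le_pow_right hX (by omega)
  have hlN : X ^ l ≤ N := Nat.pow_le_pow_right hX (by omega)
  have hint : ∀ t : ℝ, PP z X t ^ k * (starRingEnd ℂ) (PP z X t) ^ l =
      (∑ n ∈ Finset.Icc 1 N, ((((pr c X ^ k) n : ℝ) : ℂ) * u n) * (n : ℂ) ^ (-(t : ℂ) * I)) *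
      (starRingEnd ℂ) (∑ n ∈ Finset.Icc 1 N, ((((pr c X ^ l) n : ℝ) : ℂ) * u n) *
        (n : ℂ) ^ (-(t : ℂ) * I)) := by
    intro t
    rw [← map_pow, PP_pow z X t k N hkN, PP_pow z X t l N hlN]
    rfl
  have hMV := Pool.Agent.Y840.SW.t_MVB N A B hAB
    (fun n => (((pr c X ^ k) n : ℝ) : ℂ) * u n) (fun n => (((pr c X ^ l) n : ℝ) : ℂ) * u n)
  simp only [← hint] at hMV
  have huu : ∀ n, u n * (starRingEnd ℂ) (u n) = 1 := by
    intro n
    rw [Complex.mul_conj, Complex.normSq_eq_norm_sq, hun]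
    norm_num
  have hA : (∑ n ∈ Finset.Icc 1 N, ((((pr c X ^ k) n : ℝ) : ℂ) * u n) *
      (starRingEnd ℂ) ((((pr c X ^ l) n : ℝ) : ℂ) * u n)) = (if k = l then (SS c X k : ℂ) else 0) := by
    have e : ∀ n, ((((pr c X ^ k) n : ℝ) : ℂ) * u n) *
      (starRingEnd ℂ) ((((pr c X ^ l) n : ℝ) : ℂ) * u n) =
      (((pr c X ^ k) n * (pr c X ^ l) n : ℝ) : ℂ) := by
      intro n
      rw [map_mul, Complex.conj_ofReal]
      calc _ = (((pr c X ^ k) n : ℝ) : ℂ) * (((pr c X ^ l) n : ℝ) : ℂ) * (u n * (starRingEnd ℂ) (u n)) := by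
            ring
        _ = _ := by rw [huu]; push_cast; ring
    simp only [e]
    split_ifs with h
    · subst h
      rw [← SS_eq k N hkN]
      push_cast
      refine Finset.sum_congr rfl fun n _ => ?_
      rw [sq]
    · refine Finset.sum_eq_zero fun n _ => ?_
      rw [pr_orth h n, Complex.ofReal_zero]
  rw [hA] at hMV
  have hS : ∀ i : ℕ, X ^ i ≤ N → (∑ n ∈ Finset.Icc 1 N, ‖(((pr c X ^ i) n : ℝ) : ℂ) * u n‖ ^ 2) ≤
      i.factorial * VS c X ^ i := by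
    intro i hi
    refine le_trans (le_of_eq ?_) (SS_le c X i)
    rw [← SS_eq i N hi]
    refine Finset.sum_congr rfl fun n _ => ?_
    rw [norm_mul, hun, mul_one, Complex.norm_real, Real.norm_eq_abs, sq_abs]
  refine hMV.trans ?_
  have hlogN : Real.log N ≤ Real.log T := by
    apply Real.log_le_log (by exact_mod_cast hN1)
    refine hXT.trans ?_
    rw [Real.sqrt_le_left (by linarith)]
    nlinarith
  have hlogN0 : 0 ≤ Real.log N := Real.log_natCast_nonneg N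
  have hlogT0 : 0 ≤ Real.log T := Real.log_nonneg hT
  have hNb : (N:ℝ) * (1 + Real.log N) ≤ Real.sqrt T * (1 + Real.log T) := by
    apply mul_le_mul hXT (by linarith) (by linarith) (Real.sqrt_nonneg _)
  have h1 := Real.sqrt_le_sqrt (hS k hkN)
  have h2 := Real.sqrt_le_sqrt (hS l hlN)
  have h3 := mul_le_mul h1 h2 (Real.sqrt_nonneg _) (Real.sqrt_nonneg _)
  have h4 : 8 * (N : ℝ) * (1 + Real.log N) ≤ 8 * (Real.sqrt T * (1 + Real.log T)) := by
    have e : 8 * (N : ℝ) * (1 + Real.log N) = 8 * (N * (1 + Real.log N)) := by ring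
    rw [e]
    linarith
  exact mul_le_mul h4 h3 (by positivity) (by positivity)

end

end Pool.Agent.R320.JL
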