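import Pool.Agent.R320.JL.Blk
import Pool.Agent.R320.VQ.TailN
import Pool.Agent.Y743.NC.Block

/-! # All zeros -/

set_option autoImplicit false

namespace Pool.Agent.R320.JL

open Filter Topology MeasureTheory Set
open SG (ord NZ)
open Pool.Agent.Y743.CL (lm log_nat bigT)
open Pool.Agent.R320.CL (SS)

noncomputable section

lemma split_sum (g : ℕ → ℂ) (x : ℝ) (hx : 0 ≤ x) (K : ℕ) :
    ∑ n ∈ Finset.Icc 1 (NZ x), g n = ∑ n ∈ Finset.Icc 1 (NZ ((2 / 3) ^ K * x)), g n +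
      ∑ k ∈ Finset.range K,
        ∑ n ∈ Finset.Ioc (NZ (2 / 3 * ((2 / 3) ^ k * x))) (NZ ((2 / 3) ^ k * x)), g n := by
  induction K with
  | zero => simp
  | succ K ih =>
    rw [Finset.sum_range_succ]
    have e : (2 / 3 : ℝ) ^ (K + 1) * x = 2 / 3 * ((2 / 3) ^ K * x) := by rw [pow_succ]; ring
    rw [e, ih]
    have hle : NZ (2 / 3 * ((2 / 3) ^ K * x)) ≤ NZ ((2 / 3) ^ K * x) := by
      apply SG.NZ_mono
      have : 0 ≤ (2 / 3 : ℝ) ^ K * x := by positivity
      linarith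
    have h1 : ∀ a b : ℕ, a ≤ b → ∑ n ∈ Finset.Icc 1 b, g n = ∑ n ∈ Finset.Icc 1 a, g n +
        ∑ n ∈ Finset.Ioc a b, g n := by
      intro a b hab
      have e1 : Finset.Icc 1 b = Finset.Icc 1 a ∪ Finset.Ioc a b := by
        ext n
        simp only [Finset.mem_union, Finset.mem_Icc, Finset.mem_Ioc]
        omega
      rw [e1, Finset.sum_union]
      rw [Finset.disjoint_left]
      intro n h2 h3
      rw [Finset.mem_Icc] at h2
      rw [Finset.mem_Ioc] at h3
      omega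
    rw [h1 _ _ hle]
    ring

/-- **the joint law of the gap sums** -/
theorem joint {k : ℕ} (c : Fin k → ℝ) (ε : ℝ) (hε : 0 < ε) : ∀ᶠ r : ℕ in atTop, ∀ N : ℕ, 1 ≤ N →
    r * Real.log r ≤ Real.log N → ∀ b : Fin k → ℕ, (∀ i, 1 ≤ b i ∧ b i ≤ r) →
    ‖∑ n ∈ Finset.Icc 1 N, (Complex.exp (Complex.I * (fn c r b n : ℂ)) -
      (Real.exp (-(QQ c r b / 2)) : ℂ))‖ ≤ ε * N := by
  obtain ⟨D, hD⟩ : ∃ D : ℝ, D = Real.exp ((∑ i, |c i|) ^ 2) := ⟨_, rfl⟩
  have hD0 : 0 < D := by rw [hD]; exact Real.exp_pos _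
  obtain ⟨C2, hC2, N1, hN1, hNx⟩ := Pool.Agent.R320.VQ.N_x
  obtain ⟨C3, T3, hC3, hT3, hup⟩ := LG.GapAux.NZ_up
  obtain ⟨C4, hC4, hunit⟩ := Pool.Agent.Y743.NC.unit_count
  have hG : 0 < (1 + D) * C3 * C2 := by positivity
  obtain ⟨K, hK⟩ : ∃ K : ℕ, (2 / 3 : ℝ) ^ K < ε / (4 * ((1 + D) * C3 * C2)) :=
    exists_pow_lt_of_lt_one (by positivity) (by norm_num)
  obtain ⟨ρ, hρ⟩ : ∃ ρ : ℝ, ρ = (2 / 3 : ℝ) ^ K := ⟨_, rfl⟩
  rw [← hρ] at hK
  have hρ0 : 0 < ρ := by rw [hρ]; positivity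
  have hρ1 : ρ ≤ 1 := by rw [hρ]; exact pow_le_one₀ (by norm_num) (by norm_num)
  obtain ⟨ε', hε'⟩ : ∃ ε' : ℝ, ε' = ε / (4 * (K + 1) * C2) := ⟨_, rfl⟩
  have hε'0 : 0 < ε' := by rw [hε']; positivity
  have hlog := Real.tendsto_log_atTop
  -- large heights
  have ev1 : ∀ᶠ x : ℝ in atTop, C2 * (x * Real.log x) ≤ (3 / 5 * ρ * x) ^ 2 := by
    have h2 := Real.isLittleO_log_id_atTop.bound (c := (3 / 5 * ρ) ^ 2 / C2) (by positivity)
    filter_upwards [h2, eventually_ge_atTop 1] with x hx hx1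
    rw [id, Real.norm_of_nonneg (Real.log_nonneg hx1), Real.norm_of_nonneg (by linarith)] at hx
    calc C2 * (x * Real.log x) ≤ C2 * (x * ((3 / 5 * ρ) ^ 2 / C2 * x)) := by gcongr
      _ = _ := by field_simp
  have ev2 : ∀ᶠ y : ℝ in atTop, Real.log y + 20 ≤ y / 15 ∧ 2 * T3 ≤ y ∧ 3 ≤ y := by
    have h2 := Real.isLittleO_log_id_atTop.bound (c := 1 / 30) (by positivity)
    filter_upwards [h2, eventually_ge_atTop 600, eventually_ge_atTop (2 * T3)] with x hx hx1 hx2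
    rw [id, Real.norm_of_nonneg (Real.log_nonneg (by linarith)), Real.norm_of_nonneg (by linarith)] at hx
    exact ⟨by linarith, hx2, by linarith⟩
  obtain ⟨y0, hy0⟩ := ev2.exists_forall_of_atTop
  have ev3 : ∀ᶠ x : ℝ in atTop, y0 ≤ ρ * x := by
    filter_upwards [eventually_ge_atTop (y0 / ρ)] with x hx
    rw [div_le_iff₀ hρ0] at hx
    linarith
  have ev4 : ∀ᶠ x : ℝ in atTop, (1 + D) * (C4 * Real.log x) ≤ ε / (4 * C2) * (x * Real.log x) := by
    filter_upwards [eventually_ge_atTop (max 1 ((1 + D) * C4 / (ε / (4 * C2))))] with x hx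
    have hx1 : 1 ≤ x := (le_max_left _ _).trans hx
    have hx2 : (1 + D) * C4 / (ε / (4 * C2)) ≤ x := (le_max_right _ _).trans hx
    rw [div_le_iff₀ (by positivity)] at hx2
    have hl := Real.log_nonneg hx1
    calc (1 + D) * (C4 * Real.log x) = ((1 + D) * C4) * Real.log x := by ring
      _ ≤ (x * (ε / (4 * C2))) * Real.log x := mul_le_mul_of_nonneg_right hx2 hl
      _ = _ := by ring
  have ev := SG.ord_tendsto.eventually ((ev1.and ev3).and (ev4.and (eventually_ge_atTop 10)))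
  obtain ⟨N2, hN2⟩ := ev.exists_forall_of_atTop
  filter_upwards [blk2 c 2 (by norm_num) ε' hε'0, bigT 1 le_rfl (max N1 N2),
    log_nat.eventually_ge_atTop 1] with r h1 h2 h3
  intro N hN hrN b hb
  have hNr : (1 : ℝ) ≤ N := by exact_mod_cast hN
  have hNb := h2 N hNr (by rw [one_mul]; exact hrN)
  have hNN1 : N1 ≤ N := by exact_mod_cast (le_max_left _ _).trans hNb
  have hNN2 : N2 ≤ N := by exact_mod_cast (le_max_right _ _).trans hNb
  obtain ⟨hxN, hNx'⟩ := hNx N hNN1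
  obtain ⟨⟨g1, g2⟩, ⟨g3, g4⟩⟩ := hN2 N hNN2
  obtain ⟨x, hx⟩ : ∃ x : ℝ, x = ord N := ⟨_, rfl⟩
  rw [← hx] at hxN hNx' g1 g2 g3 g4
  obtain ⟨E, hE⟩ : ∃ E : ℝ, E = Real.exp (-(QQ c r b / 2)) := ⟨_, rfl⟩
  rw [← hE]
  have hE0 : 0 < E := by rw [hE]; exact Real.exp_pos _
  have hED : E ≤ D := by
    rw [hE, hD]
    apply Real.exp_le_exp.2
    have := (abs_le.1 (QQ_bd c h3 b hb)).1
    nlinarith [sq_nonneg (∑ i, |c i|)]
  obtain ⟨g, hg⟩ : ∃ g : ℕ → ℂ, g = fun n => Complex.exp (Complex.I * (fn c r b n : ℂ)) - (E : ℂ) := ⟨_, rfl⟩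
  have hgn : ∀ n, ‖g n‖ ≤ 1 + D := by
    intro n
    rw [hg]
    refine (norm_sub_le _ _).trans ?_
    rw [Complex.norm_exp_I_mul_ofReal, Complex.norm_real, Real.norm_eq_abs, abs_of_pos hE0]
    linarith
  have hcard : ∀ S : Finset ℕ, ‖∑ n ∈ S, g n‖ ≤ (1 + D) * S.card := by
    intro S
    refine (norm_sum_le _ _).trans ((Finset.sum_le_sum fun n _ => hgn n).trans (le_of_eq ?_))
    rw [Finset.sum_const, nsmul_eq_mul]
    ring
  have hlx : 0 < Real.log x := Real.log_pos (by linarith)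
  have hx0 : 0 < x := by linarith
  -- the index range
  have hNZ : N ≤ NZ x := by rw [hx]; exact SG.le_NZ_ord hN
  have e1 : ∑ n ∈ Finset.Icc 1 N, g n = ∑ n ∈ Finset.Icc 1 (NZ x), g n - ∑ n ∈ Finset.Ioc N (NZ x), g n := by
    have e2 : Finset.Icc 1 (NZ x) = Finset.Icc 1 N ∪ Finset.Ioc N (NZ x) := by
      ext n
      simp only [Finset.mem_union, Finset.mem_Icc, Finset.mem_Ioc]
      omega
    rw [e2, Finset.sum_union, add_sub_cancel_right]
    rw [Finset.disjoint_left]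
    intro n h4 h5
    rw [Finset.mem_Icc] at h4
    rw [Finset.mem_Ioc] at h5
    omega
  have hend : ‖∑ n ∈ Finset.Ioc N (NZ x), g n‖ ≤ ε / 4 * N := by
    refine (hcard _).trans ?_
    rw [Nat.card_Ioc]
    have a1 : NZ (x - 1) < N := by
      by_contra hcon
      push Not at hcon
      have := (SG.ord_le_iff hN _).mpr hcon
      linarith
    have a2 := hunit (x - 1) (by linarith)
    rw [sub_add_cancel] at a2
    have a3 : ((NZ x - N : ℕ) : ℝ) ≤ C4 * Real.log x := by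
      rw [Nat.cast_sub hNZ]
      have a4 : (NZ (x - 1) : ℝ) ≤ N := by exact_mod_cast a1.le
      have a5 : Real.log (x - 1) ≤ Real.log x := Real.log_le_log (by linarith) (by linarith)
      have a6 : C4 * Real.log (x - 1) ≤ C4 * Real.log x := mul_le_mul_of_nonneg_left a5 hC4.le
      linarith
    calc (1 + D) * ((NZ x - N : ℕ) : ℝ) ≤ (1 + D) * (C4 * Real.log x) := by gcongr
      _ ≤ ε / (4 * C2) * (x * Real.log x) := g3
      _ ≤ ε / (4 * C2) * (C2 * N) := by gcongr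
      _ = _ := by field_simp
  -- the low part
  have hρx := hy0 (ρ * x) g2
  have hlow : ‖∑ n ∈ Finset.Icc 1 (NZ (ρ * x)), g n‖ ≤ ε / 4 * N := by
    refine (hcard _).trans ?_
    rw [Nat.card_Icc, Nat.add_sub_cancel]
    have a1 := hup (ρ * x / 2) (by linarith [hρx.2.1])
    have e2 : 2 * (ρ * x / 2) = ρ * x := by ring
    rw [e2] at a1
    have a2 : ρ * x / 2 * Real.log (ρ * x / 2) ≤ ρ * (x * Real.log x) := by
      have b1 : Real.log (ρ * x / 2) ≤ Real.log x := Real.log_le_log (by positivity) (by nlinarith)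
      calc ρ * x / 2 * Real.log (ρ * x / 2) ≤ ρ * x / 2 * Real.log x := by gcongr
        _ ≤ ρ * x * Real.log x := by
          apply mul_le_mul_of_nonneg_right _ hlx.le
          have : 0 < ρ * x := by positivity
          linarith
        _ = _ := by ring
    calc (1 + D) * (NZ (ρ * x) : ℝ) ≤ (1 + D) * (C3 * (ρ * (x * Real.log x))) := by
          apply mul_le_mul_of_nonneg_left _ (by linarith)
          refine a1.trans ?_
          exact mul_le_mul_of_nonneg_left a2 hC3.le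
      _ ≤ (1 + D) * (C3 * (ρ * (C2 * N))) := by gcongr
      _ = ((1 + D) * C3 * C2) * ρ * N := by ring
      _ ≤ ((1 + D) * C3 * C2) * (ε / (4 * ((1 + D) * C3 * C2))) * N := by gcongr
      _ = _ := by field_simp
  -- the blocks
  have hblk : ∀ j ∈ Finset.range K, ‖∑ n ∈ Finset.Ioc (NZ (2 / 3 * ((2 / 3) ^ j * x)))
      (NZ ((2 / 3) ^ j * x)), g n‖ ≤ ε' * (x * Real.log x) := by
    intro j hj
    rw [Finset.mem_range] at hj
    obtain ⟨y, hy⟩ : ∃ y : ℝ, y = (2 / 3) ^ j * x := ⟨_, rfl⟩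
    rw [← hy]
    have hρy : ρ * x ≤ y := by
      rw [hy, hρ]
      apply mul_le_mul_of_nonneg_right _ hx0.le
      exact pow_le_pow_of_le_one (by norm_num) (by norm_num) hj.le
    have hyx : y ≤ x := by
      rw [hy]
      have : (2 / 3 : ℝ) ^ j ≤ 1 := pow_le_one₀ (by norm_num) (by norm_num)
      nlinarith
    obtain ⟨k1, k2, k3⟩ := hy0 y (g2.trans hρy)
    have hT1 : 1 ≤ 3 / 5 * y := by linarith
    have hlogT : Real.log (3 / 5 * y) ≤ Real.log y := Real.log_le_log (by linarith) (by linarith)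
    have hrT : (r : ℝ) * Real.log r ≤ 2 * Real.log (3 / 5 * y) := by
      have m1 : Real.log N ≤ Real.log ((3 / 5 * ρ * x) ^ 2) := by
        apply Real.log_le_log (by linarith)
        exact hNx'.trans g1
      rw [Real.log_pow] at m1
      have m2 : Real.log (3 / 5 * ρ * x) ≤ Real.log (3 / 5 * y) := by
        apply Real.log_le_log (by positivity)
        nlinarith
      push_cast at m1
      linarith
    have h4 := h1 (3 / 5 * y) hT1 hrT b hb (2 / 3 * y) y (by linarith) (by linarith) (by linarith)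
    rw [← hE] at h4
    rw [hg]
    refine h4.trans ?_
    have h5 : 3 / 5 * y * Real.log (3 / 5 * y) ≤ x * Real.log x := by
      apply mul_le_mul (by linarith) (hlogT.trans (Real.log_le_log (by linarith) hyx))
        (Real.log_nonneg hT1) hx0.le
    gcongr
  have hblks : ‖∑ k ∈ Finset.range K, ∑ n ∈ Finset.Ioc (NZ (2 / 3 * ((2 / 3) ^ k * x)))
      (NZ ((2 / 3) ^ k * x)), g n‖ ≤ ε / 4 * N := by
    refine (norm_sum_le _ _).trans ((Finset.sum_le_sum hblk).trans ?_)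
    rw [Finset.sum_const, Finset.card_range, nsmul_eq_mul, hε']
    have hKK : (K : ℝ) * (ε / (4 * (K + 1) * C2) * (x * Real.log x)) ≤
        (K + 1) * (ε / (4 * (K + 1) * C2) * (C2 * N)) := by
      apply mul_le_mul (by linarith) _ (by positivity) (by positivity)
      gcongr
    refine hKK.trans (le_of_eq ?_)
    field_simp
  have e2 := split_sum g x hx0.le K
  rw [← hρ] at e2
  have e3 : ∑ n ∈ Finset.Icc 1 N, (Complex.exp (Complex.I * (fn c r b n : ℂ)) - (E : ℂ)) =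
      ∑ n ∈ Finset.Icc 1 N, g n := by rw [hg]
  rw [e3, e1, e2]
  refine (norm_sub_le _ _).trans ?_
  have h6 := norm_add_le (∑ n ∈ Finset.Icc 1 (NZ (ρ * x)), g n)
    (∑ k ∈ Finset.range K, ∑ n ∈ Finset.Ioc (NZ (2 / 3 * ((2 / 3) ^ k * x))) (NZ ((2 / 3) ^ k * x)), g n)
  have h7 : 0 ≤ ε * N := by positivity
  linarith

end

end Pool.Agent.R320.JL
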