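import Pool.Agent.R320.JL.Palm
import Pool.Agent.R320.CL.Asm
import Pool.Agent.Y743.NC.Tail

/-! # Gap sums and counts -/

set_option autoImplicit false

namespace Pool.Agent.R320.JL

open Filter Topology MeasureTheory Set
open SG (ord NZ)
open Pool.Agent.Y743.NC (dev dev_nonneg dev_int ff)
open Pool.Agent.Y743.LR (yv)
open Pool.Agent.R320.CL (SS SS_ge SS_le)

/-- the number variance -/
lemma varB (B : ℝ) (hB : 1 ≤ B) : ∃ C T0 : ℝ, 1 ≤ C ∧ 10 ≤ T0 ∧ ∀ T : ℝ, T0 ≤ T → ∀ a : ℝ, 0 < a →
    a * Real.log a ≤ B * Real.log T → ∫ t in Icc T (2 * T), dev T a t ≤ T * (C + Real.log (1 + a)) := by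
  obtain ⟨C, T0, hC, hT0, hv⟩ := Pool.Agent.TH850.UV.nv2 B hB
  refine ⟨C + 1, T0, by linarith, hT0, fun T hT a ha haL => ?_⟩
  have hpi := Real.pi_gt_three
  have hT10 : 10 ≤ T := hT0.trans hT
  have hL : 0 < Real.log T := Real.log_pos (by linarith)
  obtain ⟨_, h4⟩ := hv T hT a ha haL
  have hh0 : 0 ≤ 2 * Real.pi * a / Real.log T := by positivity
  have e1 : ∫ t in T..(2 * T),
      ((Pool.Agent.TH850.UV.cnt t (2 * Real.pi * a / Real.log T) : ℝ) - a) ^ 2 =
      ∫ t in Icc T (2 * T), dev T a t := by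
    rw [integral_Icc_eq_integral_Ioc, ← intervalIntegral.integral_of_le (by linarith)]
    refine intervalIntegral.integral_congr fun t ht => ?_
    rw [uIcc_of_le (by linarith)] at ht
    show ((Pool.Agent.TH850.UV.cnt t (2 * Real.pi * a / Real.log T) : ℝ) - a) ^ 2 = _
    rw [Pool.Agent.Y743.LR.cnt_NZ (by linarith [ht.1]) hh0]
    rfl
  rw [e1] at h4
  have h5 := (abs_le.mp h4).2
  have h6 : 0 ≤ Real.log (1 + a) := Real.log_nonneg (by linarith)
  have h7 : T / Real.pi ^ 2 * Real.log (1 + a) ≤ T * Real.log (1 + a) := by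
    apply mul_le_mul_of_nonneg_right _ h6
    apply div_le_self (by linarith)
    nlinarith
  nlinarith

/-- Chebyshev's inequality -/
lemma cheb {T x s q : ℝ} (hT : 28 < T) (hq : 0 < q) (hs : |s| ≤ 14) :
    volume.real ({t | q ≤ |YY T x (t + s)|} ∩ Icc (T + 14) (2 * T - 14)) ≤
      (∫ t in Icc T (2 * T), dev T x t) / q ^ 2 := by
  obtain ⟨s1, s2⟩ := abs_le.1 hs
  have hm : MeasurableSet {t | q ≤ |YY T x (t + s)|} := by
    have h1 : Measurable fun t => YY T x (t + s) := (YY_meas T x).comp (measurable_id.add_const _)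
    exact measurableSet_le measurable_const h1.abs
  have hIf : volume (Icc (T + 14) (2 * T - 14)) ≠ ⊤ := by
    rw [Real.volume_Icc]; exact ENNReal.ofReal_ne_top
  have i1 : IntegrableOn (fun t => dev T x (t + s)) (Icc (T + 14) (2 * T - 14)) := by
    have h1 : IntegrableOn (dev T x) (Icc (T + 14 + s) (2 * T - 14 + s)) := dev_int _ _ _ _
    have h2 := (intervalIntegrable_iff_integrableOn_Icc_of_le (μ := volume)
      (by linarith : T + 14 + s ≤ 2 * T - 14 + s)).2 h1
    have h3 := h2.comp_add_right s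
    simp only [add_sub_cancel_right] at h3
    exact (intervalIntegrable_iff_integrableOn_Icc_of_le (by linarith)).1 h3
  have h1 : volume.real ({t | q ≤ |YY T x (t + s)|} ∩ Icc (T + 14) (2 * T - 14)) =
      ∫ t in Icc (T + 14) (2 * T - 14), {t | q ≤ |YY T x (t + s)|}.indicator (fun _ => (1 : ℝ)) t := by
    rw [setIntegral_indicator hm, setIntegral_const, smul_eq_mul, mul_one, inter_comm]
  have i0 : IntegrableOn ({t | q ≤ |YY T x (t + s)|}.indicator fun _ => (1 : ℝ))
      (Icc (T + 14) (2 * T - 14)) := (integrableOn_const hIf).indicator hm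
  have i0' : IntegrableOn (fun t => {t | q ≤ |YY T x (t + s)|}.indicator (fun _ => (1 : ℝ)) t * q ^ 2)
      (Icc (T + 14) (2 * T - 14)) := i0.mul_const (q ^ 2)
  rw [h1, le_div_iff₀ (by positivity), ← integral_mul_const]
  have h2 : ∫ t in Icc (T + 14) (2 * T - 14),
      {t | q ≤ |YY T x (t + s)|}.indicator (fun _ => (1 : ℝ)) t * q ^ 2 ≤
      ∫ t in Icc (T + 14) (2 * T - 14), dev T x (t + s) := by
    refine setIntegral_mono_on i0' i1 measurableSet_Icc fun t _ => ?_
    by_cases h : t ∈ {t | q ≤ |YY T x (t + s)|}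
    · rw [indicator_of_mem h, one_mul]
      have h3 : q ≤ |YY T x (t + s)| := h
      have h4 : dev T x (t + s) = YY T x (t + s) ^ 2 := rfl
      rw [h4, ← sq_abs (YY T x (t + s))]
      exact pow_le_pow_left₀ hq.le h3 2
    · rw [indicator_of_notMem h, zero_mul]
      exact dev_nonneg _ _ _
  refine h2.trans ?_
  have h3 := Pool.Agent.Y743.LR.shift_int (dev T x) (T + 14) (2 * T - 14) s
  rw [h3]
  exact setIntegral_mono_set (dev_int _ _ _ _) (ae_of_all _ fun t => dev_nonneg _ _ _)
    (Filter.Eventually.of_forall (Icc_subset_Icc (by linarith) (by linarith)))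

/-- the deviation between two windows -/
lemma G_abs {T b v t : ℝ} :
    |(NZ (t + 2 * Real.pi * (b + v) / Real.log T) : ℝ) - NZ (t + 2 * Real.pi * b / Real.log T) - v| =
      |YY T |v| (t + 2 * Real.pi * (b + min v 0) / Real.log T)| := by
  unfold YY
  rcases le_total 0 v with h | h
  · rw [abs_of_nonneg h, min_eq_right h, add_zero]
    have e : t + 2 * Real.pi * b / Real.log T + 2 * Real.pi * v / Real.log T =
        t + 2 * Real.pi * (b + v) / Real.log T := by ring
    rw [e]
  · rw [abs_of_nonpos h, min_eq_left h]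
    have e : t + 2 * Real.pi * (b + v) / Real.log T + 2 * Real.pi * (-v) / Real.log T =
        t + 2 * Real.pi * b / Real.log T := by ring
    rw [e, ← abs_neg]
    congr 1
    ring

/-- the exceptional set -/
def Wb (T b M q K η : ℝ) (I : ℕ) : Set ℝ :=
  ({t | K * q ≤ |YY T b (t + 0)|} ∪ {t | η * q / 8 ≤ |YY T M (t + 0)|}) ∪
  ((⋃ i ∈ Finset.range (2 * I + 1), {t | η * q / 4 ≤ |YY T (|((i : ℝ) - I) * (η * q)|)
      (t + 2 * Real.pi * (b + min (((i : ℝ) - I) * (η * q)) 0) / Real.log T)|}) ∪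
   (⋃ i ∈ Finset.range (2 * I + 1), {t | η * q / 4 ≤ |YY T (|((i : ℝ) - I) * (η * q) + M|)
      (t + 2 * Real.pi * (b + min (((i : ℝ) - I) * (η * q) + M) 0) / Real.log T)|}))

/-- **counts determine the gap sums** -/
lemma inv_key {T b M q K η t : ℝ} {n b' : ℕ} (hb : b = b') (hT : 1 < T) (hq : 0 < q) (hη : 0 < η)
    (hMq : M ≤ η * q / 8) (hK : 0 < K) {I : ℕ} (hI : K / η + 2 ≤ I) (hn : 1 ≤ n)
    (ht1 : ord n - M * (2 * Real.pi / Real.log T) ≤ t) (ht2 : t < ord n) (hW : t ∉ Wb T b M q K η I) :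
    |ff T b' n + YY T b t| ≤ 2 * (η * q) := by
  have hpi := Real.pi_pos
  have hL : 0 < Real.log T := Real.log_pos hT
  obtain ⟨u, hu⟩ : ∃ u : ℝ, u = η * q := ⟨_, rfl⟩
  have hu0 : 0 < u := by rw [hu]; positivity
  unfold Wb at hW
  rw [← hu] at hW hMq ⊢
  simp only [mem_union, mem_iUnion, mem_setOf_eq, not_or, not_exists, not_le, add_zero,
    Finset.mem_range, exists_prop, not_and] at hW
  obtain ⟨⟨w1, w2⟩, w3, w4⟩ := hW
  obtain ⟨Y, hY⟩ : ∃ Y : ℝ, Y = YY T b t := ⟨_, rfl⟩
  rw [← hY] at w1 ⊢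
  -- the first neighbour
  have hff : ff T b' n = (ord (n + b') - ord n) * Real.log T / (2 * Real.pi) - b := by
    unfold ff yv
    rw [hb]
    ring
  obtain ⟨w, hw⟩ : ∃ w : ℝ, w = YY T M t := ⟨_, rfl⟩
  rw [← hw] at w2
  have hn1 : (n : ℝ) ≤ NZ t + M + w := by
    have h1 : n ≤ NZ (t + 2 * Real.pi * M / Real.log T) := by
      refine (SG.ord_le_iff hn _).mp ?_
      have e : 2 * Real.pi * M / Real.log T = M * (2 * Real.pi / Real.log T) := by ring
      rw [e]
      linarith
    have h2 : (n : ℝ) ≤ NZ (t + 2 * Real.pi * M / Real.log T) := by exact_mod_cast h1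
    have h3 : w = (NZ (t + 2 * Real.pi * M / Real.log T) : ℝ) - NZ t - M := hw
    linarith
  have hn2 : (NZ t : ℝ) < n := by
    have h1 : NZ t < n := by
      by_contra hcon
      push Not at hcon
      have := (SG.ord_le_iff hn _).mpr hcon
      linarith
    exact_mod_cast h1
  have hYd : (NZ (t + 2 * Real.pi * b / Real.log T) : ℝ) = NZ t + b + Y := by
    rw [hY]; unfold YY; ring
  have w2' := (abs_lt.1 w2)
  have w1' := abs_lt.1 w1
  -- the grid
  have grid : ∀ v : ℝ, |v| ≤ K * q + 3 / 2 * u → ∀ j : ℤ, v = j * u → ∃ i : ℕ, i < 2 * I + 1 ∧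
      ((i : ℝ) - I) * u = v := by
    intro v hv j hj
    have h1 : |(j : ℝ)| ≤ I := by
      rw [hj, abs_mul, abs_of_pos hu0] at hv
      have h2 : K * q = K / η * u := by rw [hu]; field_simp
      rw [h2] at hv
      have h3 : |(j : ℝ)| * u ≤ (K / η + 3 / 2) * u := by linarith
      have h4 := le_of_mul_le_mul_right h3 hu0
      linarith
    obtain ⟨h2, h3⟩ := abs_le.1 h1
    have h2' : -(I : ℤ) ≤ j := by exact_mod_cast h2
    have h3' : j ≤ (I : ℤ) := by exact_mod_cast h3
    refine ⟨(j + I).toNat, by omega, ?_⟩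
    have h4 : (((j + I).toNat : ℕ) : ℝ) = ((j + I : ℤ) : ℝ) := by
      have : (((j + I).toNat : ℕ) : ℤ) = j + I := Int.toNat_of_nonneg (by omega)
      exact_mod_cast this
    rw [h4, hj]
    push_cast
    ring
  rw [abs_le]
  constructor
  · by_contra hcon
    push Not at hcon
    -- `ff < - Y - 2 u`
    obtain ⟨j, hj⟩ : ∃ j : ℤ, j = ⌈(-Y - u / 2) / u⌉ - 1 := ⟨_, rfl⟩
    obtain ⟨v, hv⟩ : ∃ v : ℝ, v = j * u := ⟨_, rfl⟩
    have hc1 := Int.le_ceil ((-Y - u / 2) / u)
    have hc2 := Int.ceil_lt_add_one ((-Y - u / 2) / u)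
    have v1 : v < -Y - u / 2 := by
      rw [hv, hj, ← lt_div_iff₀ hu0]
      push_cast
      linarith
    have v2 : -Y - 3 / 2 * u ≤ v := by
      rw [hv, hj]
      push_cast
      have : (-Y - u / 2) / u * u ≤ (⌈(-Y - u / 2) / u⌉ : ℝ) * u := mul_le_mul_of_nonneg_right hc1 hu0.le
      rw [div_mul_cancel₀ _ hu0.ne'] at this
      linarith
    obtain ⟨i, hi, hiv⟩ := grid v (by rw [abs_le]; constructor <;> linarith [w1'.1, w1'.2]) j hv
    have w5 := w4 i hi
    rw [hiv, ← G_abs, abs_lt] at w5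
    have h1 : ff T b' n ≤ v := by linarith
    rw [hff] at h1
    have h2 : ord (n + b') ≤ t + 2 * Real.pi * (b + (v + M)) / Real.log T := by
      have h3 : (ord (n + b') - ord n) * Real.log T / (2 * Real.pi) ≤ b + v := by linarith
      rw [div_le_iff₀ (by positivity)] at h3
      have h4 : ord (n + b') - ord n ≤ 2 * Real.pi * (b + v) / Real.log T := by
        rw [le_div_iff₀ hL]
        linarith
      have e : 2 * Real.pi * (b + (v + M)) / Real.log T = 2 * Real.pi * (b + v) / Real.log T +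
        M * (2 * Real.pi / Real.log T) := by ring
      rw [e]
      linarith
    have h3 : n + b' ≤ NZ (t + 2 * Real.pi * (b + (v + M)) / Real.log T) :=
      (SG.ord_le_iff (by omega) _).mp h2
    have h4 : (n : ℝ) + b ≤ NZ (t + 2 * Real.pi * (b + (v + M)) / Real.log T) := by
      have h5 : ((n + b' : ℕ) : ℝ) ≤ NZ (t + 2 * Real.pi * (b + (v + M)) / Real.log T) := by
        exact_mod_cast h3
      push_cast at h5
      linarith
    linarith [w5.2]
  · by_contra hcon
    push Not at hcon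
    obtain ⟨j, hj⟩ : ∃ j : ℤ, j = ⌊(-Y + u / 2) / u⌋ + 1 := ⟨_, rfl⟩
    obtain ⟨v, hv⟩ : ∃ v : ℝ, v = j * u := ⟨_, rfl⟩
    have hc1 := Int.floor_le ((-Y + u / 2) / u)
    have hc2 := Int.lt_floor_add_one ((-Y + u / 2) / u)
    have v1 : -Y + u / 2 < v := by
      rw [hv, hj, ← div_lt_iff₀ hu0]
      push_cast
      linarith
    have v2 : v ≤ -Y + 3 / 2 * u := by
      rw [hv, hj]
      push_cast
      have : (⌊(-Y + u / 2) / u⌋ : ℝ) * u ≤ (-Y + u / 2) / u * u := mul_le_mul_of_nonneg_right hc1 hu0.le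
      rw [div_mul_cancel₀ _ hu0.ne'] at this
      linarith
    obtain ⟨i, hi, hiv⟩ := grid v (by rw [abs_le]; constructor <;> linarith [w1'.1, w1'.2]) j hv
    have w5 := w3 i hi
    rw [hiv, ← G_abs, abs_lt] at w5
    have h1 : v < ff T b' n := by linarith
    rw [hff] at h1
    have h2 : ord n + 2 * Real.pi * (b + v) / Real.log T < ord (n + b') := by
      have h3 : b + v < (ord (n + b') - ord n) * Real.log T / (2 * Real.pi) := by linarith
      rw [lt_div_iff₀ (by positivity)] at h3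
      have h4 : 2 * Real.pi * (b + v) / Real.log T < ord (n + b') - ord n := by
        rw [div_lt_iff₀ hL]
        linarith
      linarith
    have h3 : NZ (t + 2 * Real.pi * (b + v) / Real.log T) < n + b' := by
      by_contra hc
      push Not at hc
      have := (SG.ord_le_iff (by omega) _).mpr hc
      linarith
    have h4 : (NZ (t + 2 * Real.pi * (b + v) / Real.log T) : ℝ) < n + b := by
      have h5 : (NZ (t + 2 * Real.pi * (b + v) / Real.log T) : ℝ) < ((n + b' : ℕ) : ℝ) := by
        exact_mod_cast h3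
      push_cast at h5
      linarith
    linarith [w5.1]

/-- the two normalisations -/
lemma SS_gL {T : ℝ} (hT : 100 ≤ T) {r n : ℕ} (hn : 1 ≤ n) (h1 : T ≤ ord n) (h2 : ord n ≤ 2 * T)
    (hg : (ord (n + r) - ord n) / (2 * Real.pi) ≤ 1 / 16) :
    |SS r n - r - ff T r n| ≤ 3 * ((ord (n + r) - ord n) / (2 * Real.pi)) := by
  have hpi := Real.pi_pos
  have hpi3 := Real.pi_gt_three
  have hpi4 := Real.pi_lt_d2
  obtain ⟨L, hL⟩ : ∃ L : ℝ, L = Real.log T := ⟨_, rfl⟩
  have huv : ord n ≤ ord (n + r) := SG.ord_mono hn (by omega)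
  obtain ⟨g, hgd⟩ : ∃ g : ℝ, g = (ord (n + r) - ord n) / (2 * Real.pi) := ⟨_, rfl⟩
  have hg0 : 0 ≤ g := by rw [hgd]; exact div_nonneg (by linarith) (by positivity)
  have hff : ff T r n = g * L - r := by
    unfold ff yv
    rw [hgd, hL]
    ring
  have hlogn : L - 2 ≤ Real.log (ord n / (2 * Real.pi)) := by
    rw [Real.log_div (by linarith) (by positivity), hL]
    have a1 : Real.log T ≤ Real.log (ord n) := Real.log_le_log (by linarith) h1
    have a2 : Real.log (2 * Real.pi) ≤ 2 := by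
      rw [Real.log_le_iff_le_exp (by positivity)]
      have e1 : Real.exp 2 = Real.exp 1 * Real.exp 1 := by rw [← Real.exp_add]; norm_num
      rw [e1]
      have := Real.exp_one_gt_d9
      nlinarith
    linarith
  have lo : g * (L - 2) ≤ SS r n := by
    have a1 := SS_ge (r := r) hn
    rw [← hgd] at a1
    exact (mul_le_mul_of_nonneg_left hlogn hg0).trans a1
  have hv : ord (n + r) = ord n + g * (2 * Real.pi) := by rw [hgd]; field_simp; ring
  rw [← hgd] at hg ⊢
  have hv3 : ord (n + r) ≤ 3 * T := by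
    rw [hv]
    nlinarith
  have hup : SS r n ≤ g * (L + 3) := by
    have a1 := SS_le (r := r) hn
    have hu0 : 0 < ord n := by linarith
    have hv0 : 0 < ord (n + r) := by linarith
    have a2 : Real.log (ord (n + r)) - Real.log (ord n) ≤ (ord (n + r) - ord n) / ord n := by
      rw [← Real.log_div hv0.ne' hu0.ne']
      have := Real.log_le_sub_one_of_pos (show 0 < ord (n + r) / ord n by positivity)
      refine this.trans (le_of_eq ?_)
      field_simp
    have a3 : ord n * (Real.log (ord (n + r)) - Real.log (ord n)) ≤ ord (n + r) - ord n := by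
      have := mul_le_mul_of_nonneg_left a2 hu0.le
      rwa [mul_div_cancel₀ _ hu0.ne'] at this
    have a4 : Real.log (ord (n + r)) ≤ L + 2 := by
      have b1 : Real.log (ord (n + r)) ≤ Real.log (3 * T) := Real.log_le_log hv0 hv3
      rw [Real.log_mul (by norm_num) (by linarith), ← hL] at b1
      have b2 : Real.log 3 ≤ 2 := by
        have := Real.log_le_sub_one_of_pos (show (0 : ℝ) < 3 by norm_num)
        linarith
      linarith
    have a5 : ord (n + r) * Real.log (ord (n + r)) / (2 * Real.pi) -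
        ord n * Real.log (ord n) / (2 * Real.pi) =
        (ord (n + r) - ord n) / (2 * Real.pi) * Real.log (ord (n + r)) +
          ord n * (Real.log (ord (n + r)) - Real.log (ord n)) / (2 * Real.pi) := by ring
    rw [a5, ← hgd] at a1
    have a6 : ord n * (Real.log (ord (n + r)) - Real.log (ord n)) / (2 * Real.pi) ≤ g := by
      rw [hgd]
      exact div_le_div_of_nonneg_right a3 (by positivity)
    have a7 : g * Real.log (ord (n + r)) ≤ g * (L + 2) := mul_le_mul_of_nonneg_left a4 hg0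
    linarith
  rw [hff, abs_le]
  constructor <;> nlinarith

end Pool.Agent.R320.JL
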