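import Pool.Agent.R320.JL.Wn
import Pool.Agent.Y743.CL.Bl

/-! # The joint law at a random height -/

set_option autoImplicit false

namespace Pool.Agent.R320.JL

open Filter Topology MeasureTheory Complex Set
open Pool.Agent.Y743.CL
open Pool.Agent.TH850.UV
open SG (NZ)

noncomputable section

/-- the deviation of the number of zeros in a window of `b` mean spacings -/
def YY (T b t : ℝ) : ℝ := ((NZ (t + 2 * Real.pi * b / Real.log T) : ℝ) - NZ t) - b

/-- the linear combination -/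
def Zc {k : ℕ} (c : Fin k → ℝ) (r : ℕ) (b : Fin k → ℕ) (T t : ℝ) : ℝ := (∑ i, c i * YY T (b i) t) / lm r

/-- the logarithm of the distance -/
def ld (x y : ℕ) : ℝ := Real.log (|(x : ℝ) - y|)

/-- the quadratic form -/
def QQ {k : ℕ} (c : Fin k → ℝ) (r : ℕ) (b : Fin k → ℕ) : ℝ :=
  ∑ i, ∑ j, c i * c j * ((Real.log (b i) + Real.log (b j) - ld (b i) (b j)) / (2 * Real.log r))

lemma YY_meas (T b : ℝ) : Measurable (YY T b) := by
  unfold YY
  have h1 : Measurable fun t : ℝ => (NZ t : ℝ) := measurable_from_nat.comp (SG.NZ_mono.measurable)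
  have h2 : Measurable fun t : ℝ => (NZ (t + 2 * Real.pi * b / Real.log T) : ℝ) :=
    h1.comp (measurable_id.add_const _)
  exact (h2.sub h1).sub_const _

lemma Zc_meas {k : ℕ} (c : Fin k → ℝ) (r : ℕ) (b : Fin k → ℕ) (T : ℝ) : Measurable (Zc c r b T) := by
  unfold Zc
  refine Measurable.div_const ?_ _
  exact Finset.measurable_fun_sum _ fun i _ => (YY_meas T (b i)).const_mul _

lemma exp_lip (x y : ℝ) : ‖Complex.exp (I * x) - Complex.exp (I * y)‖ ≤ |x - y| := by
  have h1 : Complex.exp (I * x) - Complex.exp (I * y) =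
      Complex.exp (I * y) * (Complex.exp (I * ((x - y : ℝ) : ℂ)) - 1) := by
    rw [mul_sub, ← Complex.exp_add, mul_one]
    congr 2
    push_cast
    ring
  rw [h1, norm_mul, Complex.norm_exp_I_mul_ofReal, one_mul]
  exact Real.norm_exp_I_mul_ofReal_sub_one_le

lemma exp_dif {x y δ : ℝ} (hx : 0 ≤ x) (h : |x - y| ≤ δ) (hδ : δ ≤ 1) :
    |Real.exp (-x) - Real.exp (-y)| ≤ 2 * δ := by
  have h1 : Real.exp (-x) - Real.exp (-y) = -(Real.exp (-x) * (Real.exp (x - y) - 1)) := by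
    rw [mul_sub, ← Real.exp_add, mul_one]
    have : -x + (x - y) = -y := by ring
    rw [this]; ring
  rw [h1, abs_neg, abs_mul, abs_of_pos (Real.exp_pos _)]
  have h2 : Real.exp (-x) ≤ 1 := Real.exp_le_one_iff.2 (by linarith)
  have h3 := Real.abs_exp_sub_one_le (h.trans hδ)
  calc Real.exp (-x) * |Real.exp (x - y) - 1| ≤ 1 * (2 * |x - y|) := by
        apply mul_le_mul h2 h3 (abs_nonneg _) zero_le_one
    _ ≤ 2 * δ := by linarith

lemma sum_bd {k : ℕ} (c : Fin k → ℝ) (m : Fin k → Fin k → ℝ) (M : ℝ) (h : ∀ i j, |m i j| ≤ M) :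
    |∑ i, ∑ j, c i * c j * m i j| ≤ (∑ i, |c i|) ^ 2 * M := by
  calc |∑ i, ∑ j, c i * c j * m i j| ≤ ∑ i, ∑ j, |c i| * |c j| * M :=
        (Finset.abs_sum_le_sum_abs _ _).trans (Finset.sum_le_sum fun i _ =>
          (Finset.abs_sum_le_sum_abs _ _).trans (Finset.sum_le_sum fun j _ => by
            rw [abs_mul, abs_mul]
            exact mul_le_mul_of_nonneg_left (h i j) (by positivity)))
    _ = _ := by
      rw [sq, Finset.sum_mul_sum, Finset.sum_mul]
      refine Finset.sum_congr rfl fun i _ => ?_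
      rw [Finset.sum_mul]

lemma ld_bd {r x y : ℕ} (hx : 1 ≤ x ∧ x ≤ r) (hy : 1 ≤ y ∧ y ≤ r) : 0 ≤ ld x y ∧ ld x y ≤ Real.log r := by
  unfold ld
  have h2 : (1 : ℝ) ≤ x := by exact_mod_cast hx.1
  have h3 : (1 : ℝ) ≤ y := by exact_mod_cast hy.1
  have h4 : (x : ℝ) ≤ r := by exact_mod_cast hx.2
  have h5 : (y : ℝ) ≤ r := by exact_mod_cast hy.2
  rcases eq_or_ne x y with h | h
  · rw [h]
    simp only [sub_self, abs_zero, Real.log_zero]
    exact ⟨le_rfl, Real.log_nonneg (by linarith)⟩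
  · have h1 : (1 : ℝ) ≤ |(x : ℝ) - y| := by
      have h2 : ((x : ℤ) - y) ≠ 0 := by omega
      have h3 : 1 ≤ |((x : ℤ) - y)| := Int.one_le_abs h2
      exact_mod_cast h3
    refine ⟨Real.log_nonneg h1, Real.log_le_log (by linarith) ?_⟩
    rw [abs_le]
    constructor <;> linarith

lemma QQ_bd {k : ℕ} (c : Fin k → ℝ) {r : ℕ} (hr : 1 ≤ Real.log r) (b : Fin k → ℕ)
    (hb : ∀ i, 1 ≤ b i ∧ b i ≤ r) : |QQ c r b| ≤ (∑ i, |c i|) ^ 2 * (3 / 2) := by
  unfold QQ
  refine sum_bd c (fun i j => (Real.log (b i) + Real.log (b j) - ld (b i) (b j)) / (2 * Real.log r)) _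
    fun i j => ?_
  rw [abs_div, abs_of_pos (by linarith : 0 < 2 * Real.log r), div_le_iff₀ (by linarith)]
  have hbl : ∀ i, 0 ≤ Real.log (b i) ∧ Real.log (b i) ≤ Real.log r := by
    intro i
    have h3 : (1 : ℝ) ≤ b i := by exact_mod_cast (hb i).1
    have h4 : (b i : ℝ) ≤ r := by exact_mod_cast (hb i).2
    exact ⟨Real.log_nonneg h3, Real.log_le_log (by linarith) h4⟩
  have k1 := hbl i
  have k2 := hbl j
  have k3 := ld_bd (hb i) (hb j)
  rw [abs_le]
  constructor <;> linarith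

lemma V_near {k : ℕ} (c : Fin k → ℝ) {r : ℕ} (hr : 1 ≤ Real.log r) (b : Fin k → ℕ) {w C' l L : ℝ}
    (hw0 : 0 < w) (hw2 : w ^ 2 = Real.log r / Real.pi ^ 2) (X : ℕ) (hC' : 0 ≤ C')
    (hbi : ∀ i, |ph l X (2 * Real.pi * (b i) / L) - 2 / Real.pi ^ 2 * Real.log (b i)| ≤ C')
    (hphd : ∀ i j, |ph l X (2 * Real.pi * (b i) / L - 2 * Real.pi * (b j) / L) -
      2 / Real.pi ^ 2 * ld (b i) (b j)| ≤ C') :
    |VS (nz (fun p => ∑ i, ((-c i : ℝ) : ℂ) * ze l (2 * Real.pi * (b i) / L) p)) X / (4 * w ^ 2) -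
      QQ c r b / 2| ≤ (∑ i, |c i|) ^ 2 * (C' / w ^ 2) := by
  have hpi := Real.pi_pos
  have hV : VS (nz (fun p => ∑ i, ((-c i : ℝ) : ℂ) * ze l (2 * Real.pi * (b i) / L) p)) X =
      ∑ i, ∑ j, c i * c j * ((ph l X (2 * Real.pi * (b i) / L) +
      ph l X (2 * Real.pi * (b j) / L) -
      ph l X (2 * Real.pi * (b i) / L - 2 * Real.pi * (b j) / L)) / 2) := by
    rw [VS_comb (fun i => -c i) l X (fun i => 2 * Real.pi * (b i) / L)]
    refine Finset.sum_congr rfl fun i _ => Finset.sum_congr rfl fun j _ => ?_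
    ring
  have e1 : VS (nz (fun p => ∑ i, ((-c i : ℝ) : ℂ) * ze l (2 * Real.pi * (b i) / L) p)) X / (4 * w ^ 2) -
      QQ c r b / 2 = ∑ i, ∑ j, c i * c j *
        (((ph l X (2 * Real.pi * (b i) / L) - 2 / Real.pi ^ 2 * Real.log (b i)) +
        (ph l X (2 * Real.pi * (b j) / L) - 2 / Real.pi ^ 2 * Real.log (b j)) -
        (ph l X (2 * Real.pi * (b i) / L - 2 * Real.pi * (b j) / L) -
          2 / Real.pi ^ 2 * ld (b i) (b j))) / (8 * w ^ 2)) := by
    rw [hV]
    unfold QQ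
    rw [Finset.sum_div, Finset.sum_div, ← Finset.sum_sub_distrib]
    refine Finset.sum_congr rfl fun i _ => ?_
    rw [Finset.sum_div, Finset.sum_div, ← Finset.sum_sub_distrib]
    refine Finset.sum_congr rfl fun j _ => ?_
    rw [hw2]
    have h1 : Real.log (r : ℝ) ≠ 0 := by linarith
    field_simp
    ring
  rw [e1]
  refine sum_bd c (fun i j => (((ph l X (2 * Real.pi * (b i) / L) - 2 / Real.pi ^ 2 * Real.log (b i)) +
        (ph l X (2 * Real.pi * (b j) / L) - 2 / Real.pi ^ 2 * Real.log (b j)) -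
        (ph l X (2 * Real.pi * (b i) / L - 2 * Real.pi * (b j) / L) -
          2 / Real.pi ^ 2 * ld (b i) (b j))) / (8 * w ^ 2))) _ fun i j => ?_
  rw [abs_div, abs_of_pos (by positivity : 0 < 8 * w ^ 2), div_le_div_iff₀ (by positivity) (by positivity)]
  have k1 := abs_le.1 (hbi i)
  have k2 := abs_le.1 (hbi j)
  have k3 := abs_le.1 (hphd i j)
  have k4 : |(ph l X (2 * Real.pi * (b i) / L) - 2 / Real.pi ^ 2 * Real.log (b i)) +
    (ph l X (2 * Real.pi * (b j) / L) - 2 / Real.pi ^ 2 * Real.log (b j)) -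
    (ph l X (2 * Real.pi * (b i) / L - 2 * Real.pi * (b j) / L) -
      2 / Real.pi ^ 2 * ld (b i) (b j))| ≤ 8 * C' := by
    rw [abs_le]
    constructor <;> linarith
  calc _ ≤ 8 * C' * w ^ 2 := by gcongr
    _ = _ := by ring

lemma Z_id {k : ℕ} (c : Fin k → ℝ) (r : ℕ) (b : Fin k → ℕ) (lam κ T t : ℝ) :
    Zc c r b T t = (PP (fun p => ∑ i, ((-c i : ℝ) : ℂ) * ze (Real.log T / lam)
      (2 * Real.pi * (b i) / Real.log T) p) (XK κ T) t).re / lm r +
      (∑ i, c i * er lam κ T (b i) t) / lm r := by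
  have e1 : PP (fun p => ∑ i, ((-c i : ℝ) : ℂ) * ze (Real.log T / lam)
      (2 * Real.pi * (b i) / Real.log T) p) (XK κ T) t =
      ∑ i, ((-c i : ℝ) : ℂ) * PP (ze (Real.log T / lam) (2 * Real.pi * (b i) / Real.log T)) (XK κ T) t := by
    unfold PP
    simp only [Finset.mul_sum, Finset.sum_mul]
    rw [Finset.sum_comm]
    refine Finset.sum_congr rfl fun i _ => Finset.sum_congr rfl fun p _ => ?_
    ring
  rw [e1, Complex.re_sum, ← add_div, ← Finset.sum_add_distrib]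
  unfold Zc
  congr 1
  refine Finset.sum_congr rfl fun i _ => ?_
  rw [er_PP, Complex.re_ofReal_mul]
  unfold YY
  ring

lemma z_bd {k : ℕ} (c : Fin k → ℝ) {l : ℝ} (hl : 0 < l) (x : Fin k → ℝ) (p : ℕ) :
    ‖∑ i, ((-c i : ℝ) : ℂ) * ze l (x i) p‖ ^ 2 ≤ (∑ i, |c i|) ^ 2 := by
  refine pow_le_pow_left₀ (norm_nonneg _) ?_ 2
  refine (norm_sum_le _ _).trans (Finset.sum_le_sum fun i _ => ?_)
  rw [norm_mul, Complex.norm_real, Real.norm_eq_abs, abs_neg, ze_norm]
  have h2 := rc_bd hl (x i) p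
  have h3 : |rc l (x i) p| ≤ 1 := abs_le_one_iff_mul_self_le_one.2 (by nlinarith)
  calc |c i| * _ ≤ |c i| * 1 := by gcongr
    _ = _ := mul_one _

lemma XK_pow {κ T : ℝ} (hT1 : 1 ≤ T) {m : ℕ} (hκm : κ * m ≤ 1 / 2) :
    ((XK κ T ^ m : ℕ) : ℝ) ≤ Real.sqrt T := by
  have hTpos : 0 < T := by linarith
  unfold XK
  push_cast
  calc (⌊T ^ κ⌋₊ : ℝ) ^ m ≤ (T ^ κ) ^ m := pow_le_pow_left₀ (Nat.cast_nonneg _) (Nat.floor_le (by positivity)) m
    _ = T ^ (κ * m) := by rw [← Real.rpow_natCast, ← Real.rpow_mul hTpos.le]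
    _ ≤ T ^ (1 / 2 : ℝ) := Real.rpow_le_rpow_of_exponent_le hT1 hκm
    _ = Real.sqrt T := (Real.sqrt_eq_rpow T).symm

theorem leb {k : ℕ} (c : Fin k → ℝ) (B : ℝ) (hB : 1 ≤ B) (ε : ℝ) (hε : 0 < ε) : ∀ᶠ r : ℕ in atTop,
    ∀ T : ℝ, 1 ≤ T → r * Real.log r ≤ B * Real.log T → ∀ b : Fin k → ℕ, (∀ i, 1 ≤ b i ∧ b i ≤ r) →
    ∀ A A' : ℝ, T + Real.log T ≤ A → A ≤ A' → A' ≤ 2 * T - Real.log T - 14 →
    ‖(∫ t in A..A', Complex.exp (I * (Zc c r b T t : ℂ))) -
      (((A' - A) * Real.exp (-(QQ c r b / 2)) : ℝ) : ℂ)‖ ≤ ε * T := by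
  obtain ⟨lam, C, T0, hlam, hC, hT0, hcomb⟩ := comb2 B hB
  obtain ⟨S, hS⟩ : ∃ S : ℝ, S = ∑ i, |c i| := ⟨_, rfl⟩
  have hS0 : 0 ≤ S := by rw [hS]; exact Finset.sum_nonneg fun _ _ => abs_nonneg _
  have hpi := Real.pi_pos
  have hpi3 := Real.pi_gt_three
  obtain ⟨m, D, hD, hcf⟩ := cf (5 * S ^ 2) (S ^ 2) (ε / 3) (by positivity) (by positivity) (by positivity)
  obtain ⟨κ, hκd⟩ : ∃ κ : ℝ, κ = 1 / (8 * (m + 1)) := ⟨_, rfl⟩
  have hκ : 0 < κ := by rw [hκd]; positivity
  have hκ8 : κ ≤ 1 / 8 := by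
    rw [hκd]
    apply one_div_le_one_div_of_le (by norm_num)
    have : (0 : ℝ) ≤ m := Nat.cast_nonneg _
    linarith
  have hκm : κ * m ≤ 1 / 2 := by
    rw [hκd, one_div, ← div_eq_inv_mul, div_le_iff₀ (by positivity)]
    have : (0 : ℝ) ≤ m := Nat.cast_nonneg _
    linarith
  obtain ⟨C', hC'⟩ : ∃ C' : ℝ, C' = C * (1 + Real.log (1 / κ)) := ⟨_, rfl⟩
  have hlogκ : 0 ≤ Real.log (1 / κ) := by
    apply Real.log_nonneg
    rw [le_div_iff₀ hκ]
    linarith
  have hC'0 : 0 < C' := by rw [hC']; positivity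
  have hlmt : Tendsto lm atTop atTop := by
    unfold lm
    exact ((Real.tendsto_sqrt_atTop.comp log_nat).atTop_div_const hpi)
  have hE : Tendsto (fun r : ℕ => C' / lm r ^ 2) atTop (𝓝 0) :=
    (tendsto_const_nhds (x := C')).div_atTop ((tendsto_pow_atTop (by norm_num)).comp hlmt)
  have hE2 : Tendsto (fun r : ℕ => S * (1 + C') / lm r) atTop (𝓝 0) :=
    (tendsto_const_nhds (x := S * (1 + C'))).div_atTop hlmt
  obtain ⟨η, hη⟩ : ∃ η : ℝ, η = min (1 / (S ^ 2 + 1)) (ε / (6 * (S ^ 2 + 1))) := ⟨_, rfl⟩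
  have hη0 : 0 < η := by rw [hη]; positivity
  filter_upwards [bigT B hB (max T0 (max D (Real.exp (8 / κ)))), hlmt.eventually_ge_atTop D,
    hE.eventually_lt_const (show (0 : ℝ) < 1 / 2 by norm_num),
    hE.eventually_lt_const hη0,
    hE2.eventually_lt_const (show (0 : ℝ) < ε / 3 by positivity),
    log_nat.eventually_ge_atTop 1] with r hr1 hr2 hr3 hr4 hr5 hr6
  intro T hT1 hrT b hb A A' hA hAA hA'
  obtain ⟨L, hL⟩ : ∃ L : ℝ, L = Real.log T := ⟨_, rfl⟩
  have hTb := hr1 T hT1 hrT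
  have hTT0 : T0 ≤ T := (le_max_left _ _).trans hTb
  have hTD : D ≤ T := ((le_max_left _ _).trans (le_max_right _ _)).trans hTb
  have hTκ : 8 ≤ κ * Real.log T := by
    have h1 : Real.exp (8 / κ) ≤ T := ((le_max_right _ _).trans (le_max_right _ _)).trans hTb
    have h2 := Real.log_le_log (Real.exp_pos _) h1
    rw [Real.log_exp, div_le_iff₀ hκ] at h2
    linarith
  have hTpos : 0 < T := by linarith
  have hL0 : 0 < L := by
    rw [hL]
    by_contra h
    push Not at h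
    nlinarith
  obtain ⟨w, hw⟩ : ∃ w : ℝ, w = lm r := ⟨_, rfl⟩
  rw [← hw] at hr2 hr3 hr4 hr5
  have hw1 : 1 ≤ w := hD.trans hr2
  have hw0 : 0 < w := by linarith
  have hw2 : w ^ 2 = Real.log r / Real.pi ^ 2 := by
    rw [hw]; unfold lm
    rw [div_pow, Real.sq_sqrt (by linarith)]
  -- the windows
  have hr1' : (1 : ℝ) ≤ r := by
    by_contra h
    push Not at h
    have : Real.log (r : ℝ) ≤ 0 := Real.log_nonpos (Nat.cast_nonneg _) h.le
    linarith
  have hsize : ∀ a : ℝ, 0 ≤ a → a ≤ r → a * Real.log a ≤ B * L := by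
    intro a ha har
    rw [hL]
    refine le_trans ?_ hrT
    rcases le_or_gt 1 a with h1 | h1
    · apply mul_le_mul har (Real.log_le_log (by linarith) har) (Real.log_nonneg h1) (by linarith)
    · have h2 : Real.log a ≤ 0 := Real.log_nonpos ha h1.le
      have h3 : 0 ≤ (r : ℝ) * Real.log r := by positivity
      nlinarith
  have hwin := fun a ha haL => hcomb T hTT0 a ha haL κ hκ hκ8 hTκ
  rw [← hL] at hwin
  obtain ⟨X, hX⟩ : ∃ X : ℕ, X = XK κ T := ⟨_, rfl⟩
  obtain ⟨l, hl⟩ : ∃ l : ℝ, l = L / lam := ⟨_, rfl⟩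
  have hl0 : 0 < l := by rw [hl]; positivity
  -- the variance function
  have hph : ∀ a : ℝ, 1 ≤ a → a ≤ r → |ph l X (2 * Real.pi * a / L) - 2 / Real.pi ^ 2 * Real.log a| ≤ C' := by
    intro a ha har
    have := (hwin a (by linarith) (hsize a (by linarith) har)).2.2.2 ha
    rw [hC', hl, hX]
    exact this
  have hphd : ∀ i j, |ph l X (2 * Real.pi * (b i) / L - 2 * Real.pi * (b j) / L) -
      2 / Real.pi ^ 2 * ld (b i) (b j)| ≤ C' := by
    intro i j
    unfold ld
    rw [← ph_abs]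
    have e1 : 2 * Real.pi * (b i) / L - 2 * Real.pi * (b j) / L = 2 * Real.pi * ((b i : ℝ) - b j) / L := by ring
    have e2 : |2 * Real.pi * ((b i : ℝ) - b j) / L| = 2 * Real.pi * |(b i : ℝ) - b j| / L := by
      rw [abs_div, abs_mul, abs_of_pos hL0, abs_of_pos (by positivity : 0 < 2 * Real.pi)]
    rw [e1, e2]
    rcases eq_or_ne (b i) (b j) with h | h
    · rw [h]
      simp only [sub_self, abs_zero, mul_zero, zero_div, Real.log_zero, sub_zero, ph_zero]
      exact hC'0.le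
    · have h1 : (1 : ℝ) ≤ |(b i : ℝ) - b j| := by
        have h2 : ((b i : ℤ) - b j) ≠ 0 := by omega
        have h3 : 1 ≤ |((b i : ℤ) - b j)| := Int.one_le_abs h2
        exact_mod_cast h3
      apply hph _ h1
      have h2 : (1 : ℝ) ≤ b i := by exact_mod_cast (hb i).1
      have h3 : (1 : ℝ) ≤ b j := by exact_mod_cast (hb j).1
      have h4 : (b i : ℝ) ≤ r := by exact_mod_cast (hb i).2
      have h5 : (b j : ℝ) ≤ r := by exact_mod_cast (hb j).2
      rw [abs_le]
      constructor <;> linarith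
  have hbi : ∀ i, |ph l X (2 * Real.pi * (b i) / L) - 2 / Real.pi ^ 2 * Real.log (b i)| ≤ C' := fun i =>
    hph _ (by exact_mod_cast (hb i).1) (by exact_mod_cast (hb i).2)
  -- the polynomial
  obtain ⟨z, hz⟩ : ∃ z : ℕ → ℂ, z = fun p => ∑ i, ((-c i : ℝ) : ℂ) * ze l (2 * Real.pi * (b i) / L) p := ⟨_, rfl⟩
  have hV0 := VS_nonneg (nz z) X
  have hVQ : |VS (nz z) X / (4 * w ^ 2) - QQ c r b / 2| ≤ S ^ 2 * (C' / w ^ 2) := by
    rw [hz, hS]
    exact V_near c hr6 b hw0 hw2 X hC'0.le hbi hphd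
  have hVK : VS (nz z) X ≤ 5 * S ^ 2 * w ^ 2 := by
    have h1 := (abs_le.1 (QQ_bd c hr6 b hb)).2
    rw [← hS] at h1
    have h3 := (abs_le.1 hVQ).2
    have h4 : VS (nz z) X / (4 * w ^ 2) ≤ 5 / 4 * S ^ 2 := by
      have : S ^ 2 * (C' / w ^ 2) ≤ S ^ 2 * (1 / 2) := mul_le_mul_of_nonneg_left hr3.le (sq_nonneg _)
      linarith
    rw [div_le_iff₀ (by positivity)] at h4
    linarith
  have hzM : ∀ p, ‖z p‖ ^ 2 ≤ S ^ 2 := by
    intro p
    rw [hz, hS]
    exact z_bd c hl0 _ p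
  have hX1 : 1 ≤ X := by
    rw [hX]
    unfold XK
    apply Nat.le_floor
    simpa using Real.one_le_rpow hT1 hκ.le
  have hXm : ((X ^ m : ℕ) : ℝ) ≤ Real.sqrt T := by
    rw [hX]
    exact XK_pow hT1 hκm
  have hA'T : A' - A ≤ T := by
    rw [← hL] at hA hA'
    linarith
  have hmain := hcf z X T A A' w hzM hX1 hTD hr2 hXm hAA hA'T hVK
  -- the approximation
  have hid : ∀ t, Zc c r b T t = (PP z X t).re / w + (∑ i, c i * er lam κ T (b i) t) / w := by
    intro t
    rw [Z_id c r b lam κ T t, hz, hl, hX, hL, hw]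
  obtain ⟨g, hg⟩ : ∃ g : ℝ → ℝ, g = fun t => ∑ i, |c i| * ((1 + er lam κ T (b i) t ^ 2) / 2) / w := ⟨_, rfl⟩
  have hsub : uIcc A A' ⊆ uIcc (T + L) (2 * T - L - 14) := by
    rw [← hL] at hA hA'
    rw [uIcc_of_le hAA, uIcc_of_le (by linarith)]
    exact Icc_subset_Icc hA hA'
  have hei : ∀ i, IntervalIntegrable (fun t => er lam κ T (b i) t ^ 2) volume (T + L) (2 * T - L - 14) :=
    fun i => (hwin (b i) (Nat.cast_nonneg _) (hsize _ (Nat.cast_nonneg _)
      (by exact_mod_cast (hb i).2))).2.1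
  have hgi : ∀ x y : ℝ, uIcc x y ⊆ uIcc (T + L) (2 * T - L - 14) → IntervalIntegrable g volume x y := by
    intro x y hxy
    rw [hg]
    have h1 : ∀ i ∈ (Finset.univ : Finset (Fin k)), IntervalIntegrable
        (fun t => |c i| * ((1 + er lam κ T (b i) t ^ 2) / 2) / w) volume x y := fun i _ =>
      IntervalIntegrable.div_const (IntervalIntegrable.const_mul
        (IntervalIntegrable.div_const (IntervalIntegrable.add intervalIntegrable_const
          ((hei i).mono_set hxy)) _) _) _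
    have h2 := IntervalIntegrable.sum _ h1
    refine h2.congr fun t _ => ?_
    simp
  have hbd : ∀ t, ‖Complex.exp (I * (Zc c r b T t : ℂ)) -
      Complex.exp (I * (((PP z X t).re / w : ℝ) : ℂ))‖ ≤ g t := by
    intro t
    refine (exp_lip _ _).trans ?_
    rw [hid t, add_sub_cancel_left, abs_div, abs_of_pos hw0, hg]
    simp only
    rw [← Finset.sum_div]
    apply div_le_div_of_nonneg_right _ hw0.le
    refine (Finset.abs_sum_le_sum_abs _ _).trans (Finset.sum_le_sum fun i _ => ?_)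
    rw [abs_mul]
    apply mul_le_mul_of_nonneg_left _ (abs_nonneg _)
    have := sq_abs (er lam κ T (b i) t)
    nlinarith [sq_nonneg (|er lam κ T (b i) t| - 1)]
  have hLT : T + L ≤ 2 * T - L - 14 := by
    rw [← hL] at hA hA'
    linarith
  have hgint : ∫ t in A..A', g t ≤ ε / 3 * T := by
    have h1 : ∫ t in A..A', g t ≤ ∫ t in (T + L)..(2 * T - L - 14), g t := by
      rw [← hL] at hA hA'
      refine intervalIntegral.integral_mono_interval hA hAA hA' (ae_of_all _ fun t => ?_)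
        (hgi _ _ subset_rfl)
      show 0 ≤ g t
      rw [hg]
      exact Finset.sum_nonneg fun i _ => by positivity
    have h2 : ∫ t in (T + L)..(2 * T - L - 14), g t ≤ S * (1 + C') / w * T := by
      rw [hg, intervalIntegral.integral_finsetSum]
      · rw [hS, Finset.sum_mul, Finset.sum_div, Finset.sum_mul]
        refine Finset.sum_le_sum fun i _ => ?_
        rw [intervalIntegral.integral_div, intervalIntegral.integral_const_mul,
          intervalIntegral.integral_div, intervalIntegral.integral_add intervalIntegrable_const (hei i),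
          intervalIntegral.integral_const, smul_eq_mul, mul_one]
        have h3 := (hwin (b i) (Nat.cast_nonneg _) (hsize _ (Nat.cast_nonneg _)
          (by exact_mod_cast (hb i).2))).2.2.1
        have h4 : 2 * T - L - 14 - (T + L) ≤ T := by linarith
        have h5 : ((2 * T - L - 14 - (T + L)) + ∫ t in (T + L)..(2 * T - L - 14), er lam κ T (b i) t ^ 2) / 2 ≤
            (1 + C') * T := by
          rw [hC']
          have : 0 ≤ C * (1 + Real.log (1 / κ)) * T := by positivity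
          linarith
        calc |c i| * (((2 * T - L - 14 - (T + L)) + ∫ t in (T + L)..(2 * T - L - 14),
              er lam κ T (b i) t ^ 2) / 2) / w ≤ |c i| * ((1 + C') * T) / w := by gcongr
          _ = _ := by ring
      · intro i _
        exact IntervalIntegrable.div_const (IntervalIntegrable.const_mul
          (IntervalIntegrable.div_const (IntervalIntegrable.add intervalIntegrable_const
          (hei i)) _) _) _
    refine h1.trans (h2.trans ?_)
    exact mul_le_mul_of_nonneg_right hr5.le hTpos.le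
  -- together
  have hi1 : IntervalIntegrable (fun t => Complex.exp (I * (Zc c r b T t : ℂ))) volume A A' := by
    refine (intervalIntegrable_const (c := (1 : ℝ))).mono_fun' ?_ (ae_of_all _ fun t => ?_)
    · exact (Complex.measurable_exp.comp ((Complex.measurable_ofReal.comp
        (Zc_meas c r b T)).const_mul I)).aestronglyMeasurable
    · show ‖Complex.exp (I * (Zc c r b T t : ℂ))‖ ≤ 1
      rw [Complex.norm_exp_I_mul_ofReal]
  have hi2 : IntervalIntegrable (fun t => Complex.exp (I * (((PP z X t).re / w : ℝ) : ℂ))) volume A A' := by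
    have h1 : Continuous fun t => (PP z X t).re / w := (Complex.continuous_re.comp (PP_cont z X)).div_const _
    have h2 : Continuous fun t => (((PP z X t).re / w : ℝ) : ℂ) := Complex.continuous_ofReal.comp h1
    exact Continuous.intervalIntegrable (by fun_prop) _ _
  have hfirst : ‖(∫ t in A..A', Complex.exp (I * (Zc c r b T t : ℂ))) -
      ∫ t in A..A', Complex.exp (I * (((PP z X t).re / w : ℝ) : ℂ))‖ ≤ ε / 3 * T := by
    rw [← intervalIntegral.integral_sub hi1 hi2]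
    exact (intervalIntegral.norm_integral_le_of_norm_le hAA (ae_of_all _ fun t _ => hbd t)
      (hgi _ _ hsub)).trans hgint
  have hS21 : S ^ 2 * (C' / w ^ 2) ≤ 1 ∧ S ^ 2 * (C' / w ^ 2) ≤ ε / 6 := by
    have h1 : η ≤ 1 / (S ^ 2 + 1) := by rw [hη]; exact min_le_left _ _
    have h2 : η ≤ ε / (6 * (S ^ 2 + 1)) := by rw [hη]; exact min_le_right _ _
    have h3 : S ^ 2 * (C' / w ^ 2) ≤ S ^ 2 * η := by gcongr
    have h4 : S ^ 2 * η ≤ (S ^ 2 + 1) * η := by nlinarith
    constructor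
    · rw [le_div_iff₀ (by positivity)] at h1
      linarith
    · rw [le_div_iff₀ (by positivity)] at h2
      linarith
  have hthird : |Real.exp (-(VS (nz z) X / (4 * w ^ 2))) - Real.exp (-(QQ c r b / 2))| ≤ ε / 3 := by
    have := exp_dif (x := VS (nz z) X / (4 * w ^ 2)) (y := QQ c r b / 2) (by positivity) hVQ hS21.1
    linarith [hS21.2]
  have hlast : ‖(((A' - A) * Real.exp (-(VS (nz z) X / (4 * w ^ 2))) : ℝ) : ℂ) -
      (((A' - A) * Real.exp (-(QQ c r b / 2)) : ℝ) : ℂ)‖ ≤ ε / 3 * T := by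
    rw [← Complex.ofReal_sub, Complex.norm_real, Real.norm_eq_abs, ← mul_sub, abs_mul,
      abs_of_nonneg (by linarith : 0 ≤ A' - A), mul_comm]
    exact mul_le_mul hthird hA'T (by linarith) (by positivity)
  have e9 : (∫ t in A..A', Complex.exp (I * (Zc c r b T t : ℂ))) -
      (((A' - A) * Real.exp (-(QQ c r b / 2)) : ℝ) : ℂ) =
      ((∫ t in A..A', Complex.exp (I * (Zc c r b T t : ℂ))) -
        ∫ t in A..A', Complex.exp (I * (((PP z X t).re / w : ℝ) : ℂ))) +
      ((∫ t in A..A', Complex.exp (I * (((PP z X t).re / w : ℝ) : ℂ))) -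
        (((A' - A) * Real.exp (-(VS (nz z) X / (4 * w ^ 2))) : ℝ) : ℂ)) +
      ((((A' - A) * Real.exp (-(VS (nz z) X / (4 * w ^ 2))) : ℝ) : ℂ) -
      (((A' - A) * Real.exp (-(QQ c r b / 2)) : ℝ) : ℂ)) := by ring
  rw [e9]
  refine (norm_add_le _ _).trans ?_
  have h10 := norm_add_le ((∫ t in A..A', Complex.exp (I * (Zc c r b T t : ℂ))) -
        ∫ t in A..A', Complex.exp (I * (((PP z X t).re / w : ℝ) : ℂ)))
      ((∫ t in A..A', Complex.exp (I * (((PP z X t).re / w : ℝ) : ℂ))) -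
        (((A' - A) * Real.exp (-(VS (nz z) X / (4 * w ^ 2))) : ℝ) : ℂ))
  linarith

end

end Pool.Agent.R320.JL
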