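import Mathlib

/-! # Convergence of empirical laws with moments -/

set_option autoImplicit false

namespace Pool.Agent.R320.JL

open Filter Topology MeasureTheory Set ProbabilityTheory
open scoped NNReal ENNReal

noncomputable section

/-- the empirical measure of `x 1, ..., x N` -/
def emp (N : ℕ) (x : ℕ → ℝ) : Measure ℝ :=
  ∑ n ∈ Finset.Icc 1 N, ((N : ℝ≥0∞)⁻¹ • Measure.dirac (x n))

lemma emp_prob {N : ℕ} (hN : 1 ≤ N) (x : ℕ → ℝ) : IsProbabilityMeasure (emp N x) := by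
  refine ⟨?_⟩
  unfold emp
  rw [Measure.finsetSum_apply]
  simp only [Measure.smul_apply, measure_univ, smul_eq_mul, mul_one, Finset.sum_const,
    Nat.card_Icc, Nat.add_sub_cancel, nsmul_eq_mul]
  exact ENNReal.mul_inv_cancel (by exact_mod_cast (by omega : N ≠ 0)) (ENNReal.natCast_ne_top N)

lemma emp_int {E : Type*} [NormedAddCommGroup E] [NormedSpace ℝ E] [CompleteSpace E]
    (N : ℕ) (x : ℕ → ℝ) (f : ℝ → E) :
    ∫ y, f y ∂(emp N x) = ((N : ℝ)⁻¹) • ∑ n ∈ Finset.Icc 1 N, f (x n) := by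
  unfold emp
  rcases Nat.eq_zero_or_pos N with h | h
  · subst h; simp
  rw [integral_finsetSum_measure]
  · rw [Finset.smul_sum]
    refine Finset.sum_congr rfl fun n _ => ?_
    rw [integral_smul_measure, integral_dirac]
    simp
  · intro n _
    refine Integrable.smul_measure ?_ (by simp; omega)
    exact integrable_dirac (by simp)

/-- clamping -/
def clp (f : ℝ → ℝ) (K x : ℝ) : ℝ := f (max (-K) (min K x))

lemma clp_cont {f : ℝ → ℝ} (hf : Continuous f) (K : ℝ) : Continuous (clp f K) := by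
  unfold clp
  exact hf.comp (continuous_const.max (continuous_const.min continuous_id))

lemma clp_abs_le {K x : ℝ} (hK : 0 ≤ K) : |max (-K) (min K x)| ≤ K := by
  rw [abs_le]
  exact ⟨le_max_left _ _, max_le (by linarith) (min_le_left _ _)⟩

lemma clp_bd {f : ℝ → ℝ} {A : ℝ} {p : ℕ} (hA : 0 ≤ A) (hfA : ∀ x, |f x| ≤ A * (1 + |x|) ^ p) {K : ℝ}
    (hK : 0 ≤ K) (x : ℝ) : |clp f K x| ≤ A * (1 + K) ^ p := by
  refine (hfA _).trans ?_
  apply mul_le_mul_of_nonneg_left _ hA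
  apply pow_le_pow_left₀ (by positivity)
  have := clp_abs_le (x := x) hK
  linarith

lemma clp_dif {f : ℝ → ℝ} {A : ℝ} {p : ℕ} (hA : 0 ≤ A) (hfA : ∀ x, |f x| ≤ A * (1 + |x|) ^ p) {K : ℝ}
    (hK : 0 ≤ K) (x : ℝ) : |f x - clp f K x| ≤ 2 * A / (1 + K) * (1 + |x|) ^ (p + 1) := by
  by_cases hx : |x| ≤ K
  · have h1 := abs_le.1 hx
    have : clp f K x = f x := by
      unfold clp
      rw [min_eq_right h1.2, max_eq_right h1.1]
    rw [this, sub_self, abs_zero]
    positivity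
  · push Not at hx
    have h1 := hfA x
    have h2 := clp_bd hA hfA hK x
    have h3 : A * (1 + K) ^ p ≤ A * (1 + |x|) ^ p := by
      apply mul_le_mul_of_nonneg_left _ hA
      exact pow_le_pow_left₀ (by linarith) (by linarith) p
    have h4 : |f x - clp f K x| ≤ 2 * A * (1 + |x|) ^ p := by
      refine (abs_sub _ _).trans ?_
      linarith
    refine h4.trans ?_
    rw [div_mul_eq_mul_div, le_div_iff₀ (by linarith), pow_succ, mul_assoc, mul_assoc, mul_assoc]
    have h5 : 0 ≤ (1 + |x|) ^ p := by positivity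
    have h6 : (1 + |x|) ^ p * (1 + K) ≤ (1 + |x|) ^ p * (1 + |x|) :=
      mul_le_mul_of_nonneg_left (by linarith) h5
    nlinarith

lemma gau_int_pow (v : ℝ≥0) (q : ℕ) : Integrable (fun x : ℝ => (1 + |x|) ^ q) (gaussianReal 0 v) := by
  have h1 : MemLp (fun x : ℝ => |x|) q (gaussianReal 0 v) := by
    have := (memLp_id_gaussianReal (μ := 0) (v := v) (q : NNReal)).norm
    simpa using this
  have h2 : MemLp (fun _ : ℝ => (1 : ℝ)) q (gaussianReal 0 v) := memLp_const 1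
  have h3 := (h2.add h1).integrable_norm_pow'
  refine h3.congr (Eventually.of_forall fun x => ?_)
  show ‖(1 : ℝ) + |x|‖ ^ q = _
  rw [Real.norm_of_nonneg (by positivity)]

/-- `N(0, v)` as the law of `√v Z` -/
lemma gau_scale (v : ℝ≥0) (f : ℝ → ℝ) (hf : Continuous f) :
    ∫ x, f x ∂(gaussianReal 0 v) = ∫ x, f (Real.sqrt v * x) ∂(gaussianReal 0 1) := by
  have h1 := gaussianReal_map_const_mul (μ := 0) (v := 1) (Real.sqrt v)
  have h2 : gaussianReal 0 v = (gaussianReal 0 1).map (fun x => Real.sqrt v * x) := by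
    have h3 : (Real.sqrt v * ·) = fun x => Real.sqrt v * x := rfl
    rw [← h3, h1, mul_zero]
    congr 1
    ext
    simp [Real.sq_sqrt]
  rw [h2, integral_map (by fun_prop) hf.aestronglyMeasurable]

/-- **convergence of empirical laws, with test functions of polynomial growth** -/
theorem lv (x : ℕ → ℕ → ℝ) (N : ℕ → ℕ) (hN : ∀ m, 1 ≤ N m) (v : ℝ≥0)
    (hcf : ∀ ξ : ℝ, Tendsto (fun m => ((N m : ℝ)⁻¹) • ∑ n ∈ Finset.Icc 1 (N m),
      Complex.exp (Complex.I * ((ξ * x m n : ℝ) : ℂ))) atTop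
      (𝓝 (Real.exp (-(ξ ^ 2 * v / 2)) : ℂ)))
    (f : ℝ → ℝ) (hf : Continuous f) (A : ℝ) (p : ℕ) (hfA : ∀ x, |f x| ≤ A * (1 + |x|) ^ p)
    (C : ℝ) (hC : ∀ᶠ m in atTop, ∑ n ∈ Finset.Icc 1 (N m), (1 + |x m n|) ^ (p + 1) ≤ C * N m) :
    Tendsto (fun m => ((N m : ℝ)⁻¹) * ∑ n ∈ Finset.Icc 1 (N m), f (x m n)) atTop
      (𝓝 (∫ y, f y ∂(gaussianReal 0 v))) := by
  have hA0 : 0 ≤ A := by
    have := (abs_nonneg _).trans (hfA 0)
    simp at this
    exact this
  let μ : ℕ → ProbabilityMeasure ℝ := fun m => ⟨emp (N m) (x m), emp_prob (hN m) (x m)⟩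
  let μ₀ : ProbabilityMeasure ℝ := ⟨gaussianReal 0 v, inferInstance⟩
  have hw : Tendsto μ atTop (𝓝 μ₀) := by
    rw [ProbabilityMeasure.tendsto_iff_tendsto_charFun]
    intro ξ
    have h1 : ∀ m, charFun (μ m : Measure ℝ) ξ = ((N m : ℝ)⁻¹) • ∑ n ∈ Finset.Icc 1 (N m),
        Complex.exp (Complex.I * ((ξ * x m n : ℝ) : ℂ)) := by
      intro m
      rw [charFun_apply_real]
      show ∫ y, Complex.exp (ξ * y * Complex.I) ∂(emp (N m) (x m)) = _
      rw [emp_int]
      congr 1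
      refine Finset.sum_congr rfl fun n _ => ?_
      congr 1
      push_cast
      ring
    have h2 : charFun (μ₀ : Measure ℝ) ξ = (Real.exp (-(ξ ^ 2 * v / 2)) : ℂ) := by
      show charFun (gaussianReal 0 v) ξ = _
      rw [charFun_gaussianReal]
      push_cast
      congr 1
      ring
    rw [h2]
    refine (hcf ξ).congr fun m => (h1 m).symm
  rw [ProbabilityMeasure.tendsto_iff_forall_integral_tendsto] at hw
  -- the Gaussian moment
  obtain ⟨C0, hC0⟩ : ∃ C0 : ℝ, C0 = ∫ y, (1 + |y|) ^ (p + 1) ∂(gaussianReal 0 v) := ⟨_, rfl⟩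
  have hC00 : 0 ≤ C0 := by
    rw [hC0]
    exact integral_nonneg fun y => by positivity
  obtain ⟨C1, hC1⟩ : ∃ C1 : ℝ, C1 = max C 0 + C0 + 1 := ⟨_, rfl⟩
  have hC1p : 0 < C1 := by rw [hC1]; have := le_max_right C 0; linarith
  have hCC1 : C ≤ C1 := by rw [hC1]; have := le_max_left C 0; linarith
  have hC0C1 : C0 ≤ C1 := by rw [hC1]; have := le_max_right C 0; linarith
  rw [Metric.tendsto_atTop]
  intro ε hε
  obtain ⟨K, hK⟩ : ∃ K : ℝ, K = 8 * A * C1 / ε := ⟨_, rfl⟩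
  have hK0 : 0 ≤ K := by rw [hK]; positivity
  have hKε : 2 * A / (1 + K) * C1 ≤ ε / 4 := by
    rw [div_mul_eq_mul_div, div_le_iff₀ (by linarith), hK]
    have : ε / 4 * (1 + 8 * A * C1 / ε) = ε / 4 + 2 * A * C1 := by field_simp; ring
    rw [this]
    linarith
  obtain ⟨g, hg⟩ : ∃ g : BoundedContinuousFunction ℝ ℝ, ∀ y, g y = clp f K y :=
    ⟨BoundedContinuousFunction.ofNormedAddCommGroup (clp f K) (clp_cont hf K) (A * (1 + K) ^ p)
      (fun y => by rw [Real.norm_eq_abs]; exact clp_bd hA0 hfA hK0 y), fun y => rfl⟩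
  have hgt := hw g
  rw [Metric.tendsto_atTop] at hgt
  obtain ⟨m1, hm1⟩ := hgt (ε / 4) (by linarith)
  obtain ⟨m2, hm2⟩ := eventually_atTop.1 hC
  refine ⟨max m1 m2, fun m hm => ?_⟩
  have h1 := hm1 m ((le_max_left _ _).trans hm)
  have h2 := hm2 m ((le_max_right _ _).trans hm)
  rw [Real.dist_eq] at h1 ⊢
  have hNm : (0 : ℝ) < N m := by exact_mod_cast hN m
  have e1 : ∫ y, g y ∂(μ m : Measure ℝ) = ((N m : ℝ)⁻¹) * ∑ n ∈ Finset.Icc 1 (N m), clp f K (x m n) := by
    show ∫ y, g y ∂(emp (N m) (x m)) = _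
    rw [emp_int, smul_eq_mul]
    simp only [hg]
  have e2 : ∫ y, g y ∂(μ₀ : Measure ℝ) = ∫ y, clp f K y ∂(gaussianReal 0 v) := by
    show ∫ y, g y ∂(gaussianReal 0 v) = _
    simp only [hg]
  rw [e1, e2] at h1
  have h3 : |((N m : ℝ)⁻¹) * ∑ n ∈ Finset.Icc 1 (N m), f (x m n) -
      ((N m : ℝ)⁻¹) * ∑ n ∈ Finset.Icc 1 (N m), clp f K (x m n)| ≤ ε / 4 := by
    rw [← mul_sub, ← Finset.sum_sub_distrib, abs_mul, abs_of_pos (by positivity), inv_mul_le_iff₀ hNm]
    calc |∑ n ∈ Finset.Icc 1 (N m), (f (x m n) - clp f K (x m n))| ≤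
        ∑ n ∈ Finset.Icc 1 (N m), 2 * A / (1 + K) * (1 + |x m n|) ^ (p + 1) :=
          (Finset.abs_sum_le_sum_abs _ _).trans
            (Finset.sum_le_sum fun n _ => clp_dif hA0 hfA hK0 _)
      _ = 2 * A / (1 + K) * ∑ n ∈ Finset.Icc 1 (N m), (1 + |x m n|) ^ (p + 1) := by
          rw [Finset.mul_sum]
      _ ≤ 2 * A / (1 + K) * (C1 * N m) := by
          apply mul_le_mul_of_nonneg_left _ (by positivity)
          exact h2.trans (mul_le_mul_of_nonneg_right hCC1 hNm.le)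
      _ = (2 * A / (1 + K) * C1) * N m := by ring
      _ ≤ ε / 4 * N m := mul_le_mul_of_nonneg_right hKε hNm.le
      _ = N m * (ε / 4) := mul_comm _ _
  have hfi : Integrable f (gaussianReal 0 v) := by
    refine ((gau_int_pow v p).const_mul A).mono' hf.aestronglyMeasurable
      (Eventually.of_forall fun y => ?_)
    exact hfA y
  have hci : Integrable (clp f K) (gaussianReal 0 v) := by
    refine (integrable_const (A * (1 + K) ^ p)).mono' (clp_cont hf K).aestronglyMeasurable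
      (Eventually.of_forall fun y => ?_)
    exact clp_bd hA0 hfA hK0 y
  have h4 : |∫ y, f y ∂(gaussianReal 0 v) - ∫ y, clp f K y ∂(gaussianReal 0 v)| ≤ ε / 4 := by
    rw [← integral_sub hfi hci]
    refine (abs_integral_le_integral_abs).trans ?_
    calc ∫ y, |f y - clp f K y| ∂(gaussianReal 0 v) ≤
        ∫ y, 2 * A / (1 + K) * (1 + |y|) ^ (p + 1) ∂(gaussianReal 0 v) :=
          integral_mono (hfi.sub hci).abs ((gau_int_pow v (p + 1)).const_mul _)
            fun y => clp_dif hA0 hfA hK0 y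
      _ = 2 * A / (1 + K) * C0 := by rw [integral_const_mul, ← hC0]
      _ ≤ 2 * A / (1 + K) * C1 := mul_le_mul_of_nonneg_left hC0C1 (by positivity)
      _ ≤ ε / 4 := hKε
  have h3' := abs_le.1 h3
  have h4' := abs_le.1 h4
  have h1' := abs_lt.1 h1
  rw [abs_lt]
  constructor <;> linarith [h3'.1, h3'.2, h4'.1, h4'.2, h1'.1, h1'.2]

end

end Pool.Agent.R320.JL
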