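import Pool.Agent.R320.JL.Fin
import Pool.Agent.R320.JL.Lv
import Pool.Agent.R320.VQ.Conv

/-! # Moments of gap sums of all lengths up to `r`, and joint convergence -/

set_option autoImplicit false

namespace Pool.Agent.R320.JL

open Filter Topology MeasureTheory Set ProbabilityTheory
open SG (ord NZ)
open SP (RHs)
open Pool.Agent.Y743.CL (lm log_nat bigT)
open Pool.Agent.R320.CL (SS dl)

noncomputable section

lemma dl_nn : ∃ n0 : ℕ, 1 ≤ n0 ∧ ∀ n : ℕ, n0 ≤ n → 0 ≤ dl n := by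
  have hpi := Real.pi_pos
  have h1 : ∀ᶠ n : ℕ in atTop, 2 * Real.pi ≤ ord n :=
    SG.ord_tendsto.eventually_ge_atTop (2 * Real.pi)
  obtain ⟨n0, hn0⟩ := eventually_atTop.1 h1
  refine ⟨max n0 1, le_max_right _ _, fun n hn => ?_⟩
  have h2 := hn0 n ((le_max_left _ _).trans hn)
  have hn1 : 1 ≤ n := (le_max_right _ _).trans hn
  unfold Pool.Agent.R320.CL.dl
  apply mul_nonneg
  · apply div_nonneg _ (by positivity)
    have := SG.ord_mono hn1 (show n ≤ n + 1 by omega)
    linarith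
  · apply Real.log_nonneg
    rw [le_div_iff₀ (by positivity)]
    linarith

lemma lm_mono {a r : ℕ} (ha : 1 ≤ a) (h : a ≤ r) : lm a ≤ lm r := by
  unfold Pool.Agent.Y743.CL.lm
  apply div_le_div_of_nonneg_right _ Real.pi_pos.le
  apply Real.sqrt_le_sqrt
  exact Real.log_le_log (by exact_mod_cast ha) (by exact_mod_cast h)

lemma xlog_mono {a r : ℕ} (ha : 1 ≤ a) (h : a ≤ r) : (a : ℝ) * Real.log a ≤ r * Real.log r := by
  have h1 : (1 : ℝ) ≤ a := by exact_mod_cast ha
  have h2 : (a : ℝ) ≤ r := by exact_mod_cast h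
  exact mul_le_mul h2 (Real.log_le_log (by linarith) h2) (Real.log_nonneg h1) (by linarith)

lemma add_pow_le2 {x y : ℝ} (hx : 0 ≤ x) (hy : 0 ≤ y) (q : ℕ) :
    (x + y) ^ q ≤ 2 ^ q * (x ^ q + y ^ q) := by
  have h1 : x + y ≤ 2 * max x y := by
    have := le_max_left x y
    have := le_max_right x y
    linarith
  have h2 : (max x y) ^ q ≤ x ^ q + y ^ q := by
    rcases max_cases x y with h | h
    · rw [h.1]
      have : 0 ≤ y ^ q := by positivity
      linarith
    · rw [h.1]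
      have : 0 ≤ x ^ q := by positivity
      linarith
  calc (x + y) ^ q ≤ (2 * max x y) ^ q := pow_le_pow_left₀ (by positivity) h1 q
    _ = 2 ^ q * (max x y) ^ q := mul_pow _ _ _
    _ ≤ _ := mul_le_mul_of_nonneg_left h2 (by positivity)

/-- bounded moments of the gap sums of all lengths `a ≤ r` -/
lemma mom1 (hRH : RHs) (q : ℕ) : ∃ C : ℝ, 0 ≤ C ∧ ∀ᶠ r : ℕ in atTop, ∀ N : ℕ, 1 ≤ N →
    r * Real.log r ≤ Real.log N → ∀ a : ℕ, 1 ≤ a → a ≤ r →
    ∑ n ∈ Finset.Icc 1 N, |(SS a n - a) / lm r| ^ q ≤ C * N := by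
  obtain ⟨M, hM⟩ : ∃ M : ℝ, M = ∫ x, |x| ^ q ∂Pool.Agent.Y743.CL.gs := ⟨_, rfl⟩
  have hM0 : 0 ≤ M := by rw [hM]; exact integral_nonneg fun x => by positivity
  have hcv := Pool.Agent.R320.VQ.conv hRH (fun x => |x| ^ q) (by fun_prop) 1 q (fun x => by
    rw [one_mul, abs_pow, abs_abs]
    exact pow_le_pow_left₀ (abs_nonneg _) (by linarith) q) 1 one_pos
  rw [← hM] at hcv
  obtain ⟨r1, hr1⟩ := eventually_atTop.1 (hcv.and (eventually_ge_atTop 2))
  have hr12 : 2 ≤ r1 := (hr1 r1 le_rfl).2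
  obtain ⟨n0, hn01, hn0⟩ := dl_nn
  obtain ⟨G, hG⟩ : ∃ G : ℝ, G = ∑ m ∈ Finset.range n0, |dl m| := ⟨_, rfl⟩
  have hG0 : 0 ≤ G := by rw [hG]; exact Finset.sum_nonneg fun _ _ => abs_nonneg _
  obtain ⟨B, hB⟩ : ∃ B : ℝ, B = 2 * r1 + 2 * G := ⟨_, rfl⟩
  have hB0 : 0 ≤ B := by rw [hB]; positivity
  -- absolute gaps
  have habs : ∀ (s n : ℕ), ∑ i ∈ Finset.range s, |dl (n + i)| ≤ SS s n + 2 * G := by
    intro s n
    have h1 : ∑ i ∈ Finset.range s, (|dl (n + i)| - dl (n + i)) ≤ 2 * G := by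
      have h2 : ∀ m, |dl m| - dl m ≤ if m < n0 then 2 * |dl m| else 0 := by
        intro m
        split_ifs with h
        · have := neg_abs_le (dl m)
          linarith
        · push Not at h
          rw [abs_of_nonneg (hn0 m h)]
          linarith
      calc ∑ i ∈ Finset.range s, (|dl (n + i)| - dl (n + i)) ≤
          ∑ i ∈ Finset.range s, (if n + i < n0 then 2 * |dl (n + i)| else 0) :=
            Finset.sum_le_sum fun i _ => h2 _
        _ = ∑ m ∈ (Finset.range s).map (addLeftEmbedding n), (if m < n0 then 2 * |dl m| else 0) := by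
            rw [Finset.sum_map]
            rfl
        _ = ∑ m ∈ ((Finset.range s).map (addLeftEmbedding n)).filter (fun m => m < n0), 2 * |dl m| := by
            rw [Finset.sum_filter]
        _ ≤ ∑ m ∈ Finset.range n0, 2 * |dl m| := by
            apply Finset.sum_le_sum_of_subset_of_nonneg
            · intro m hm
              rw [Finset.mem_filter] at hm
              exact Finset.mem_range.2 hm.2
            · intro m _ _
              positivity
        _ = 2 * G := by rw [hG, Finset.mul_sum]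
    rw [Finset.sum_sub_distrib] at h1
    unfold Pool.Agent.R320.CL.SS
    linarith
  have hsmall : ∀ (a n : ℕ), a ≤ r1 → |SS a n - a| ≤ |SS r1 n - r1| + B := by
    intro a n har
    have h1 : |SS a n| ≤ SS r1 n + 2 * G := by
      refine le_trans ?_ (habs r1 n)
      unfold Pool.Agent.R320.CL.SS
      refine (Finset.abs_sum_le_sum_abs _ _).trans ?_
      apply Finset.sum_le_sum_of_subset_of_nonneg
      · exact Finset.range_mono har
      · intro i _ _
        exact abs_nonneg _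
    have har' : (a : ℝ) ≤ r1 := by exact_mod_cast har
    have ha0 : (0 : ℝ) ≤ a := Nat.cast_nonneg _
    have h2 := abs_sub (SS a n) (a : ℝ)
    rw [abs_of_nonneg ha0] at h2
    have h3 := le_abs_self (SS r1 n - r1)
    rw [hB]
    linarith
  refine ⟨2 ^ q * ((M + 1) + B ^ q) + (M + 1), by positivity, ?_⟩
  filter_upwards [eventually_ge_atTop r1, Pool.Agent.R320.CL.lm_top.eventually_ge_atTop 1]
    with r hr hlm N hN hrN a ha har
  have hlm0 : 0 < lm r := by linarith
  have hNr : (0 : ℝ) ≤ N := Nat.cast_nonneg _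
  have key : ∀ s : ℕ, r1 ≤ s → s ≤ r → ∑ n ∈ Finset.Icc 1 N, |Pool.Agent.R320.VQ.XX s n| ^ q ≤
      (M + 1) * N := by
    intro s hs hsr
    have h1 := (hr1 s hs).1 N hN ((xlog_mono (by omega) hsr).trans hrN)
    have h2 := (abs_le.1 h1).2
    linarith
  have hlms : ∀ s : ℕ, r1 ≤ s → 0 < lm s := by
    intro s hs
    unfold Pool.Agent.Y743.CL.lm
    apply div_pos _ Real.pi_pos
    apply Real.sqrt_pos.2
    apply Real.log_pos
    have : (2 : ℝ) ≤ s := by exact_mod_cast hr12.trans hs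
    linarith
  by_cases hcase : r1 ≤ a
  · have h1 : ∀ n, |(SS a n - a) / lm r| ^ q ≤ |Pool.Agent.R320.VQ.XX a n| ^ q := by
      intro n
      apply pow_le_pow_left₀ (abs_nonneg _)
      unfold Pool.Agent.R320.VQ.XX
      rw [abs_div, abs_div, abs_of_pos hlm0, abs_of_pos (hlms a hcase)]
      exact div_le_div_of_nonneg_left (abs_nonneg _) (hlms a hcase) (lm_mono ha har)
    refine (Finset.sum_le_sum fun n _ => h1 n).trans ((key a hcase har).trans ?_)
    apply mul_le_mul_of_nonneg_right _ hNr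
    have : 0 ≤ 2 ^ q * ((M + 1) + B ^ q) := by positivity
    linarith
  · push Not at hcase
    have h1 : ∀ n, |(SS a n - a) / lm r| ^ q ≤ 2 ^ q * (|Pool.Agent.R320.VQ.XX r1 n| ^ q + B ^ q) := by
      intro n
      refine le_trans ?_ (add_pow_le2 (abs_nonneg _) hB0 q)
      apply pow_le_pow_left₀ (abs_nonneg _)
      unfold Pool.Agent.R320.VQ.XX
      rw [abs_div, abs_div, abs_of_pos hlm0, abs_of_pos (hlms r1 le_rfl)]
      have h2 := hsmall a n hcase.le
      have h3 : |SS r1 n - r1| / lm r ≤ |SS r1 n - r1| / lm r1 :=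
        div_le_div_of_nonneg_left (abs_nonneg _) (hlms r1 le_rfl) (lm_mono (by omega) hr)
      have h4 : B / lm r ≤ B := div_le_self hB0 hlm
      calc |SS a n - a| / lm r ≤ (|SS r1 n - r1| + B) / lm r :=
            div_le_div_of_nonneg_right h2 hlm0.le
        _ = |SS r1 n - r1| / lm r + B / lm r := add_div _ _ _
        _ ≤ _ := by linarith
    have hk := key r1 le_rfl hr
    calc ∑ n ∈ Finset.Icc 1 N, |(SS a n - a) / lm r| ^ q ≤
        ∑ n ∈ Finset.Icc 1 N, 2 ^ q * (|Pool.Agent.R320.VQ.XX r1 n| ^ q + B ^ q) :=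
          Finset.sum_le_sum fun n _ => h1 n
      _ = 2 ^ q * (∑ n ∈ Finset.Icc 1 N, |Pool.Agent.R320.VQ.XX r1 n| ^ q + N * B ^ q) := by
          rw [← Finset.mul_sum, Finset.sum_add_distrib, Finset.sum_const, Nat.card_Icc,
            Nat.add_sub_cancel, nsmul_eq_mul]
      _ ≤ 2 ^ q * ((M + 1) * N + N * B ^ q) := by
          apply mul_le_mul_of_nonneg_left _ (by positivity)
          linarith
      _ ≤ _ := by nlinarith

lemma mom2 (hRH : RHs) {k : ℕ} (c : Fin k → ℝ) (p : ℕ) : ∃ C : ℝ, ∀ᶠ r : ℕ in atTop,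
    ∀ N : ℕ, 1 ≤ N → r * Real.log r ≤ Real.log N → ∀ b : Fin k → ℕ, (∀ i, 1 ≤ b i ∧ b i ≤ r) →
    ∑ n ∈ Finset.Icc 1 N, (1 + |fn c r b n|) ^ (p + 1) ≤ C * N := by
  obtain ⟨C, hC, hev⟩ := mom1 hRH (p + 1)
  refine ⟨2 ^ (p + 1) * (1 + (k : ℝ) ^ p * ∑ i, |c i| ^ (p + 1) * C), ?_⟩
  filter_upwards [hev] with r hr N hN hrN b hb
  have hNr : (0 : ℝ) ≤ N := Nat.cast_nonneg _
  have hpt : ∀ n, (1 + |fn c r b n|) ^ (p + 1) ≤ 2 ^ (p + 1) * (1 + (k : ℝ) ^ p *
      ∑ i, |c i| ^ (p + 1) * |(SS (b i) n - b i) / lm r| ^ (p + 1)) := by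
    intro n
    have h1 := add_pow_le2 (x := 1) (y := |fn c r b n|) zero_le_one (abs_nonneg _) (p + 1)
    rw [one_pow] at h1
    refine h1.trans ?_
    apply mul_le_mul_of_nonneg_left _ (by positivity)
    apply add_le_add le_rfl
    have h2 : |fn c r b n| ≤ ∑ i, |c i| * |(SS (b i) n - b i) / lm r| := by
      unfold fn
      rw [Finset.sum_div]
      refine (Finset.abs_sum_le_sum_abs _ _).trans (le_of_eq ?_)
      refine Finset.sum_congr rfl fun i _ => ?_
      rw [mul_div_assoc, abs_mul]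
    refine (pow_le_pow_left₀ (abs_nonneg _) h2 _).trans ?_
    have h3 := pow_sum_le_card_mul_sum_pow (s := (Finset.univ : Finset (Fin k)))
      (f := fun i => |c i| * |(SS (b i) n - b i) / lm r|) (fun i _ => by positivity) p
    rw [Finset.card_univ, Fintype.card_fin] at h3
    refine h3.trans (le_of_eq ?_)
    congr 1
    refine Finset.sum_congr rfl fun i _ => ?_
    rw [mul_pow]
  calc ∑ n ∈ Finset.Icc 1 N, (1 + |fn c r b n|) ^ (p + 1) ≤
      ∑ n ∈ Finset.Icc 1 N, 2 ^ (p + 1) * (1 + (k : ℝ) ^ p *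
      ∑ i, |c i| ^ (p + 1) * |(SS (b i) n - b i) / lm r| ^ (p + 1)) :=
        Finset.sum_le_sum fun n _ => hpt n
    _ = 2 ^ (p + 1) * (N + (k : ℝ) ^ p * ∑ i, |c i| ^ (p + 1) *
        ∑ n ∈ Finset.Icc 1 N, |(SS (b i) n - b i) / lm r| ^ (p + 1)) := by
        rw [← Finset.mul_sum, Finset.sum_add_distrib, ← Finset.mul_sum, Finset.sum_comm]
        congr 2
        · simp
        · congr 1
          refine Finset.sum_congr rfl fun i _ => ?_
          rw [Finset.mul_sum]
    _ ≤ 2 ^ (p + 1) * (N + (k : ℝ) ^ p * ∑ i, |c i| ^ (p + 1) * (C * N)) := by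
        apply mul_le_mul_of_nonneg_left _ (by positivity)
        apply add_le_add le_rfl
        apply mul_le_mul_of_nonneg_left _ (by positivity)
        refine Finset.sum_le_sum fun i _ => ?_
        exact mul_le_mul_of_nonneg_left (hr N hN hrN (b i) (hb i).1 (hb i).2) (by positivity)
    _ = _ := by
        have e : ∑ i, |c i| ^ (p + 1) * (C * (N : ℝ)) = (∑ i, |c i| ^ (p + 1) * C) * N := by
          rw [Finset.sum_mul]
          refine Finset.sum_congr rfl fun i _ => ?_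
          ring
        rw [e]
        ring

end

end Pool.Agent.R320.JL
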