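import Pool.Agent.R320.JL.Leb
import Pool.Agent.Y743.CL.Pa

/-! # From heights to zeros, for bounded functions -/

set_option autoImplicit false

namespace Pool.Agent.R320.JL

open Filter Topology MeasureTheory Set
open SG (ord NZ)
open Pool.Agent.Y743.NC (dev dev_nonneg dev_int)
open Pool.Agent.Y743.CL (dev_eq)

lemma norm_cnt {E : Type*} [NormedAddCommGroup E] [NormedSpace ℝ E] (S : Finset ℕ) (f : ℕ → E) (F : E)
    (M δ : ℝ) (hF : ‖F‖ ≤ 1) (h : ∀ n ∈ S, ‖f n - F‖ ≤ δ) :
    ‖(∑ n ∈ S, f n) - M • F‖ ≤ δ * S.card + |(S.card : ℝ) - M| := by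
  have h1 : (∑ n ∈ S, f n) - M • F = (∑ n ∈ S, (f n - F)) + ((S.card : ℝ) - M) • F := by
    rw [Finset.sum_sub_distrib, Finset.sum_const, sub_smul, Nat.cast_smul_eq_nsmul]
    abel
  rw [h1]
  refine (norm_add_le _ _).trans (add_le_add ?_ ?_)
  · refine (norm_sum_le _ _).trans ((Finset.sum_le_sum h).trans (le_of_eq ?_))
    rw [Finset.sum_const, nsmul_eq_mul, mul_comm]
  · rw [norm_smul, Real.norm_eq_abs]
    calc _ ≤ |(S.card : ℝ) - M| * 1 := mul_le_mul_of_nonneg_left hF (abs_nonneg _)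
      _ = _ := mul_one _

/-- the sum over the zeros and the integral -/
lemma palmF {T M s δ A B' : ℝ} (hT : 1 < T) (hM : 0 < M) (hs : 0 < s) (hδ : 0 ≤ δ) (hδ2 : δ ≤ 2)
    (hA : T + M * (2 * Real.pi / Real.log T) ≤ A) (hAB : A + M * (2 * Real.pi / Real.log T) ≤ B')
    (hB : B' ≤ 2 * T) (f : ℕ → ℂ) (hf : ∀ n, ‖f n‖ ≤ 1) (F : ℝ → ℂ) (hFm : Measurable F)
    (hF : ∀ t, ‖F t‖ ≤ 1) (W : Set ℝ) (hWm : MeasurableSet W)
    (hW : ∀ n, 1 ≤ n → A < ord n → ord n ≤ B' → ∀ t, ord n - M * (2 * Real.pi / Real.log T) ≤ t →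
      t < ord n → t ∉ W → ‖f n - F t‖ ≤ δ) :
    ‖((M * (2 * Real.pi / Real.log T) : ℝ) : ℂ) * ∑ n ∈ Finset.Ioc (NZ A) (NZ B'), f n -
      (M : ℂ) * ∫ t in A..B', F t‖ ≤
      M * (δ * T + 2 * volume.real (W ∩ Icc T (2 * T)) + 4 * (M * (2 * Real.pi / Real.log T))) +
      (3 + δ) * ((s * T + (1 / s) * ∫ t in Icc T (2 * T), dev T M t) / 2) := by
  have hpi := Real.pi_pos
  have hL : 0 < Real.log T := Real.log_pos hT
  obtain ⟨ℓ, hℓ⟩ : ∃ ℓ : ℝ, ℓ = M * (2 * Real.pi / Real.log T) := ⟨_, rfl⟩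
  rw [← hℓ] at hA hAB hW ⊢
  have hℓ0 : 0 < ℓ := by rw [hℓ]; positivity
  have hT0 : 0 < T := by linarith
  set S := Finset.Ioc (NZ A) (NZ B') with hS
  have hSm : ∀ n ∈ S, 1 ≤ n ∧ A < ord n ∧ ord n ≤ B' := by
    intro n hn
    rw [hS, Finset.mem_Ioc] at hn
    have hn1 : 1 ≤ n := by omega
    refine ⟨hn1, ?_, (SG.ord_le_iff hn1 _).mpr hn.2⟩
    by_contra hcon
    push Not at hcon
    have := (SG.ord_le_iff hn1 _).mp hcon
    omega
  obtain ⟨J, hJ⟩ : ∃ J : Set ℝ, J = Icc (A - ℓ) B' := ⟨_, rfl⟩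
  have hJm : MeasurableSet J := by rw [hJ]; exact measurableSet_Icc
  have hJf : volume J ≠ ⊤ := by rw [hJ, Real.volume_Icc]; exact ENNReal.ofReal_ne_top
  -- the indicator functions
  have i1 : ∀ n ∈ S, IntegrableOn ((Ico (ord n - ℓ) (ord n)).indicator fun _ : ℝ => f n) J := fun n _ =>
    (integrableOn_const hJf).indicator measurableSet_Ico
  have i1' : ∀ n ∈ S, ∫ t in J, (Ico (ord n - ℓ) (ord n)).indicator (fun _ : ℝ => f n) t = (ℓ : ℂ) * f n := by
    intro n hn
    obtain ⟨b1, b2, b3⟩ := hSm n hn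
    rw [setIntegral_indicator measurableSet_Ico, setIntegral_const]
    have e1 : J ∩ Ico (ord n - ℓ) (ord n) = Ico (ord n - ℓ) (ord n) := by
      apply inter_eq_right.2
      rw [hJ]
      intro t ht
      exact ⟨by linarith [ht.1], by linarith [ht.2]⟩
    rw [e1, Real.volume_real_Ico_of_le (by linarith), sub_sub_cancel, Complex.real_smul]
  have i2 : IntegrableOn ((Icc A B').indicator fun t => (M : ℂ) * F t) J := by
    refine IntegrableOn.indicator ?_ measurableSet_Icc
    refine Measure.integrableOn_of_bounded (M := M) hJf (hFm.const_mul _).aestronglyMeasurable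
      (ae_of_all _ fun t => ?_)
    rw [norm_mul, Complex.norm_real, Real.norm_eq_abs, abs_of_pos hM]
    have := hF t
    nlinarith
  have i2' : ∫ t in J, (Icc A B').indicator (fun t => (M : ℂ) * F t) t = (M : ℂ) * ∫ t in A..B', F t := by
    rw [setIntegral_indicator measurableSet_Icc]
    have e1 : J ∩ Icc A B' = Icc A B' := by
      apply inter_eq_right.2
      rw [hJ]
      exact Icc_subset_Icc (by linarith) le_rfl
    rw [e1, integral_const_mul, intervalIntegral.integral_of_le (by linarith),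
      integral_Icc_eq_integral_Ioc]
  have e0 : (ℓ : ℂ) * ∑ n ∈ S, f n - (M : ℂ) * ∫ t in A..B', F t =
      ∫ t in J, ((∑ n ∈ S, (Ico (ord n - ℓ) (ord n)).indicator (fun _ : ℝ => f n) t) -
        (Icc A B').indicator (fun t => (M : ℂ) * F t) t) := by
    rw [integral_sub (integrable_finsetSum _ i1) i2, integral_finsetSum _ i1, i2', Finset.mul_sum]
    congr 1
    exact Finset.sum_congr rfl fun n hn => (i1' n hn).symm
  -- the majorant
  obtain ⟨Bd, hBd⟩ : ∃ Bd : Set ℝ, Bd = Icc (A - ℓ) A ∪ Icc (B' - ℓ) B' := ⟨_, rfl⟩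
  have hBdm : MeasurableSet Bd := by rw [hBd]; exact measurableSet_Icc.union measurableSet_Icc
  obtain ⟨g, hg⟩ : ∃ g : ℝ → ℝ, g = fun t => M * δ + 2 * M * W.indicator (fun _ => (1 : ℝ)) t +
    (3 + δ) * ((s + (1 / s) * dev T M t) / 2) + 2 * M * Bd.indicator (fun _ => (1 : ℝ)) t := ⟨_, rfl⟩
  have hg0 : ∀ t, 0 ≤ g t := by
    intro t
    have h1 : 0 ≤ W.indicator (fun _ => (1 : ℝ)) t := indicator_nonneg (fun _ _ => zero_le_one) _
    have h2 : 0 ≤ Bd.indicator (fun _ => (1 : ℝ)) t := indicator_nonneg (fun _ _ => zero_le_one) _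
    have h3 := dev_nonneg T M t
    rw [hg]
    positivity
  have hpt : ∀ t ∈ J, ‖(∑ n ∈ S, (Ico (ord n - ℓ) (ord n)).indicator (fun _ : ℝ => f n) t) -
        (Icc A B').indicator (fun t => (M : ℂ) * F t) t‖ ≤ g t := by
    intro t ht
    rw [hJ] at ht
    obtain ⟨St, hSt⟩ : ∃ St : Finset ℕ, St = S.filter fun n => ord n - ℓ ≤ t ∧ t < ord n := ⟨_, rfl⟩
    have e1 : ∑ n ∈ S, (Ico (ord n - ℓ) (ord n)).indicator (fun _ : ℝ => f n) t = ∑ n ∈ St, f n := by
      rw [hSt, Finset.sum_filter]
      refine Finset.sum_congr rfl fun n _ => ?_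
      rw [indicator_apply]
      rfl
    have hsub : St ⊆ Finset.Ioc (NZ t) (NZ (t + ℓ)) := by
      intro n hn
      rw [hSt, Finset.mem_filter] at hn
      obtain ⟨c1, c2, c3⟩ := hn
      obtain ⟨b1, b2, b3⟩ := hSm n c1
      rw [Finset.mem_Ioc]
      refine ⟨?_, (SG.ord_le_iff b1 _).mp (by linarith)⟩
      by_contra hcon
      push Not at hcon
      have := (SG.ord_le_iff b1 _).mpr hcon
      linarith
    have hmono : NZ t ≤ NZ (t + ℓ) := SG.NZ_mono (by linarith)
    obtain ⟨w, hw⟩ : ∃ w : ℝ, w = (NZ (t + ℓ) : ℝ) - NZ t := ⟨_, rfl⟩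
    have hcard : (St.card : ℝ) ≤ w := by
      have h1 := Finset.card_le_card hsub
      rw [Nat.card_Ioc] at h1
      have h2 : (St.card : ℝ) ≤ ((NZ (t + ℓ) - NZ t : ℕ) : ℝ) := by exact_mod_cast h1
      rwa [Nat.cast_sub hmono, ← hw] at h2
    have hw0 : 0 ≤ w := (Nat.cast_nonneg _).trans hcard
    have hdev : |w - M| ≤ (s + (1 / s) * dev T M t) / 2 := by
      rw [dev_eq, ← hℓ, ← hw]
      have h6 : 0 ≤ (s - |w - M|) ^ 2 / s := by positivity
      have h7 : (s - |w - M|) ^ 2 / s = s - 2 * |w - M| + 1 / s * |w - M| ^ 2 := by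
        field_simp
        ring
      rw [sq_abs] at h7
      linarith
    have hwM : w ≤ M + |w - M| := by linarith [le_abs_self (w - M)]
    have hdev0 : 0 ≤ |w - M| := abs_nonneg _
    have hWi0 : 0 ≤ W.indicator (fun _ => (1 : ℝ)) t := indicator_nonneg (fun _ _ => zero_le_one) _
    have hBi0 : 0 ≤ Bd.indicator (fun _ => (1 : ℝ)) t := indicator_nonneg (fun _ _ => zero_le_one) _
    rw [e1, hg]
    simp only
    by_cases hint : A ≤ t ∧ t ≤ B' - ℓ
    · -- the interior
      have e2 : (Icc A B').indicator (fun t => (M : ℂ) * F t) t = (M : ℂ) * F t :=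
        indicator_of_mem (show t ∈ Icc A B' from ⟨hint.1, by linarith [hint.2]⟩) _
      have hsub2 : Finset.Ioc (NZ t) (NZ (t + ℓ)) ⊆ St := by
        intro n hn
        rw [Finset.mem_Ioc] at hn
        have hn1 : 1 ≤ n := by omega
        rw [hSt, Finset.mem_filter, hS, Finset.mem_Ioc]
        have a1 : NZ A ≤ NZ t := SG.NZ_mono hint.1
        have a2 : NZ (t + ℓ) ≤ NZ B' := SG.NZ_mono (by linarith [hint.2])
        refine ⟨⟨by omega, by omega⟩, ?_, ?_⟩
        · have := (SG.ord_le_iff hn1 _).mpr hn.2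
          linarith
        · by_contra hcon
          push Not at hcon
          have := (SG.ord_le_iff hn1 _).mp hcon
          omega
      have hc2 : (St.card : ℝ) = w := by
        rw [hsub.antisymm hsub2, Nat.card_Ioc, Nat.cast_sub hmono, hw]
      rw [e2]
      have e3 : (M : ℂ) * F t = M • F t := (Complex.real_smul (x := M) (z := F t)).symm
      rw [e3]
      by_cases htW : t ∈ W
      · have h1 := norm_cnt St f (F t) M 2 (hF t) (fun n _ => by
          have := norm_sub_le (f n) (F t)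
          have := hf n
          have := hF t
          linarith)
        rw [hc2] at h1
        rw [indicator_of_mem htW]
        have h2 : 0 ≤ δ * ((s + (1 / s) * dev T M t) / 2) := mul_nonneg hδ (hdev0.trans hdev)
        have h3 : 0 ≤ M * δ := by positivity
        have h4 : 0 ≤ 2 * M * Bd.indicator (fun _ => (1 : ℝ)) t := by positivity
        linarith
      · have h1 := norm_cnt St f (F t) M δ (hF t) (fun n hn => by
          rw [hSt, Finset.mem_filter] at hn
          obtain ⟨c1, c2, c3⟩ := hn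
          obtain ⟨b1, b2, b3⟩ := hSm n c1
          exact hW n b1 b2 b3 t c2 c3 htW)
        rw [hc2] at h1
        rw [indicator_of_notMem htW]
        have h2 : δ * w ≤ δ * (M + |w - M|) := mul_le_mul_of_nonneg_left hwM hδ
        have h3 : δ * |w - M| ≤ δ * ((s + (1 / s) * dev T M t) / 2) := mul_le_mul_of_nonneg_left hdev hδ
        have h4 : 0 ≤ 2 * M * Bd.indicator (fun _ => (1 : ℝ)) t := by positivity
        linarith
    · -- the boundary
      have htB : t ∈ Bd := by
        rw [hBd]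
        by_cases h : A ≤ t
        · right
          exact ⟨by by_contra hc; exact hint ⟨h, by linarith⟩, ht.2⟩
        · left
          exact ⟨ht.1, by linarith⟩
      rw [indicator_of_mem htB]
      have h1 : ‖∑ n ∈ St, f n‖ ≤ St.card := by
        refine (norm_sum_le _ _).trans ((Finset.sum_le_sum fun n _ => hf n).trans (le_of_eq ?_))
        rw [Finset.sum_const, nsmul_eq_mul, mul_one]
      have h2 : ‖(Icc A B').indicator (fun t => (M : ℂ) * F t) t‖ ≤ M := by
        rw [norm_indicator_eq_indicator_norm]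
        refine (indicator_le_self' (fun _ _ => norm_nonneg _) t).trans ?_
        show ‖(M : ℂ) * F t‖ ≤ M
        rw [norm_mul, Complex.norm_real, Real.norm_eq_abs, abs_of_pos hM]
        have := hF t
        nlinarith
      have h3 := norm_sub_le (∑ n ∈ St, f n) ((Icc A B').indicator (fun t => (M : ℂ) * F t) t)
      have h4 : 0 ≤ 2 * M * W.indicator (fun _ => (1 : ℝ)) t := by positivity
      have h5 : 0 ≤ M * δ := by positivity
      have h6 : 0 ≤ (2 + δ) * ((s + (1 / s) * dev T M t) / 2) :=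
        mul_nonneg (by linarith) (hdev0.trans hdev)
      linarith
  -- integrate
  have k1 : IntegrableOn (dev T M) (Icc T (2 * T)) := dev_int _ _ _ _
  have hIf : volume (Icc T (2 * T)) ≠ ⊤ := by rw [Real.volume_Icc]; exact ENNReal.ofReal_ne_top
  have k2 : ∀ V : Set ℝ, MeasurableSet V → IntegrableOn (V.indicator fun _ : ℝ => (1 : ℝ)) (Icc T (2 * T)) :=
    fun V hV => (integrableOn_const hIf).indicator hV
  have hgi : IntegrableOn g (Icc T (2 * T)) := by
    rw [hg]
    exact (((integrableOn_const hIf).add ((k2 W hWm).const_mul _)).add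
      ((((integrableOn_const hIf).add (k1.const_mul (1 / s))).div_const 2).const_mul _)).add
      ((k2 Bd hBdm).const_mul _)
  have hJsub : J ⊆ Icc T (2 * T) := by
    rw [hJ]
    exact Icc_subset_Icc (by linarith) hB
  have hnorm : ‖∫ t in J, ((∑ n ∈ S, (Ico (ord n - ℓ) (ord n)).indicator (fun _ : ℝ => f n) t) -
        (Icc A B').indicator (fun t => (M : ℂ) * F t) t)‖ ≤ ∫ t in J, g t :=
    norm_integral_le_of_norm_le (hgi.mono_set hJsub)
      ((ae_restrict_iff' hJm).2 (ae_of_all _ hpt))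
  have hle : ∫ t in J, g t ≤ ∫ t in Icc T (2 * T), g t :=
    setIntegral_mono_set hgi (ae_of_all _ hg0) (Filter.Eventually.of_forall hJsub)
  have hval : ∫ t in Icc T (2 * T), g t ≤
      M * (δ * T + 2 * volume.real (W ∩ Icc T (2 * T)) + 4 * ℓ) +
      (3 + δ) * ((s * T + (1 / s) * ∫ t in Icc T (2 * T), dev T M t) / 2) := by
    have q1 : IntegrableOn (fun _ : ℝ => M * δ) (Icc T (2 * T)) := integrableOn_const hIf
    have q2 : IntegrableOn (fun t => 2 * M * W.indicator (fun _ => (1 : ℝ)) t) (Icc T (2 * T)) :=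
      (k2 W hWm).const_mul _
    have q3 : IntegrableOn (fun t => (3 + δ) * ((s + (1 / s) * dev T M t) / 2)) (Icc T (2 * T)) :=
      ((((integrableOn_const hIf).add (k1.const_mul (1 / s))).div_const 2).const_mul _)
    have q4 : IntegrableOn (fun t => 2 * M * Bd.indicator (fun _ => (1 : ℝ)) t) (Icc T (2 * T)) :=
      (k2 Bd hBdm).const_mul _
    have q5 : IntegrableOn (fun _ : ℝ => s) (Icc T (2 * T)) := integrableOn_const hIf
    have hind : ∀ V : Set ℝ, MeasurableSet V →
        ∫ t in Icc T (2 * T), V.indicator (fun _ => (1 : ℝ)) t = volume.real (V ∩ Icc T (2 * T)) := by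
      intro V hV
      rw [setIntegral_indicator hV, setIntegral_const, smul_eq_mul, mul_one, inter_comm]
    have hBv : volume.real (Bd ∩ Icc T (2 * T)) ≤ 2 * ℓ := by
      have h1 : volume.real (Bd ∩ Icc T (2 * T)) ≤ volume.real Bd :=
        measureReal_mono inter_subset_left (by
          rw [hBd]
          exact (measure_union_lt_top (by rw [Real.volume_Icc]; exact ENNReal.ofReal_lt_top)
            (by rw [Real.volume_Icc]; exact ENNReal.ofReal_lt_top)).ne)
      refine h1.trans ?_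
      rw [hBd]
      refine (measureReal_union_le _ _).trans ?_
      rw [Real.volume_real_Icc_of_le (by linarith), Real.volume_real_Icc_of_le (by linarith)]
      linarith
    have a1 := integral_add (μ := volume.restrict (Icc T (2 * T))) ((q1.add q2).add q3) q4
    have a2 := integral_add (μ := volume.restrict (Icc T (2 * T))) (q1.add q2) q3
    have a3 := integral_add (μ := volume.restrict (Icc T (2 * T))) q1 q2
    have a4 := integral_add (μ := volume.restrict (Icc T (2 * T))) q5 (k1.const_mul (1 / s))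
    simp only [Pi.add_apply] at a1 a2 a3 a4
    rw [hg]
    simp only
    rw [a1, a2, a3]
    simp only [integral_const_mul, integral_div]
    rw [a4]
    simp only [integral_const_mul]
    rw [hind W hWm, hind Bd hBdm]
    simp only [setIntegral_const, smul_eq_mul]
    rw [Real.volume_real_Icc_of_le (by linarith)]
    have : M * volume.real (Bd ∩ Icc T (2 * T)) ≤ M * (2 * ℓ) := mul_le_mul_of_nonneg_left hBv hM.le
    have e5 : (2 * T - T) = T := by ring
    rw [e5]
    nlinarith
  rw [e0]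
  exact hnorm.trans (hle.trans hval)

end Pool.Agent.R320.JL
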