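import Pool.Agent.R320.JL.Inv

/-! # The exceptional set is small -/

set_option autoImplicit false

namespace Pool.Agent.R320.JL

open Filter Topology MeasureTheory Set
open SG (ord NZ)
open Pool.Agent.Y743.NC (dev dev_nonneg dev_int ff)
open Pool.Agent.Y743.CL (lm log_nat bigT lm_nonneg)

lemma varB0 (B : ℝ) (hB : 1 ≤ B) : ∃ C T0 : ℝ, 1 ≤ C ∧ 10 ≤ T0 ∧ ∀ T : ℝ, T0 ≤ T → ∀ a : ℝ, 0 ≤ a →
    a * Real.log a ≤ B * Real.log T → ∫ t in Icc T (2 * T), dev T a t ≤ T * (C + Real.log (1 + a)) := by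
  obtain ⟨C, T0, hC, hT0, h⟩ := varB B hB
  refine ⟨C, T0, hC, hT0, fun T hT a ha haL => ?_⟩
  rcases ha.lt_or_eq with h1 | h1
  · exact h T hT a h1 haL
  · have h2 : ∀ t, dev T a t = 0 := by
      intro t
      unfold dev
      rw [← h1]
      simp
    simp only [h2, integral_zero]
    have : 0 ≤ Real.log (1 + a) := Real.log_nonneg (by linarith)
    have : 0 < T := by linarith
    positivity

lemma lm_top : Tendsto lm atTop atTop := by
  unfold lm
  exact (Real.tendsto_sqrt_atTop.comp log_nat).atTop_div_const Real.pi_pos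

lemma lm_sq {r : ℕ} (h : 0 ≤ Real.log (r : ℝ)) : lm r ^ 2 = Real.log r / Real.pi ^ 2 := by
  unfold lm
  rw [div_pow, Real.sq_sqrt h]

/-- `lm r = o(r)` -/
lemma lm_le (a c : ℝ) : ∀ᶠ r : ℕ in atTop, a * lm r + c ≤ r := by
  have h1 := Pool.Agent.Y743.CL.as1 a c
  filter_upwards [h1.eventually_lt_const (show (0 : ℝ) < 1 by norm_num), eventually_gt_atTop 0] with r h2 h3
  have h4 : (0 : ℝ) < r := by exact_mod_cast h3
  rw [div_lt_one h4] at h2
  exact h2.le

lemma log_small (C A D : ℝ) (hA : 0 ≤ A) (hD : 0 ≤ D) : Tendsto (fun r : ℕ =>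
    (C + Real.log (1 + (A * lm r + D))) / lm r ^ 2) atTop (𝓝 0) := by
  have h1 : Tendsto (fun x : ℝ => (C + Real.log (1 + (A * x + D))) / x ^ 2) atTop (𝓝 0) := by
    have e1 : Tendsto (fun x : ℝ => C / x ^ 2) atTop (𝓝 0) :=
      (tendsto_const_nhds (x := C)).div_atTop (tendsto_pow_atTop (by norm_num))
    have e2 : Tendsto (fun x : ℝ => (A * x + D) / x ^ 2) atTop (𝓝 0) := by
      have f1 : Tendsto (fun x : ℝ => A / x + D / x ^ 2) atTop (𝓝 (0 + 0)) :=
        ((tendsto_const_nhds (x := A)).div_atTop tendsto_id).add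
          ((tendsto_const_nhds (x := D)).div_atTop (tendsto_pow_atTop (by norm_num)))
      rw [add_zero] at f1
      refine f1.congr' ?_
      filter_upwards [eventually_gt_atTop 0] with x hx
      field_simp
    have e3 : Tendsto (fun x : ℝ => Real.log (1 + (A * x + D)) / x ^ 2) atTop (𝓝 0) := by
      refine squeeze_zero' ?_ ?_ e2
      · filter_upwards [eventually_gt_atTop 0] with x hx
        have : 0 ≤ Real.log (1 + (A * x + D)) := Real.log_nonneg (by nlinarith [mul_nonneg hA hx.le])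
        positivity
      · filter_upwards [eventually_gt_atTop 0] with x hx
        have h2 : 0 < 1 + (A * x + D) := by nlinarith [mul_nonneg hA hx.le]
        have h3 := Real.log_le_sub_one_of_pos h2
        apply div_le_div_of_nonneg_right _ (by positivity)
        linarith
    have e4 := e1.add e3
    rw [add_zero] at e4
    refine e4.congr fun x => ?_
    rw [add_div]
  exact h1.comp lm_top

/-- **the exceptional set is small** -/
lemma Wb_vol (B : ℝ) (hB : 1 ≤ B) (M : ℝ) (hM : 0 < M) (η : ℝ) (hη : 0 < η) (ε : ℝ) (hε : 0 < ε) :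
    ∃ K : ℝ, 0 < K ∧ ∀ I : ℕ, ∀ᶠ r : ℕ in atTop, ∀ T : ℝ, 1 ≤ T → r * Real.log r ≤ B * Real.log T →
    ∀ b : ℕ, 1 ≤ b → b ≤ r →
    volume.real (Wb T b M (lm r) K η I ∩ Icc (T + 14) (2 * T - 14)) ≤ ε * T := by
  obtain ⟨C, T0, hC, hT0, hv⟩ := varB0 B hB
  have hpi := Real.pi_pos
  have hpi4 := Real.pi_lt_d2
  refine ⟨Real.sqrt (60 / ε), by positivity, fun I => ?_⟩
  obtain ⟨K, hK⟩ : ∃ K : ℝ, K = Real.sqrt (60 / ε) := ⟨_, rfl⟩
  rw [← hK]
  have hK2 : K ^ 2 = 60 / ε := by rw [hK, Real.sq_sqrt (by positivity)]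
  have hK0 : 0 < K := by rw [hK]; positivity
  obtain ⟨n1, hn1⟩ : ∃ n1 : ℝ, n1 = 2 * (2 * I + 1) + 1 := ⟨_, rfl⟩
  have hn10 : 0 < n1 := by rw [hn1]; positivity
  filter_upwards [bigT B hB (max T0 29), lm_top.eventually_gt_atTop 0,
    log_nat.eventually_ge_atTop (max (C + 1) B), lm_le (I * η) M,
    (log_small C (I * η) M (by positivity) hM.le).eventually_lt_const
      (show (0 : ℝ) < ε * η ^ 2 / (128 * n1) by positivity)] with r h1 h2 h3 h4 h5
  intro T hT1 hrT b hb1 hbr
  have hTb := h1 T hT1 hrT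
  have hTT0 : T0 ≤ T := (le_max_left _ _).trans hTb
  have hT29 : 29 ≤ T := (le_max_right _ _).trans hTb
  obtain ⟨q, hq⟩ : ∃ q : ℝ, q = lm r := ⟨_, rfl⟩
  rw [← hq] at h2 h4 h5 ⊢
  have hlogr1 : C + 1 ≤ Real.log r := (le_max_left _ _).trans h3
  have hlogrB : B ≤ Real.log r := (le_max_right _ _).trans h3
  have hq2 : q ^ 2 = Real.log r / Real.pi ^ 2 := by rw [hq, lm_sq (by linarith)]
  have hr1 : (1 : ℝ) ≤ r := by
    have : (1 : ℝ) ≤ b := by exact_mod_cast hb1
    have h' : (b : ℝ) ≤ r := by exact_mod_cast hbr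
    linarith
  obtain ⟨L, hL⟩ : ∃ L : ℝ, L = Real.log T := ⟨_, rfl⟩
  have hL0 : 0 < L := by rw [hL]; exact Real.log_pos (by linarith)
  have hrL : (r : ℝ) ≤ L := by
    rw [← hL] at hrT
    have a1 : (r : ℝ) * B ≤ B * L := by
      calc (r : ℝ) * B ≤ r * Real.log r := by gcongr
        _ ≤ _ := hrT
    nlinarith
  have hsize : ∀ a : ℝ, 0 ≤ a → a ≤ r → a * Real.log a ≤ B * Real.log T := by
    intro a ha har
    refine le_trans ?_ hrT
    rcases le_or_gt 1 a with h1 | h1
    · apply mul_le_mul har (Real.log_le_log (by linarith) har) (Real.log_nonneg h1) (by linarith)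
    · have h2 : Real.log a ≤ 0 := Real.log_nonpos ha h1.le
      have h3 : 0 ≤ (r : ℝ) * Real.log r := by
        have := Real.log_nonneg hr1
        positivity
      nlinarith
  have hT0' : 0 < T := by linarith
  -- one small piece
  obtain ⟨e, he⟩ : ∃ e : ℝ, e = (C + Real.log (1 + (I * η * q + M))) / (η * q / 8) ^ 2 * T := ⟨_, rfl⟩
  have hV0 : 0 ≤ I * η * q := by positivity
  have he0 : e * n1 ≤ ε / 2 * T := by
    have h6 : (C + Real.log (1 + (I * η * q + M))) / q ^ 2 ≤ ε * η ^ 2 / (128 * n1) := h5.le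
    have e1 : e * n1 = (C + Real.log (1 + (I * η * q + M))) / q ^ 2 * (64 / η ^ 2 * n1) * T := by
      rw [he]; field_simp; ring
    rw [e1]
    have e2 : ε / 2 * T = ε * η ^ 2 / (128 * n1) * (64 / η ^ 2 * n1) * T := by
      field_simp; ring
    rw [e2]
    gcongr
  have hsm : ∀ a s p : ℝ, 0 ≤ a → a ≤ I * η * q + M → |s| ≤ 14 → η * q / 8 ≤ p →
      volume.real ({t | p ≤ |YY T a (t + s)|} ∩ Icc (T + 14) (2 * T - 14)) ≤ e := by
    intro a s p ha haV hs hp
    have hp0 : 0 < p := lt_of_lt_of_le (by positivity) hp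
    refine (cheb (by linarith) hp0 hs).trans ?_
    have h7 := hv T hTT0 a ha (hsize a ha (by linarith))
    rw [he, div_mul_eq_mul_div]
    have h8 : Real.log (1 + a) ≤ Real.log (1 + (I * η * q + M)) := Real.log_le_log (by linarith) (by linarith)
    have h9 : 0 ≤ Real.log (1 + (I * η * q + M)) := Real.log_nonneg (by linarith)
    calc (∫ t in Icc T (2 * T), dev T a t) / p ^ 2 ≤ (T * (C + Real.log (1 + a))) / p ^ 2 := by gcongr
      _ ≤ ((C + Real.log (1 + (I * η * q + M))) * T) / p ^ 2 := by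
          apply div_le_div_of_nonneg_right _ (by positivity)
          nlinarith
      _ ≤ _ := by
          apply div_le_div_of_nonneg_left (by positivity) (by positivity)
          exact pow_le_pow_left₀ (by positivity) hp 2
  -- the main piece
  have hbR : (1 : ℝ) ≤ b := by exact_mod_cast hb1
  have hbr' : (b : ℝ) ≤ r := by exact_mod_cast hbr
  have hmainp : volume.real ({t | K * q ≤ |YY T b (t + 0)|} ∩ Icc (T + 14) (2 * T - 14)) ≤ ε / 2 * T := by
    refine (cheb (by linarith) (by positivity) (by simp)).trans ?_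
    have h7 := hv T hTT0 b (by linarith) (hsize b (by linarith) hbr')
    have h8 : Real.log (1 + b) ≤ Real.log r + 1 := by
      have : Real.log (1 + (b : ℝ)) ≤ Real.log (2 * r) := Real.log_le_log (by linarith) (by linarith)
      rw [Real.log_mul (by norm_num) (by linarith)] at this
      have h2 : Real.log 2 ≤ 1 := by
        have := Real.log_le_sub_one_of_pos (show (0 : ℝ) < 2 by norm_num)
        linarith
      linarith
    have h9 : (K * q) ^ 2 = 60 / ε * (Real.log r / Real.pi ^ 2) := by rw [mul_pow, hK2, hq2]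
    rw [h9, div_le_iff₀ (by
      have : 0 < Real.log (r : ℝ) := by linarith
      positivity)]
    have h10 : ε / 2 * T * (60 / ε * (Real.log r / Real.pi ^ 2)) = T * (30 * Real.log r / Real.pi ^ 2) := by
      field_simp
      ring
    rw [h10]
    refine h7.trans ?_
    apply mul_le_mul_of_nonneg_left _ hT0'.le
    rw [le_div_iff₀ (by positivity)]
    have h11 : C + Real.log (1 + b) ≤ 2 * Real.log r := by linarith
    have h12 : Real.pi ^ 2 ≤ 10 := by nlinarith
    have h13 : 0 ≤ C + Real.log (1 + b) := by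
      have := Real.log_nonneg (show (1 : ℝ) ≤ 1 + b by linarith)
      linarith
    calc (C + Real.log (1 + b)) * Real.pi ^ 2 ≤ (2 * Real.log r) * 10 := by
          apply mul_le_mul h11 h12 (by positivity) (by linarith)
      _ ≤ _ := by linarith
  -- the union
  obtain ⟨J, hJ⟩ : ∃ J : Set ℝ, J = Icc (T + 14) (2 * T - 14) := ⟨_, rfl⟩
  rw [← hJ] at hsm hmainp ⊢
  have hJf : volume J ≠ ⊤ := by rw [hJ, Real.volume_Icc]; exact ENNReal.ofReal_ne_top
  have hfin : ∀ V : Set ℝ, volume (V ∩ J) ≠ ⊤ := fun V =>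
    ((measure_mono inter_subset_right).trans_lt hJf.lt_top).ne
  have hshift : ∀ v : ℝ, |v| ≤ I * η * q + M → |2 * Real.pi * (b + min v 0) / Real.log T| ≤ 14 := by
    intro v hv
    rw [← hL, abs_div, abs_of_pos hL0, div_le_iff₀ hL0, abs_mul, abs_of_pos (by positivity : 0 < 2 * Real.pi)]
    have a1 : |(b : ℝ) + min v 0| ≤ 2 * L := by
      obtain ⟨v1, v2⟩ := abs_le.1 hv
      rcases le_total v 0 with h | h
      · rw [min_eq_left h, abs_le]
        constructor <;> linarith
      · rw [min_eq_right h, abs_le]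
        constructor <;> linarith
    nlinarith [abs_nonneg ((b : ℝ) + min v 0)]
  have hgrid : ∀ i ∈ Finset.range (2 * I + 1), |((i : ℝ) - I) * (η * q)| ≤ I * η * q := by
    intro i hi
    rw [Finset.mem_range] at hi
    rw [abs_mul, abs_of_pos (by positivity : 0 < η * q)]
    have a1 : |(i : ℝ) - I| ≤ I := by
      rw [abs_le]
      have a2 : (i : ℝ) ≤ 2 * I := by exact_mod_cast (by omega : i ≤ 2 * I)
      have a3 : (0 : ℝ) ≤ i := Nat.cast_nonneg _
      constructor <;> linarith
    calc |(i : ℝ) - I| * (η * q) ≤ I * (η * q) := by gcongr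
      _ = _ := by ring
  unfold Wb
  rw [union_inter_distrib_right, union_inter_distrib_right, union_inter_distrib_right]
  have u1 : volume.real ((⋃ i ∈ Finset.range (2 * I + 1), {t | η * q / 4 ≤ |YY T (|((i : ℝ) - I) * (η * q)|)
      (t + 2 * Real.pi * (b + min (((i : ℝ) - I) * (η * q)) 0) / Real.log T)|}) ∩ J) ≤ (2 * I + 1) * e := by
    rw [iUnion₂_inter]
    refine (measureReal_biUnion_finset_le _ _).trans ?_
    refine (Finset.sum_le_sum (g := fun _ => e) fun i hi => ?_).trans (le_of_eq ?_)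
    · have := hgrid i hi
      exact hsm _ _ _ (abs_nonneg _) (by linarith) (hshift _ (by linarith)) (by
        have : 0 < η * q := by positivity
        linarith)
    · rw [Finset.sum_const, Finset.card_range, nsmul_eq_mul]
      push_cast
      ring
  have u2 : volume.real ((⋃ i ∈ Finset.range (2 * I + 1), {t | η * q / 4 ≤ |YY T (|((i : ℝ) - I) * (η * q) + M|)
      (t + 2 * Real.pi * (b + min (((i : ℝ) - I) * (η * q) + M) 0) / Real.log T)|}) ∩ J) ≤ (2 * I + 1) * e := by
    rw [iUnion₂_inter]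
    refine (measureReal_biUnion_finset_le _ _).trans ?_
    refine (Finset.sum_le_sum (g := fun _ => e) fun i hi => ?_).trans (le_of_eq ?_)
    · have h6 := hgrid i hi
      have h7 := abs_add_le (((i : ℝ) - I) * (η * q)) M
      rw [abs_of_pos hM] at h7
      exact hsm _ _ _ (abs_nonneg _) (by linarith) (hshift _ (by linarith)) (by
        have : 0 < η * q := by positivity
        linarith)
    · rw [Finset.sum_const, Finset.card_range, nsmul_eq_mul]
      push_cast
      ring
  have u3 : volume.real ({t | η * q / 8 ≤ |YY T M (t + 0)|} ∩ J) ≤ e :=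
    hsm _ _ _ hM.le (by linarith) (by simp) le_rfl
  have v1 := measureReal_union_le (μ := volume) ({t | K * q ≤ |YY T b (t + 0)|} ∩ J)
    ({t | η * q / 8 ≤ |YY T M (t + 0)|} ∩ J)
  have v2 := measureReal_union_le (μ := volume) ((⋃ i ∈ Finset.range (2 * I + 1),
      {t | η * q / 4 ≤ |YY T (|((i : ℝ) - I) * (η * q)|)
      (t + 2 * Real.pi * (b + min (((i : ℝ) - I) * (η * q)) 0) / Real.log T)|}) ∩ J)
      ((⋃ i ∈ Finset.range (2 * I + 1), {t | η * q / 4 ≤ |YY T (|((i : ℝ) - I) * (η * q) + M|)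
      (t + 2 * Real.pi * (b + min (((i : ℝ) - I) * (η * q) + M) 0) / Real.log T)|}) ∩ J)
  refine (measureReal_union_le _ _).trans ?_
  rw [hn1] at he0
  linarith

end Pool.Agent.R320.JL
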