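import Pool.Agent.R320.JL.Ze

/-! # Windows of all lengths -/

set_option autoImplicit false

namespace Pool.Agent.R320.JL

open Filter Topology MeasureTheory Complex Set
open Pool.Agent.Y743.CL
open Pool.Agent.TH850.UV
open SG (NZ)

noncomputable section

lemma er_PP (lam κ T a t : ℝ) : er lam κ T a t =
    ((NZ (t + 2 * Real.pi * a / Real.log T) : ℝ) - NZ t) - a +
      (PP (ze (Real.log T / lam) (2 * Real.pi * a / Real.log T)) (XK κ T) t).re := by
  unfold er
  rw [G_PP]

lemma er_shift (lam κ T a b t : ℝ) : er lam κ T a t = er lam κ T (a + b) t -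
    er lam κ T b (t + 2 * Real.pi * a / Real.log T) := by
  rw [er_PP, er_PP, er_PP, PP_shift (Real.log T / lam) (2 * Real.pi * a / Real.log T)
    (2 * Real.pi * b / Real.log T) (XK κ T) t, Complex.sub_re]
  have e1 : 2 * Real.pi * a / Real.log T + 2 * Real.pi * b / Real.log T =
      2 * Real.pi * (a + b) / Real.log T := by ring
  have e2 : t + 2 * Real.pi * a / Real.log T + 2 * Real.pi * b / Real.log T =
      t + 2 * Real.pi * (a + b) / Real.log T := by ring
  rw [e1, e2]
  ring

theorem comb2 (B : ℝ) (hB : 1 ≤ B) : ∃ lam C T0 : ℝ, 16 ≤ lam ∧ 0 < C ∧ 10 ≤ T0 ∧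
    ∀ T : ℝ, T0 ≤ T → ∀ a : ℝ, 0 ≤ a → a * Real.log a ≤ B * Real.log T →
    ∀ κ : ℝ, 0 < κ → κ ≤ 1 / 8 → 8 ≤ κ * Real.log T →
    T + Real.log T ≤ 2 * T - Real.log T - 14 ∧
    IntervalIntegrable (fun t => er lam κ T a t ^ 2) volume (T + Real.log T) (2 * T - Real.log T - 14) ∧
    ∫ t in (T + Real.log T)..(2 * T - Real.log T - 14), er lam κ T a t ^ 2 ≤
      C * (1 + Real.log (1 / κ)) * T ∧
    (1 ≤ a → |ph (Real.log T / lam) (XK κ T) (2 * Real.pi * a / Real.log T) -
      2 / Real.pi ^ 2 * Real.log a| ≤ C * (1 + Real.log (1 / κ))) := by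
  obtain ⟨lam, C, T1, hlam, hC, hT1, h⟩ := comb B hB
  have hpi := Real.pi_pos
  have hpi3 := Real.pi_gt_three
  have hlam0 : 0 < lam := by linarith
  have hev : ∀ᶠ T : ℝ in atTop, 2 * Real.log T + 14 ≤ T := by
    have h1 : (fun T : ℝ => 2 * Real.log T + 14) =o[atTop] fun T : ℝ => T :=
      (Real.isLittleO_log_id_atTop.const_mul_left 2).add (Asymptotics.isLittleO_const_id_atTop _)
    have h2 := h1.bound (c := 1) (by norm_num)
    filter_upwards [h2, eventually_ge_atTop 1] with T hT hT1
    rw [Real.norm_of_nonneg (by linarith : (0 : ℝ) ≤ T)] at hT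
    have := (le_abs_self _).trans hT
    linarith
  obtain ⟨M0, hM0⟩ : ∃ M0 : ℝ, M0 = 2 * lam * Real.log (2 * lam) + 2 * lam := ⟨_, rfl⟩
  obtain ⟨T3, hT3⟩ := (hev.and (Real.tendsto_log_atTop.eventually_ge_atTop M0)).exists_forall_of_atTop
  have hl2 : 0 < Real.log (2 * lam) := Real.log_pos (by linarith)
  obtain ⟨C', hC'⟩ : ∃ C' : ℝ, C' = 4 * C + 5 * Real.log (2 * lam) := ⟨_, rfl⟩
  have hCC : 4 * C ≤ C' := by rw [hC']; linarith
  refine ⟨lam, C', max T1 T3, hlam, by linarith, hT1.trans (le_max_left _ _),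
    fun T hT a ha haL κ hκ hκ8 hκT => ?_⟩
  have hTT1 : T1 ≤ T := (le_max_left _ _).trans hT
  obtain ⟨g4, g5⟩ := hT3 T ((le_max_right _ _).trans hT)
  have hT10 : 10 ≤ T := hT1.trans hTT1
  have hT0 : 0 < T := by linarith
  obtain ⟨L, hL⟩ : ∃ L : ℝ, L = Real.log T := ⟨_, rfl⟩
  rw [← hL] at g4 g5 hκT haL ⊢
  have hL0 : 0 < L := by rw [hL]; exact Real.log_pos (by linarith)
  have hlogκ : 0 ≤ Real.log (1 / κ) := by
    apply Real.log_nonneg
    rw [le_div_iff₀ hκ]
    linarith
  have hq : 1 ≤ 1 + Real.log (1 / κ) := by linarith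
  refine ⟨by linarith, ?_⟩
  rcases le_or_gt lam a with hla | hla
  · obtain ⟨h1, h2, h3⟩ := h T hTT1 a hla (by rw [← hL]; exact haL) κ hκ hκ8 (by rw [← hL]; exact hκT)
    rw [← hL] at h1 h2 h3
    have hsub : Icc (T + L) (2 * T - L - 14) ⊆ Icc (T + L) (2 * T - L - 7) :=
      Icc_subset_Icc_right (by linarith)
    have hi : IntervalIntegrable (fun t => er lam κ T a t ^ 2) volume (T + L) (2 * T - L - 14) :=
      h1.mono_set (by rw [uIcc_of_le (by linarith), uIcc_of_le (by linarith)]; exact hsub)
    refine ⟨hi, ?_, fun _ => ?_⟩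
    · refine (intervalIntegral.integral_mono_interval (c := T + L) (d := 2 * T - L - 7) le_rfl
        (by linarith) (by linarith) (ae_of_all _ fun t => sq_nonneg _) h1).trans (h2.trans ?_)
      apply mul_le_mul_of_nonneg_right _ hT0.le
      apply mul_le_mul_of_nonneg_right _ (by linarith)
      linarith
    · rw [ph_VS]
      refine h3.trans ?_
      apply mul_le_mul_of_nonneg_right _ (by linarith)
      linarith
  · -- a short window
    have b1 : (a + lam) * Real.log (a + lam) ≤ B * Real.log T := by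
      rw [← hL]
      have k1 : Real.log (a + lam) ≤ Real.log (2 * lam) := Real.log_le_log (by linarith) (by linarith)
      have k2 : (a + lam) * Real.log (a + lam) ≤ 2 * lam * Real.log (2 * lam) := by
        apply mul_le_mul (by linarith) k1 (Real.log_nonneg (by linarith)) (by linarith)
      have k3 : L ≤ B * L := by nlinarith
      linarith
    have b2 : lam * Real.log lam ≤ B * Real.log T := by
      rw [← hL]
      have k1 : Real.log lam ≤ Real.log (2 * lam) := Real.log_le_log (by linarith) (by linarith)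
      have k2 : lam * Real.log lam ≤ 2 * lam * Real.log (2 * lam) := by
        apply mul_le_mul (by linarith) k1 (Real.log_nonneg (by linarith)) (by linarith)
      have k3 : L ≤ B * L := by nlinarith
      linarith
    obtain ⟨p1, p2, p3⟩ := h T hTT1 (a + lam) (by linarith) b1 κ hκ hκ8 (by rw [← hL]; exact hκT)
    obtain ⟨q1, q2, q3⟩ := h T hTT1 lam le_rfl b2 κ hκ hκ8 (by rw [← hL]; exact hκT)
    rw [← hL] at p1 p2 p3 q1 q2 q3
    obtain ⟨x, hx⟩ : ∃ x : ℝ, x = 2 * Real.pi * a / L := ⟨_, rfl⟩
    have hx0 : 0 ≤ x := by rw [hx]; positivity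
    have hx7 : x ≤ 7 := by
      rw [hx, div_le_iff₀ hL0]
      have : a ≤ L := by nlinarith
      nlinarith only [Real.pi_lt_d2, this, hL0, ha]
    have hes : ∀ t, er lam κ T a t = er lam κ T (a + lam) t - er lam κ T lam (t + x) := by
      intro t
      rw [er_shift lam κ T a lam t, ← hL, ← hx]
    have hi1 : IntervalIntegrable (fun t => er lam κ T (a + lam) t ^ 2) volume (T + L) (2 * T - L - 14) :=
      p1.mono_set (by rw [uIcc_of_le (by linarith), uIcc_of_le (by linarith)];
                      exact Icc_subset_Icc_right (by linarith))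
    have hi2 : IntervalIntegrable (fun t => er lam κ T lam (t + x) ^ 2) volume (T + L) (2 * T - L - 14) := by
      have := (q1.mono_set (c := T + L + x) (d := 2 * T - L - 14 + x) (by
        rw [uIcc_of_le (by linarith), uIcc_of_le (by linarith)]
        exact Icc_subset_Icc (by linarith) (by linarith))).comp_add_right x
      simpa using this
    have hbd : ∀ t, er lam κ T a t ^ 2 ≤ 2 * er lam κ T (a + lam) t ^ 2 +
        2 * er lam κ T lam (t + x) ^ 2 := by
      intro t
      rw [hes t]
      nlinarith [sq_nonneg (er lam κ T (a + lam) t + er lam κ T lam (t + x))]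
    have hi : IntervalIntegrable (fun t => er lam κ T a t ^ 2) volume (T + L) (2 * T - L - 14) := by
      refine ((hi1.const_mul 2).add (hi2.const_mul 2)).mono_fun'
        ((er_meas lam κ T a).pow_const 2).aestronglyMeasurable (ae_of_all _ fun t => ?_)
      show ‖er lam κ T a t ^ 2‖ ≤ _
      rw [Real.norm_of_nonneg (sq_nonneg _)]
      exact hbd t
    refine ⟨hi, ?_, fun ha1 => ?_⟩
    · have m1 := intervalIntegral.integral_mono_on (by linarith : T + L ≤ 2 * T - L - 14) hi
        ((hi1.const_mul 2).add (hi2.const_mul 2)) fun t _ => hbd t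
      rw [intervalIntegral.integral_add (hi1.const_mul 2) (hi2.const_mul 2),
        intervalIntegral.integral_const_mul, intervalIntegral.integral_const_mul] at m1
      have m2 := intervalIntegral.integral_mono_interval (c := T + L) (d := 2 * T - L - 7) le_rfl
        (by linarith : T + L ≤ 2 * T - L - 14) (by linarith)
        (ae_of_all _ fun t => sq_nonneg (er lam κ T (a + lam) t)) p1
      have m3 : ∫ t in (T + L)..(2 * T - L - 14), er lam κ T lam (t + x) ^ 2 ≤
          ∫ t in (T + L)..(2 * T - L - 7), er lam κ T lam t ^ 2 := by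
        rw [intervalIntegral.integral_comp_add_right (fun t => er lam κ T lam t ^ 2)]
        exact intervalIntegral.integral_mono_interval (by linarith) (by linarith) (by linarith)
          (ae_of_all _ fun t => sq_nonneg _) q1
      have m4 : 4 * (C * (1 + Real.log (1 / κ)) * T) ≤ C' * (1 + Real.log (1 / κ)) * T := by
        have : 4 * (C * (1 + Real.log (1 / κ)) * T) = 4 * C * (1 + Real.log (1 / κ)) * T := by ring
        rw [this]
        apply mul_le_mul_of_nonneg_right _ hT0.le
        exact mul_le_mul_of_nonneg_right hCC (by linarith)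
      linarith
    · have n1 := ph_add (L / lam) (XK κ T) (2 * Real.pi * a / L) (2 * Real.pi * lam / L)
      have e1 : 2 * Real.pi * a / L + 2 * Real.pi * lam / L = 2 * Real.pi * (a + lam) / L := by ring
      rw [e1] at n1
      have n2 := ph_nonneg (L / lam) (XK κ T) (2 * Real.pi * a / L)
      rw [← ph_VS] at p3 q3
      have n3 := (abs_le.1 p3).2
      have n4 := (abs_le.1 q3).2
      have k0 : 2 / Real.pi ^ 2 ≤ 1 / 4 := by
        rw [div_le_div_iff₀ (by positivity) (by norm_num)]
        nlinarith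
      have k1 : Real.log (a + lam) ≤ Real.log (2 * lam) := Real.log_le_log (by linarith) (by linarith)
      have k2 : Real.log lam ≤ Real.log (2 * lam) := Real.log_le_log (by linarith) (by linarith)
      have k3 : 0 ≤ Real.log a := Real.log_nonneg ha1
      have k4 : Real.log a ≤ Real.log (2 * lam) := Real.log_le_log (by linarith) (by linarith)
      have k5 : 0 ≤ 2 / Real.pi ^ 2 := by positivity
      have k6 : 2 / Real.pi ^ 2 * Real.log (a + lam) ≤ 1 / 4 * Real.log (2 * lam) := by
        apply mul_le_mul k0 k1 (Real.log_nonneg (by linarith)) (by norm_num)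
      have k7 : 2 / Real.pi ^ 2 * Real.log lam ≤ 1 / 4 * Real.log (2 * lam) := by
        apply mul_le_mul k0 k2 (Real.log_nonneg (by linarith)) (by norm_num)
      have k8 : 2 / Real.pi ^ 2 * Real.log a ≤ 1 / 4 * Real.log (2 * lam) := by
        apply mul_le_mul k0 k4 k3 (by norm_num)
      have k9 : 0 ≤ 2 / Real.pi ^ 2 * Real.log a := by positivity
      have k10 : 4 * (C * (1 + Real.log (1 / κ))) + Real.log (2 * lam) ≤ C' * (1 + Real.log (1 / κ)) := by
        rw [hC']
        nlinarith [mul_nonneg hl2.le hlogκ]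
      have k11 : 0 ≤ C * (1 + Real.log (1 / κ)) := by positivity
      rw [abs_le]
      constructor
      · linarith
      · linarith

end

end Pool.Agent.R320.JL
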