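import Pool.Agent.R320.JL.Cf
import Pool.Agent.Y743.CL.Cb

/-! # The coefficients of the windows -/

set_option autoImplicit false

namespace Pool.Agent.R320.JL

open Filter Topology MeasureTheory Complex Set
open Pool.Agent.Y743.CL
open Pool.Agent.TH850.UV
open SG (NZ)
open ArithmeticFunction (vonMangoldt)

noncomputable section

/-- the common factor of the coefficients -/
def be (l : ℝ) (n : ℕ) : ℝ :=
  2 * (1 / Real.sqrt (2 * Real.pi)) * (vonMangoldt n * (Real.sqrt n)⁻¹ * ggo l n) *
    (l / (2 * Real.pi) / Real.log n)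

lemma rc_be (l h : ℝ) (n : ℕ) : rc l h n = be l n * (2 * Real.sin (h / 2 * Real.log n)) := by
  unfold rc be
  ring

/-- the coefficients of the window `(t, t + h]` -/
def ze (l h : ℝ) (n : ℕ) : ℂ := -(I * be l n * (1 - Complex.exp (-(I * (h * Real.log n : ℝ)))))

lemma ze_rc (l h : ℝ) (n : ℕ) : ze l h n = (rc l h n : ℂ) * Complex.exp (-(I * (h / 2 * Real.log n : ℝ))) := by
  rw [rc_be]
  unfold ze
  obtain ⟨x, hx⟩ : ∃ x : ℝ, x = h / 2 * Real.log n := ⟨_, rfl⟩
  have e1 : h * Real.log n = x + x := by rw [hx]; ring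
  rw [e1, ← hx]
  push_cast
  have e2 : Complex.exp (-(I * ((x : ℂ) + x))) = Complex.exp (-(I * x)) * Complex.exp (-(I * x)) := by
    rw [← Complex.exp_add]; congr 1; ring
  have e3 : Complex.sin (x : ℂ) = (Complex.exp (-(I * x)) - Complex.exp (I * x)) * I / 2 := by
    unfold Complex.sin
    congr 3
    · congr 1; congr 1; ring
    · congr 1; ring
  have e4 : Complex.exp (I * x) * Complex.exp (-(I * x)) = 1 := by
    rw [← Complex.exp_add]; simp
  rw [e2, e3]
  linear_combination (I * (be l n : ℂ)) * e4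

lemma ze_norm (l h : ℝ) (n : ℕ) : ‖ze l h n‖ = |rc l h n| := by
  rw [ze_rc, norm_mul, Complex.norm_real, Real.norm_eq_abs]
  have : ‖Complex.exp (-(I * (h / 2 * Real.log n : ℝ)))‖ = 1 := by
    have e : -(I * ((h / 2 * Real.log n : ℝ) : ℂ)) = I * ((-(h / 2 * Real.log n) : ℝ) : ℂ) := by
      push_cast; ring
    rw [e, Complex.norm_exp_I_mul_ofReal]
  rw [this, mul_one]

lemma cpow_ex {p : ℕ} (hp : p ≠ 0) (s : ℝ) : (p : ℂ) ^ (-(s : ℂ) * I) = Complex.exp (-(I * (s * Real.log p : ℝ))) := by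
  have hp0 : (p : ℂ) ≠ 0 := by exact_mod_cast hp
  rw [Complex.cpow_def_of_ne_zero hp0, ← Complex.natCast_log]
  congr 1
  push_cast
  ring

lemma G_PP (l h : ℝ) (X : ℕ) (t : ℝ) : G (rc l h) X (t + h / 2) = PP (ze l h) X t := by
  unfold G Pool.Agent.Y41.SW.DP PP
  have h1 : Pr X ⊆ Finset.Icc 1 X := by
    intro p hp
    have := mem_Pr.1 hp
    rw [Finset.mem_Icc]
    exact ⟨this.1.one_lt.le, this.2⟩
  symm
  have h2 : ∑ p ∈ Pr X, ze l h p * (p : ℂ) ^ (-(t : ℂ) * I) =
      ∑ p ∈ Pr X, ((pr (rc l h) X p : ℝ) : ℂ) * (p : ℂ) ^ (-((t + h / 2 : ℝ) : ℂ) * I) := by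
    refine Finset.sum_congr rfl fun p hp => ?_
    have hp' := mem_Pr.1 hp
    rw [pr_apply, if_pos hp', ze_rc, cpow_ex hp'.1.ne_zero, cpow_ex hp'.1.ne_zero, mul_assoc,
      ← Complex.exp_add]
    congr 2
    push_cast
    ring
  rw [h2]
  refine Finset.sum_subset h1 fun p hp hp2 => ?_
  rw [pr_apply, if_neg (fun h => hp2 (mem_Pr.2 h))]
  simp

/-- the shift of a window -/
lemma PP_shift (l h g : ℝ) (X : ℕ) (t : ℝ) :
    PP (ze l h) X t = PP (ze l (h + g)) X t - PP (ze l g) X (t + h) := by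
  unfold PP
  rw [← Finset.sum_sub_distrib]
  refine Finset.sum_congr rfl fun p hp => ?_
  have hp' := mem_Pr.1 hp
  rw [cpow_ex hp'.1.ne_zero, cpow_ex hp'.1.ne_zero]
  unfold ze
  have e1 : Complex.exp (-(I * ((t + h) * Real.log p : ℝ))) =
      Complex.exp (-(I * (t * Real.log p : ℝ))) * Complex.exp (-(I * (h * Real.log p : ℝ))) := by
    rw [← Complex.exp_add]; congr 1; push_cast; ring
  have e2 : Complex.exp (-(I * ((h + g) * Real.log p : ℝ))) =
      Complex.exp (-(I * (h * Real.log p : ℝ))) * Complex.exp (-(I * (g * Real.log p : ℝ))) := by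
    rw [← Complex.exp_add]; congr 1; push_cast; ring
  rw [e1, e2]
  ring

/-- the variance function -/
def ph (l : ℝ) (X : ℕ) (x : ℝ) : ℝ := ∑ p ∈ Pr X, be l p ^ 2 * (2 * (1 - Real.cos (x * Real.log p)))

lemma ph_VS (l : ℝ) (X : ℕ) (x : ℝ) : ph l X x = VS (rc l x) X := by
  unfold ph VS
  refine Finset.sum_congr rfl fun p _ => ?_
  rw [rc_be, mul_pow, mul_pow]
  congr 1
  have h1 : x * Real.log p = 2 * (x / 2 * Real.log p) := by ring
  have h2 := Real.sin_sq_add_cos_sq (x / 2 * Real.log p)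
  rw [h1, Real.cos_two_mul]
  linarith

lemma ph_nonneg (l : ℝ) (X : ℕ) (x : ℝ) : 0 ≤ ph l X x := by
  rw [ph_VS]; exact VS_nonneg _ _

lemma ph_neg (l : ℝ) (X : ℕ) (x : ℝ) : ph l X (-x) = ph l X x := by
  unfold ph
  refine Finset.sum_congr rfl fun p _ => ?_
  rw [neg_mul, Real.cos_neg]

lemma ph_abs (l : ℝ) (X : ℕ) (x : ℝ) : ph l X |x| = ph l X x := by
  rcases abs_choice x with h | h
  · rw [h]
  · rw [h, ph_neg]

lemma ph_zero (l : ℝ) (X : ℕ) : ph l X 0 = 0 := by
  unfold ph
  simp

lemma ph_add (l : ℝ) (X : ℕ) (x y : ℝ) : ph l X x ≤ 2 * ph l X (x + y) + 2 * ph l X y := by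
  unfold ph
  rw [Finset.mul_sum, Finset.mul_sum, ← Finset.sum_add_distrib]
  refine Finset.sum_le_sum fun p _ => ?_
  obtain ⟨a, ha⟩ : ∃ a : ℝ, a = x * Real.log p := ⟨_, rfl⟩
  obtain ⟨b, hb⟩ : ∃ b : ℝ, b = y * Real.log p := ⟨_, rfl⟩
  have e1 : (x + y) * Real.log p = a + b := by rw [ha, hb]; ring
  rw [e1, ← ha, ← hb]
  have key : 1 - Real.cos a ≤ 2 * (1 - Real.cos (a + b)) + 2 * (1 - Real.cos b) := by
    have h1 : Real.cos a = Real.cos (a + b) * Real.cos b + Real.sin (a + b) * Real.sin b := by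
      rw [← Real.cos_sub]; congr 1; ring
    have h2 := Real.sin_sq_add_cos_sq (a + b)
    have h3 := Real.sin_sq_add_cos_sq b
    nlinarith [sq_nonneg (Real.sin (a + b) + Real.sin b), sq_nonneg (Real.cos (a + b) + Real.cos b - 2)]
  have h4 : 0 ≤ be l p ^ 2 := sq_nonneg _
  nlinarith [mul_le_mul_of_nonneg_left key h4]

/-- the variance of a linear combination of windows -/
lemma VS_comb {k : ℕ} (c : Fin k → ℝ) (l : ℝ) (X : ℕ) (x : Fin k → ℝ) :
    VS (nz (fun p => ∑ i, (c i : ℂ) * ze l (x i) p)) X =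
      ∑ i, ∑ j, c i * c j * ((ph l X (x i) + ph l X (x j) - ph l X (x i - x j)) / 2) := by
  have h1 : ∀ p : ℕ, nz (fun p => ∑ i, (c i : ℂ) * ze l (x i) p) p ^ 2 =
      ∑ i, ∑ j, c i * c j * (be l p ^ 2 * ((1 - Real.cos (x i * Real.log p)) +
        (1 - Real.cos (x j * Real.log p)) - (1 - Real.cos ((x i - x j) * Real.log p)))) := by
    intro p
    unfold nz
    rw [← Complex.normSq_eq_norm_sq, ← Complex.ofReal_inj, ← Complex.mul_conj, map_sum,
      Finset.sum_mul_sum]
    have e1 : ∀ i j : Fin k, ((c i : ℂ) * ze l (x i) p) * (starRingEnd ℂ) ((c j : ℂ) * ze l (x j) p) =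
        (c i * c j * be l p ^ 2 : ℝ) * ((1 - Complex.exp (-(I * (x i * Real.log p : ℝ)))) *
          (1 - Complex.exp (I * (x j * Real.log p : ℝ)))) := by
      intro i j
      unfold ze
      simp only [map_mul, map_neg, map_sub, map_one, Complex.conj_I, Complex.conj_ofReal,
        ← Complex.exp_conj]
      have : Complex.exp (-(-I * ((x j * Real.log p : ℝ) : ℂ))) =
        Complex.exp (I * ((x j * Real.log p : ℝ) : ℂ)) := by congr 1; ring
      rw [this]
      generalize Complex.exp (-(I * ((x i * Real.log p : ℝ) : ℂ))) = A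
      generalize Complex.exp (I * ((x j * Real.log p : ℝ) : ℂ)) = B
      push_cast
      linear_combination (-(c i : ℂ) * c j * be l p ^ 2 * (1 - A) * (1 - B)) * Complex.I_sq
    simp only [e1]
    have e2 : ∀ u : ℝ, Complex.exp (I * u) = Real.cos u + Real.sin u * I := by
      intro u
      rw [mul_comm, Complex.exp_mul_I]
      push_cast
      rfl
    have e3 : ∀ u : ℝ, Complex.exp (-(I * u)) = Real.cos u - Real.sin u * I := by
      intro u
      have := e2 (-u)
      rw [Real.cos_neg, Real.sin_neg] at this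
      push_cast at this ⊢
      rw [← mul_neg, this]
      ring
    simp only [e2, e3]
    -- symmetrise
    have e4 : ∀ i j : Fin k, ((c i * c j * be l p ^ 2 : ℝ) : ℂ) *
        ((1 - ((Real.cos (x i * Real.log p) : ℂ) - Real.sin (x i * Real.log p) * I)) *
          (1 - ((Real.cos (x j * Real.log p) : ℂ) + Real.sin (x j * Real.log p) * I))) =
        ((c i * c j * (be l p ^ 2 * ((1 - Real.cos (x i * Real.log p)) +
        (1 - Real.cos (x j * Real.log p)) - (1 - Real.cos ((x i - x j) * Real.log p)))) : ℝ) : ℂ) +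
        ((c i * c j * be l p ^ 2 * (Real.sin (x i * Real.log p) * (1 - Real.cos (x j * Real.log p)) -
          Real.sin (x j * Real.log p) * (1 - Real.cos (x i * Real.log p))) : ℝ) : ℂ) * I := by
      intro i j
      have e5 : Real.cos ((x i - x j) * Real.log p) = Real.cos (x i * Real.log p) * Real.cos (x j * Real.log p) +
        Real.sin (x i * Real.log p) * Real.sin (x j * Real.log p) := by
        rw [sub_mul, Real.cos_sub]
      rw [e5]
      generalize Real.cos (x i * Real.log p) = ci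
      generalize Real.cos (x j * Real.log p) = cj
      generalize Real.sin (x i * Real.log p) = si
      generalize Real.sin (x j * Real.log p) = sj
      push_cast
      linear_combination (-((c i : ℂ) * c j * be l p ^ 2 * si * sj)) * Complex.I_sq
    simp only [e4, Finset.sum_add_distrib]
    have e6 : ∑ i, ∑ j, ((c i * c j * be l p ^ 2 * (Real.sin (x i * Real.log p) * (1 - Real.cos (x j * Real.log p)) -
          Real.sin (x j * Real.log p) * (1 - Real.cos (x i * Real.log p))) : ℝ) : ℂ) * I = 0 := by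
      have e7 : ∑ i, ∑ j, c i * c j * be l p ^ 2 * (Real.sin (x i * Real.log p) * (1 - Real.cos (x j * Real.log p)) -
          Real.sin (x j * Real.log p) * (1 - Real.cos (x i * Real.log p))) = 0 := by
        have e8 : ∀ i j, c i * c j * be l p ^ 2 * (Real.sin (x i * Real.log p) * (1 - Real.cos (x j * Real.log p)) -
          Real.sin (x j * Real.log p) * (1 - Real.cos (x i * Real.log p))) =
          c i * c j * be l p ^ 2 * (Real.sin (x i * Real.log p) * (1 - Real.cos (x j * Real.log p))) -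
          c i * c j * be l p ^ 2 * (Real.sin (x j * Real.log p) * (1 - Real.cos (x i * Real.log p))) := by
          intro i j; ring
        simp only [e8, Finset.sum_sub_distrib]
        rw [sub_eq_zero]
        conv_rhs => rw [Finset.sum_comm]
        refine Finset.sum_congr rfl fun i _ => Finset.sum_congr rfl fun j _ => ?_
        ring
      simp only [← Finset.sum_mul]
      have e9 := congrArg (fun y : ℝ => (y : ℂ)) e7
      simp only [Complex.ofReal_sum, Complex.ofReal_zero] at e9
      rw [e9, zero_mul]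
    rw [e6, add_zero]
    push_cast
    rfl
  unfold VS
  simp only [h1]
  rw [Finset.sum_comm]
  refine Finset.sum_congr rfl fun i _ => ?_
  rw [Finset.sum_comm]
  refine Finset.sum_congr rfl fun j _ => ?_
  unfold ph
  rw [← Finset.mul_sum]
  congr 1
  rw [← Finset.sum_add_distrib, ← Finset.sum_sub_distrib, Finset.sum_div]
  refine Finset.sum_congr rfl fun p _ => ?_
  ring

end

end Pool.Agent.R320.JL
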